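import Pool.Agent.Lib.MP_250511_an.Geo.Spec

/-!
# MP_250511_an, certificate checker, module AFF: rotation and affine maps of arc boxes
-/

set_option autoImplicit false

namespace Pool.Agent.Lib.MP250511.GEOM

open Complex

namespace AFFM

lemma fl_le (n : Int) : ((n / 1048576 : Int) : ℝ) ≤ (n : ℝ) / 1048576 := by
  rw [le_div_iff₀ (by norm_num)]
  have h := Int.ediv_mul_le n (b := 1048576) (by norm_num)
  exact_mod_cast h

lemma lt_fl (n : Int) : (n : ℝ) / 1048576 < ((n / 1048576 : Int) : ℝ) + 1 := by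
  rw [div_lt_iff₀ (by norm_num)]
  have h := Int.lt_ediv_add_one_mul_self n (b := 1048576) (by norm_num)
  exact_mod_cast h

lemma rot {w : AB} {W : ℂ} (h : InAB w W) : InAB (rotI w) (I * W) := by
  obtain ⟨c, hc, h1, h2⟩ := h
  refine ⟨c, hc, ?_, ?_⟩
  · simp only [rotI, mul_re, I_re, I_im]
    push_cast
    have : 1048576 * (0 * W.re - 1 * W.im) - (-(w.ic : ℝ) + -(w.iz : ℝ) * c) =
        -(1048576 * W.im - (w.ic + w.iz * c)) := by ring
    rw [this, abs_neg]
    exact h2
  · simp only [rotI, mul_im, I_re, I_im]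
    have : 1048576 * (0 * W.im + 1 * W.re) - ((w.rc : ℝ) + w.rz * c) =
        1048576 * W.re - (w.rc + w.rz * c) := by ring
    rw [this]
    exact h1

lemma aff1 (a bn rc rz rr : Int) (hb : 0 ≤ bn) (c X : ℝ) (hc : |c| ≤ 1)
    (h : |1048576 * X - ((rc : ℝ) + rz * c)| ≤ rr) :
    |1048576 * ((a : ℝ) / 1048576 + (bn : ℝ) / 1048576 * X) -
      (((a + bn * rc / 1048576 : Int) : ℝ) + ((bn * rz / 1048576 : Int) : ℝ) * c)| ≤
        ((bn * rr / 1048576 + 3 : Int) : ℝ) := by
  have hb' : (0 : ℝ) ≤ bn := by exact_mod_cast hb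
  have f1 := fl_le (bn * rc)
  have f2 := lt_fl (bn * rc)
  have f3 := fl_le (bn * rz)
  have f4 := lt_fl (bn * rz)
  have f5 := lt_fl (bn * rr)
  push_cast at f1 f2 f3 f4 f5 ⊢
  set F1 : ℝ := ((bn * rc / 1048576 : Int) : ℝ)
  set F2 : ℝ := ((bn * rz / 1048576 : Int) : ℝ)
  set F3 : ℝ := ((bn * rr / 1048576 : Int) : ℝ)
  obtain ⟨c1, c2⟩ := abs_le.1 hc
  obtain ⟨h1, h2⟩ := abs_le.1 h
  -- the error of the product
  have e1 : |((bn : ℝ) * rz / 1048576 - F2) * c| ≤ 1 := by
    rw [abs_mul]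
    have : |(bn : ℝ) * rz / 1048576 - F2| ≤ 1 := abs_le.2 ⟨by linarith, by linarith⟩
    calc |(bn : ℝ) * rz / 1048576 - F2| * |c| ≤ 1 * 1 :=
          mul_le_mul this hc (abs_nonneg _) (by norm_num)
      _ = 1 := one_mul 1
  obtain ⟨e2, e3⟩ := abs_le.1 e1
  have e4 : (bn : ℝ) * (1048576 * X - ((rc : ℝ) + rz * c)) ≤ bn * rr :=
    mul_le_mul_of_nonneg_left h2 hb'
  have e5 : -((bn : ℝ) * rr) ≤ bn * (1048576 * X - ((rc : ℝ) + rz * c)) := by
    have := mul_le_mul_of_nonneg_left h1 hb'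
    linarith
  have key : 1048576 * ((a : ℝ) / 1048576 + (bn : ℝ) / 1048576 * X) - ((a : ℝ) + F1 + F2 * c) =
      bn * (1048576 * X - ((rc : ℝ) + rz * c)) / 1048576 + ((bn : ℝ) * rc / 1048576 - F1) +
        ((bn : ℝ) * rz / 1048576 - F2) * c := by ring
  rw [key]
  have e6 : (bn : ℝ) * (1048576 * X - ((rc : ℝ) + rz * c)) / 1048576 ≤ bn * rr / 1048576 :=
    div_le_div_of_nonneg_right e4 (by norm_num)
  have e7 : -((bn : ℝ) * rr / 1048576) ≤
      bn * (1048576 * X - ((rc : ℝ) + rz * c)) / 1048576 := by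
    have := div_le_div_of_nonneg_right e5 (c := 1048576) (by norm_num)
    rw [neg_div] at this
    exact this
  exact abs_le.2 ⟨by linarith, by linarith⟩

end AFFM

open AFFM

theorem specAFF : SpecAFF := by
  intro w W h
  constructor
  · intro k hk
    interval_cases k
    · simpa [rotK] using h
    · simpa [rotK] using rot h
    · have := rot (rot h)
      rw [← mul_assoc, ← pow_two] at this
      exact this
    · have := rot (rot (rot h))
      rw [← mul_assoc, ← mul_assoc, ← pow_two, ← pow_succ] at this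
      exact this
  · intro ar ai bn hb
    obtain ⟨c, hc, h1, h2⟩ := h
    refine ⟨c, hc, ?_, ?_⟩
    · have := aff1 ar bn w.rc w.rz w.rr hb c W.re hc h1
      simpa [affAB, NS] using this
    · have := aff1 ai bn w.ic w.iz w.ir hb c W.im hc h2
      simpa [affAB, NS] using this

end Pool.Agent.Lib.MP250511.GEOM
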