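import Pool.Agent.Lib.MP_250511_an.Geo.CHK
import Pool.Agent.Lib.MP_250511_an.Spec

/-!
Problem MP_250511_an: from the certificate to GEO.
-/

set_option autoImplicit false

namespace Pool.Agent.Lib.MP250511.GEOM

open Complex

noncomputable section

/-- what a certificate for a box of `(d, β, s)` shows -/
def Cov (d0 d1 be0 be1 s0 s1 : Int) : Prop := ∀ (E : Set ℂ) (β : ℝ),
  (0 : ℂ) ∈ E → (∀ v ∈ E, ∀ w ∈ E, v ≠ w → PairOK β v w) → Hits E (5 / 3) →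
  (∀ v ∈ E, ‖v‖ < 2) → |β| ≤ 1 / 2 → (be0 : ℝ) ≤ 1048576 * β → 1048576 * β ≤ be1 →
  ∀ d s : ℝ, (d0 : ℝ) ≤ 1048576 * d → 1048576 * d ≤ d1 → (s0 : ℝ) ≤ 4096 * s →
    4096 * s ≤ s1 → (d : ℂ) * ee s ∈ E → (∀ v ∈ E, ‖v‖ ≤ d) → False

theorem cov_leaf (hEAB : SpecEAB) (hAFF : SpecAFF) (hVPS : SpecVPS) (hPTS : SpecPTS)
    (hMTS : SpecMTS) (hCOV : SpecCOV) {f : ℕ} {d0 d1 be0 be1 s0 s1 : Int} {l : List ℕ}
    (h : (chkTop tab f d0 d1 be0 be1 s0 s1 l).isSome = true)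
    (hc : be0 ≤ be1 ∧ d0 ≤ d1 ∧ -4096 ≤ s0 ∧ s0 ≤ s1 ∧ s1 ≤ 4096) :
    Cov d0 d1 be0 be1 s0 s1 := by
  obtain ⟨l', hl'⟩ := Option.isSome_iff_exists.1 h
  intro E β hz hp hh hl hb hb0 hb1 d s hd0 hd1 hs0 hs1 hE hm
  exact chkTop_sound hEAB hAFF hVPS hPTS hMTS hCOV f _ _ _ _ _ _ _ _ hl' hz hp hh hl hb hb0 hb1
    hc.1 hc.2.1 hc.2.2.1 hc.2.2.2.1 hc.2.2.2.2 d s hd0 hd1 hs0 hs1 hE hm

theorem cov_s {d0 d1 be0 be1 s0 s1 : Int} (m : Int) (h1 : Cov d0 d1 be0 be1 s0 m)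
    (h2 : Cov d0 d1 be0 be1 m s1) : Cov d0 d1 be0 be1 s0 s1 := by
  intro E β hz hp hh hl hb hb0 hb1 d s hd0 hd1 hs0 hs1 hE hm
  rcases le_total (4096 * s) (m : ℝ) with h | h
  · exact h1 E β hz hp hh hl hb hb0 hb1 d s hd0 hd1 hs0 h hE hm
  · exact h2 E β hz hp hh hl hb hb0 hb1 d s hd0 hd1 h hs1 hE hm

theorem cov_d {d0 d1 be0 be1 s0 s1 : Int} (m : Int) (h1 : Cov d0 m be0 be1 s0 s1)
    (h2 : Cov m d1 be0 be1 s0 s1) : Cov d0 d1 be0 be1 s0 s1 := by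
  intro E β hz hp hh hl hb hb0 hb1 d s hd0 hd1 hs0 hs1 hE hm
  rcases le_total (1048576 * d) (m : ℝ) with h | h
  · exact h1 E β hz hp hh hl hb hb0 hb1 d s hd0 h hs0 hs1 hE hm
  · exact h2 E β hz hp hh hl hb hb0 hb1 d s h hd1 hs0 hs1 hE hm

theorem cov_b {d0 d1 be0 be1 s0 s1 : Int} (m : Int) (h1 : Cov d0 d1 be0 m s0 s1)
    (h2 : Cov d0 d1 m be1 s0 s1) : Cov d0 d1 be0 be1 s0 s1 := by
  intro E β hz hp hh hl hb hb0 hb1 d s hd0 hd1 hs0 hs1 hE hm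
  rcases le_total (1048576 * β) (m : ℝ) with h | h
  · exact h1 E β hz hp hh hl hb hb0 h d s hd0 hd1 hs0 hs1 hE hm
  · exact h2 E β hz hp hh hl hb h hb1 d s hd0 hd1 hs0 hs1 hE hm

/-- the hypotheses on `E` with a point of maximal modulus -/
structure Good (E : Set ℂ) (β : ℝ) (v : ℂ) : Prop where
  zero : (0 : ℂ) ∈ E
  pair : ∀ v ∈ E, ∀ w ∈ E, v ≠ w → PairOK β v w
  hits : Hits E (5 / 3)
  lt : ∀ v ∈ E, ‖v‖ < 2
  mem : v ∈ E
  max : ∀ w ∈ E, ‖w‖ ≤ ‖v‖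

theorem good_image {E : Set ℂ} {β : ℝ} {v : ℂ} (h : Good E β v) (σ : ℂ → ℂ)
    (hσ : ∀ z, σ (σ z) = z) (hn : ∀ z w, ‖σ z - σ w‖ = ‖z - w‖) (h0 : σ 0 = 0)
    (hp : ∀ z w, PairOK β z w → PairOK β (σ z) (σ w)) : Good (σ '' E) β (σ v) := by
  have hn0 : ∀ z, ‖σ z‖ = ‖z‖ := by
    intro z
    have := hn z 0
    rwa [h0, sub_zero, sub_zero] at this
  refine ⟨⟨0, h.zero, h0⟩, ?_, ?_, ?_, ⟨v, h.mem, rfl⟩, ?_⟩
  · rintro _ ⟨z, hz, rfl⟩ _ ⟨w, hw, rfl⟩ hne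
    exact hp _ _ (h.pair z hz w hw (fun e => hne (by rw [e])))
  · intro a r ha hr
    obtain ⟨z, hz, hzr⟩ := h.hits (σ a) r (by rwa [hn0]) (by rwa [hn0])
    refine ⟨σ z, ⟨z, hz, rfl⟩, ?_⟩
    have := hn z (σ a)
    rw [hσ] at this
    rw [this, hzr]
  · rintro _ ⟨z, hz, rfl⟩
    rw [hn0]
    exact h.lt z hz
  · rintro _ ⟨z, hz, rfl⟩
    rw [hn0, hn0]
    exact h.max z hz

theorem specGEO_of (hCOV : SpecCOV) (hSYM : SpecSYM) (hBND : SpecBND)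
    (hcert : Cov 1747626 1887437 0 349526 0 4096) : SpecGEO := by
  intro E β hE h0 hb0 hb1 hpair hhits
  have hlt : ∀ v ∈ E, ‖v‖ < 9 / 5 := by
    intro v hv
    by_cases h : v = 0
    · subst h
      rw [norm_zero]
      norm_num
    · exact hBND β v hb0 hb1 h (hpair v hv 0 h0 h)
  obtain ⟨v, hv, hmax⟩ := hE.exists_isMaxOn ⟨0, h0⟩ continuous_norm.continuousOn
  obtain ⟨v0, hv0, hv0n⟩ := hhits 0 (5 / 3) (by rw [norm_zero]; norm_num)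
    (by rw [norm_zero]; norm_num)
  have hG0 : Good E β v := ⟨h0, hpair, hhits, fun w hw => (hlt w hw).trans (by norm_num), hv,
    fun w hw => hmax hw⟩
  have hvn : 5 / 3 ≤ ‖v‖ := by
    rw [sub_zero] at hv0n
    rw [← hv0n]
    exact hG0.max v0 hv0
  have hvn2 : ‖v‖ < 9 / 5 := hlt v hv
  -- first reflection
  obtain ⟨E1, v1, hG1, hr1, hn1⟩ : ∃ E1 v1, Good E1 β v1 ∧ 0 ≤ v1.re ∧ ‖v1‖ = ‖v‖ := by
    rcases le_total 0 v.re with h | h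
    · exact ⟨E, v, hG0, h, rfl⟩
    · refine ⟨_, _, good_image hG0 (fun z => -(starRingEnd ℂ) z) (by simp) ?_ (by simp)
        (fun z w hzw => (hSYM β z w hzw).2), ?_, ?_⟩
      · intro z w
        rw [← neg_sub_neg, neg_neg, neg_neg, ← map_sub, Complex.norm_conj, norm_sub_rev]
      · simpa using h
      · simp
  obtain ⟨E2, v2, hG2, hr2, hi2, hn2⟩ :
      ∃ E2 v2, Good E2 β v2 ∧ 0 ≤ v2.re ∧ 0 ≤ v2.im ∧ ‖v2‖ = ‖v‖ := by
    rcases le_total 0 v1.im with h | h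
    · exact ⟨E1, v1, hG1, hr1, h, hn1⟩
    · refine ⟨_, _, good_image hG1 (fun z => (starRingEnd ℂ) z) (by simp) ?_ (by simp)
        (fun z w hzw => (hSYM β z w hzw).1), ?_, ?_, ?_⟩
      · intro z w
        rw [← map_sub, Complex.norm_conj]
      · simpa using hr1
      · simpa using h
      · simpa using hn1
  set d : ℝ := ‖v‖ with hd
  have hd0 : 0 < d := by linarith
  have hdc : (d : ℂ) ≠ 0 := by exact_mod_cast hd0.ne'
  have he : ‖v2 / d‖ = 1 := by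
    rw [norm_div, hn2, Complex.norm_real, Real.norm_of_nonneg hd0.le, div_self hd0.ne']
  have hre : (v2 / d).re = v2.re / d := by
    rw [Complex.div_ofReal_re]
  have him : (v2 / d).im = v2.im / d := by
    rw [Complex.div_ofReal_im]
  obtain ⟨s, hs0, hs1, hs⟩ := (hCOV (v2 / d) he).2 (by rw [hre]; positivity)
    (by rw [him]; positivity)
  refine hcert E2 β hG2.zero hG2.pair hG2.hits hG2.lt (by rw [abs_le]; constructor <;> linarith)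
    (by push_cast; linarith) (by push_cast; linarith) d s (by push_cast; linarith)
    (by push_cast; linarith) (by push_cast; linarith) (by push_cast; linarith) ?_ ?_
  · rw [← hs, mul_div_cancel₀ _ hdc]
    exact hG2.mem
  · intro w hw
    rw [← hn2]
    exact hG2.max w hw

end

end Pool.Agent.Lib.MP250511.GEOM
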