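import Pool.Agent.Lib.MP_250511_an.Geo.Core

/-!
Problem MP_250511_an: certificate data, part 0.
-/

set_option autoImplicit false
set_option maxRecDepth 1000000

namespace Pool.Agent.Lib.MP250511.GEOM

theorem ck0 : (chkTop tab 60 1747626 1887437 0 174763 0 256
  [0,
  6,
  7,
  0x1f7c002,
  0x16bd1810017d46a10001048ac2001199bc20014bad4200000d35e05800efdfc580021bbfcb00246bd8b002b5ad42000016ed0410017ec5410001058d0200129a282000052eb508005bad308000d05da1000eedfc1000043d7f04004b97784000a3ed40800ad6b50800d5749406fcb04cc0d,
  0x1f6c002,
  6,
  7,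
  0x1e5bfc2,
  0x16ad1a10017d46a100010184c20010990c20002353804002674c8400001a0bb4b001d8bf4b0004297f96004817c160056b5a8400002dea002002fd8a8200020b1a040024f44040000abd821000ce5d81000ebdfa100004337f84004b17804000a32d60800ad2b60800d591a4155e904aabd,
  0x1e2bf82]).isSome = true := by
  decide +kernel

theorem ck1 : (chkTop tab 60 1747626 1817531 174763 262144 0 128
  [0x16dd0a10017dc66100010389020011498c200128a28200000a5d6a1000a5d6a1000cedd85800035d7996000776fe2c001076005801175f85800245bd8b00251bccb002b5ad420000ad6b50800005c93a04005fd11840004163208004928308000151aec200196ba42001c5be42001e9bfc200001076001001195f61000254bc8200272b9420000a62ce0800ad6b50800d5a8cc0bddd07cd35]).isSome = true := by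
  decide +kernel

theorem ck2 : (chkTop tab 60 1747626 1817531 262144 305835 0 64
  [6,
  0xb8a780800bf22c080008144610008ccdc100002975a840034b7796003697a160000e65f65800f6dfe5800041f8016004617d96000922f62c00952f22c00ad6b5080002b5ad420000173cdc10017f44610001048b020011e9e02000052eb5080057ac60812090012090000a8ac60800ad6b50800d57594024e705272d,
  0x1704f810017dc60100010287c2001109642001219f4200000a5d6a1000a5d6a11002fc8c020002050f040022d34040000a5d6a1000d25de98001d3bf1300040d80260035d791400077efe28000224bf4a002f096820005fd0f840004ba922c000add885800bedb85920024101acddf7a3e921456ea0000d35e05800dadea5800039b7d96003dd7f96000108600580118df65800249bd4b00255bc8b00283b712002fa8d4200020104840020b19040004364f0800772fd28000ff6005000008bafc2800966f028007ef004c00022ebf13002b5ad42002b5ad4200001764c81104804820049d7a04000a76ca2c06bf226273c18678a2800056b5a8400002e99a82002fe87c20002091804002413d840000a5d6a1000b0d901000192b9c224004800259bc0200278b8820000a76ca0800ad6b50800d5bfd4077f1093dbd]).isSome = true := by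
  decide +kernel

end Pool.Agent.Lib.MP250511.GEOM
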