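import Pool.Agent.Lib.MP_250511_an.Geo.Core

/-!
Problem MP_250511_an: certificate data, part 1.
-/

set_option autoImplicit false
set_option maxRecDepth 1000000

namespace Pool.Agent.Lib.MP250511.GEOM

theorem ck3 : (chkTop tab 60 1747626 1817531 305835 349526 0 64
  [6,
  0x5cb3984005f9150400040a21080045e6a0800014bad4224120000a5d6a1000dcdec9800ed5fa980003eb8026004058026d9b637a180320de5ee6000dfdf0500003b57e94003fd80140000221bf8a002ec9902002f394420000bee350800c020e080001048b4200146ac0b00005a2ce2c0063ae52c80480d7cb13a7f4d06cf150003817c16003a37e160007aaff2c000205c00b00217bfcb0004eb7224005156c24000a96c3480015ad6a90015ad6a90002b5ad5200162b28a0002d768140005eada28000195ba4a001b6bd4a00282eb5f862f6f85fe634500e00600dfc1d8018003cf7fa60007d7004c00107e00980004857ba64024120008aafd2c00972ef2ddd91ef6500099aeb48001bdb3196e1b60a4a3a004f171240051b6b24000aa6c1480015ad6a90015ad6a9000b459c500017eb74a000067eed280070af82800003c57f14b8c0580181b086eff30007c7004c00105e009800047f7c264024120008e2fa2c009dae32c06e8abe51c318340568013c5c4900146dac90002a9b05200056b5aa40056b5aa4002c96594002df69940000c1dbe5000034d7814003937d14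00001e9bfca0020ec00a00045b7e14003e3802600082f004c00023fbe132012090400932f42c0013d5c2580dd157ca38630680ad00055b5e16005575f24000ad6b5480040e2808004122f080041633080059acd2800002eb6b940030f711400001a9bc4a001cfbeca00000f7dfe50010a5fe5000232beca71e34becc000413802600011edf2990000be24108824100255bc8b0005036e96036f133250a7c1a02b400004f970240052569a4000ababc480008041c100082458100083c76100084c8610008548c1000854901000c8dce5000c9dce50000000067aed28006baf328000e15f050001e0bf8a0000100600500111dfc500023ebe0a00252bc8a00040d802600011d5f2990090412080131dd8580028cb58b01b523d9099ba0d015a9656b5a98005f917040004020d0800416340800086ca21000e8df850001f4c00a0000109dfe50011a5f65000256bc4a00270b98a00208c0130000111dfc980122dee98002b5ad4200900021927040904009d6e42c0014dd98580d88b5c64ba307d30500056b5a8400002e99a82002fe88420002091504002393a040000a5d6a141ed65e46088dc4be4c2090012090000aa6c00800ad6b50800d577b3fa2ff05272d,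
  0x2e29e02002fc8b820002050f040021f2b040023d3c84000014bad42241001139842000052eb50800672ec4c000dddee9800eedfc980cd32173180033575940006e6f6280076afd2800003ef80140041d8014005d135840001794a810002ff86c2000259479600056ac32c005f2db2c80480d79dfbb7bbf0ce28d0005e7288440052eb50800014bad42001b9bd93001dbbf5300007d7004c0081f004c000d65e450001d2bf0a001fac00a0000113dfa500175cca100177cb810002f493820000bee310800c020a080001058c426a979b6540000596cc2c0062ae32c80480d8134ba8d710ad93d002f394422400014bad42001b4bd53001d6bf1300007c2ff4c0080b004c318e25f26000e2df2500003c77f140041980140000236be8a00265baca00281b74a0028bb5ca002f493c20000bd6490800005f71884006010484000082c6412389b53a600002e96b16003397616402406cd59dc768f85fb4280005e92704480002975a84003877ca60007df004da7746fc300075afd280001f7c00a00221bf8a00001245ec50013d5c250002f98f42002fd8a8200060106040000aa57c9000a8d76580002fb6e16003537896402406d1121c1fac849fb6800e45f458001d5bf0b0003df7f960001095fe5801165f858011cdf458011fdf0580121dee58000015ad6a580154d8090001008302001038a82001078f42000042e4908004324d08004364f080001a8bc4a0003857c14000796ff28000040d8014004557e941828f6f9300080f0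04c000237be93002b5ad4200900021927840904800268ba8b000521699603675cf1df03425025597a0adc5000bee310800080414100082c62100010c9382001d7bf4a0003f580140000219bfca00239be8a0004b57794e3cc976180001115fc9801225ee98002b5ad4200900021b28040904009dae32c0014dd98580d8a5fc6207f0ad7c5002b5ad420000ad6b50800005d73304005fd0f040004122e080052eb50800014bad422402480482400014bad42001c9be930004697d96004e5729600014b59e580175cc8100179ca4100005f71a8400601070400008245a1000cedd8500003237324003c17f140007ef002a2682f00304770bdfe648b0edfc649910dfc601284477f18410400090406bfed5d20ee83678ac81145fa600027cb8020000a8ac60800ad6b50800d5ce0c0fc51093be5]).isSome = true := by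
  decide +kernel

end Pool.Agent.Lib.MP250511.GEOM
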