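import Pool.Agent.Lib.MP_250511_an.Geo.Core

/-!
Problem MP_250511_an: certificate data, part 10.
-/

set_option autoImplicit false
set_option maxRecDepth 1000000

namespace Pool.Agent.Lib.MP250511.GEOM

theorem ck14 : (chkTop tab 60 1782578 1817531 305835 349526 128 192
  [0,
  0xb8a780800bf22e080008143c100087cac10008fcf21000004b6910890002030d040022730840000c45c49800da5ea9800eb5f8980002f56d140033575940006eaf6280077afe2800004058014004517e94005d335840001794a810002ff86c2000257469600055ec12c005e6d92c80480d743cbc15eb0d0fe500192b9cb0000676ec2c006b6f22c0001c5be4b001e7bfcb000080b002c0084eff2c00110dfc5801355d29001405bc900029cb2d200056b5aa4002a35d94002e169940000c95ce5000dbdea500000766fd296c7f30030000ee5fa9800ffe00980004677da640002f8904220900044f7e96004937a960009dee32c06de2664a14f83405680133dd490013edbe9000298b39200055d5e240055d5e24005595f24002ad5f940000b1d94500017cb6ca000067eed280070ef92800003c97f14b6409801800077efe4c0080b004c000236be93200017c4821104800238be8b00277b8cb01baaf494c63a0da1fa004cf7524004fb6fa4000a62ce480015757890015757890015657c90015557e9000abd80500000592cb28000bf5ba5000034577140038d7c9400001e7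bfca0020cc00a0003bf7f2600405802600011b5f4990000be2410882410024bbd4b0004f1711603755e9298c741b43f40099eea48009f6df480014c59c90002aeaf12002aeaf12002acaf92002aaafd2002a9b01200157b04a00000164b2ca0002ff6e940000d1dde5000e45f45000007a2ff280083b0028000efdfc9801016009800046d7d2640002f890422090400932f52c0013cdc4580dd57a4a631d06d0fd002a9b00b0029ab3120005655c24005695b24002b962940005e6d9280001a0bb4a001c6be4a00000f3dfe500106e0050001d5bf13001e6bfd3000401802600011adf6990000be240088240011edf258013d5c2580dc75b49b55707f0ed0000b64ed71a80053d64a40004020d08004122b08005cad52800019ebb4a001c7be8a00000f4dfe500107e0050001d1bf13001e3bf930003fb8026000118df69900904120008d2fb2c00956f12c001405bc580dafacc894d907a09d5ba75b8d40029eb25200020106840020915840020d1b840020f1d840020f1e840000c2dc05000006c2f32800766fd2800003f380140043d7f1419d8cefb30007f7004c000232bed32012082410025cbbcb00050d6d16036c32122536422597400b8cf371280054763240004020c08004163408000864981000dadea50001cbbeca0003d77f94000020ac00a0022cbf0a0c1c7d7c18003f380260001175f898015ad6a100480010c938204824001355d25800292b48b01b334e8e906611f85a0056b5a84000ad6b50800005d73284005fd0f040004122e080052eb50800014bad422402642837003008de19bfcc00239be8a0000a82c80800ad6b50800d5e8141948d09176d,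
  0xb8a790800bf22e080008143c100087cae10008fcf41000004ae8e0890002030d040022730840000c3dc29800d9de89800ea5f8980002ed6b940032774140006caf4280074efc2800003ed8014005cf3784000bca54080017fc361000128a24b0002a75e16002e76b16402406b85f5e38c086714680018ab8cb00191b9cb0000692ef2c000e1df25800f35fe580004018016004257f9600099eea48009fadf480014d59a90002b3add200162b28a000319721400361799400001d0bf0a5ddf6c00c0003b37ea6003f98026000118df6990000be2410882400119df65801325d8580128de69001b789992853e0d015a004cf7524004fd6fa4000a6acd4800159d6e900081c501000af58c5000176b5ca0000666ea28006faf72800003bf7f14b44018018000766fd4c007f3004c000231bed3200017c482110480022bbf0b0024cbd0b0004f37096036f133250a7c1a02b42c73a5c8a0014e59690001008342001048ac2001078e8200186b84a00000d5de45000e9df85000007d300294b83f0030000ebdfa9800fd6009800045f7e264024104800239be8b0025abc0b0005096d96036beb32253641e8274000276b8d2002a0b21200020106040020714840020f1e84000085c921000864981000df5ee50001c1be0a0000726fa28000ed5fa50001f4c00a0000108dfe500118df65061641be0c001f7c01300008b2fc4c00ad6b5080240008649e102410026aba4b000523699603680eb1e7c5426307400ad6b5080015ad6a100000bae650800bfa1e080008245a1000a5d6a100002975a84480400b8e770800bf22e080008143a10008acca100002975a840033b76260006f2f74c00776fe4c00021fbf8b00241be0b0004c17696004f9701600002e29e02002f295420005fd0e840004122f080047a780800014bad420015eb1c200030770044100900056b5a8403574eefd59e427b5d640827003008d216bfcc00234beca000092ef52800ad6b50800d5fd9c1f16f08f57d]).isSome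 = true := by
  decide +kernel

end Pool.Agent.Lib.MP250511.GEOM
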