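import Pool.Agent.Lib.MP_250511_an.Geo.Core

/-!
Problem MP_250511_an: certificate data, part 11.
-/

set_option autoImplicit false
set_option maxRecDepth 1000000

namespace Pool.Agent.Lib.MP250511.GEOM

theorem ck15 : (chkTop tab 60 1747626 1817531 262144 305835 192 256
  [0x16fcfc10017dc60100010288020011197020011e9e0200126a182002b5ad42002fb8d020002030d040022b32840000bf5ba9800ccdd498001b7bd530015eb18a00005eada2800666ea28000dddee5000f5dfe500000b8a790800bca55080017fc361000124a10b0002ab5f84480480d66efbec76b0e901500000056b5a84005f71a040004061a0800456650800017eb75300199ba9300036f7aa6e52eb6b980000bfdba5000d05da50001c6be4a001f9c00a00001714f21001794aa10002ff86c200024f4396000556bf08900901acddf7d8ed61d202a400bf230080008143c10008b4d01000031371a6003697a26003a97e260000c35c25000d45e050001ccbeca001f8c00a000015ad6a5001784b410002fe87c2000253459600055abf2c005dad82c90012080d66efbd1f490a2b750400bf230080008143c10008b4d01000031371a6003697a26003a97e260000c6dca5000d8de650001d8bf4a00205c00a0000122dee5001784b410002fe87c2000259481600056ac32c005f2dc2c90012080d66efbd1f490a2b7500194ba0b000069af02c000e2df25800f35fe580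004118016004457f160055d5e1600531672400040612080041631080065eea280001b4bd0a001d3bf0a00000f7dfe50010860050001e3bf9300044f7ea6402400086498102480004957a96005076e160366acf1e7c540f26555e9cae55000a6ecc480008041e10008245c100084c86100003837c14003c17f1400001fcc00a0021bbfca0003a17e26003e58026000112dfa98015ad6a100480010c93c2049000094ef22c00a26d82c06c8a52378a78340568015e9cae55000a6ecc480008041e10008245c100084c86100003b17e94003e38014000020ac00a00228bf4a0003a17e26003e58026000112dfa98015ad6a100480010c93c2049000096af02c00a3ed42c06c8a52378a78340568015857410002b5ad4200056b5a8400002ea9a42002fe87c20480490090005c13e04005f7188400040a1e080043e5808004827b0800003056fa60033b76260006eef74c00772fd4c00022dbf0b0025cbbcb00277b8cb00001704f81001784b010002fe878200020b1884002433e840000a5d6a1000b2596102402400158d72100d5d9dbfcc150a7d6d002b5ad42002fb8c420002050f040022d34040000a5d6a1000cd5d698001b8bd93001d9bf5300008c2fb2c009b6e82c0002e09f42002f096020005fd0f040004163208004867e0800014bad4200167b3420003397604402400159d6e100d5fb6bec76b0ab90d92a04c00c00487056006473095fe608a21ebf8c02028dafa3000ad6b50800d663b43126d08af8d]).isSome = true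 := by
  decide +kernel

end Pool.Agent.Lib.MP250511.GEOM
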