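import Pool.Agent.Lib.MP_250511_an.Geo.Core

/-!
Problem MP_250511_an: certificate data, part 12.
-/

set_option autoImplicit false
set_option maxRecDepth 1000000

namespace Pool.Agent.Lib.MP250511.GEOM

theorem ck16 : (chkTop tab 60 1747626 1817531 305835 349526 192 256
  [6,
  0xa12db2800bf62a0800081448100088cba10008f4f010009451410001200040a1d08004526408000185b813001b1bcd3001cabe93001d7bf53001dfbf9300069591b9cc0018db94a0933677a18000742fb28007ff002800004617d94005cd3884000bc656080017f43a10001048c020011f9ec2000055ec12c900901acddf7a3e921456ea0033d76160035b79160000e2df25800f45fe580004178016004437f16004557e96000ac2ba2c00a9ac34800080c2210008347010001d2bf0a00007e3002800862ff28000e8df89800fa6009800042f7fa64100900021725040900049b7a160050d6d160366acf1e7c540f265400a7ec908000056b5a844004824024900001724ea10017e45610001028882001109682001219f4200000a5d6a1000c5dc898001a0bb530003817c26003c57f2600010adfe58011bdf4580024cbd4b002b1ae4200056b5a84000ad6b50800005d53484005fd108400040e2a0880002975a844804987e08c0140043107600a41f0bdfea080224bf5401dd8f6f95000ad6b50800d5be8c1f259053765002e49d02002fc8ac200020510840022f35040000c15be98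00cedd898001bcbdd3001debf93000087afe2c00902f82c001305da58015ad6a100000baa690800bfa21080008245610008dce610048240244290b5fea0011adf49000049d7a240056b5a84006ac37a067cc82c722801724e810017e45610001028842001179a82000052eb50800676ec4c000de5ee9800eedfc9800044d7e96004917b160009d2e42c0002e99a42002fe884200020915040023739840120900904008dafa4800024fbcd2002b5ad4200355efb0215bc1519340002e59c82002fd8a8200020510840022d34840000c4dc69800dadea9800eb5fa980004517e96004937a960009dae32c0002df9f42002f096820005fd11040004122b0800472750800014bad42001c0be0a0003b77e95033eb801821680b003082002412006ad775f201a828a66c1708dfe607ee1ebf8c01d68defa3000986ed2800d670243c109036095,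
  0x9f6e02800bf22e080008143e1000884b210008e4e810015ad6a10017dc641000101864200113984200005eedb4c0065ae94c000dadea9800e75f69800aed8c5000005cad52800642e628000dadea5000f0dfc50010760050016cd0e10000002e49d02002f394420005ff0c8400048a7f2c000a85741120120359bbefb1dac3a405400000ad6b50800bf2300800080c3610008a4c6100003117126003697a26003ab7e260000bfdba5000d1ddc50001cebeca0020dc00a0000171cee1001794a810002fe870200024f4396000546bb2c005c6d42c804820359082f8668c2f63f400ad6b50800bf2300800080c3610008a4c6100003117126003697a26003ab7e260000c3dc45000d7de650001debf8a0021cbf8a0000171cee1001794a810002fe8702000255469600055ec02c005e2d92c804820359082f8668c2f63f400bc657080040617080044a5e08000182b7d3001adbc93001c6be5300165b30a00302cc5d46000d1dde50001ccbeca001ffc00a000011e5f250015ad6a50002f394020005ff0c040004be932c000af58c592012035f2c4f057ac439bd4001794a8110011398020000606de4c006b2f24c00736fb4c00017bb6ca0018fb98a000357791400075afc2800823002800004757c94004e57294000bbe5d0800bd64a080002ff868200020b1a040024740840000b15945800c3dc25900901afa8e76d0461c5faa0000cddd65800d15dc58001aebccb000071af92c007a6ff2c00020cc00b00222bf8b0022bbf0b0aa4e572a8005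3566a40004020e08004122c080041e3b08006eef728000039f7d94003d57f940000205c00a00225bf4a0003a77e26003ed80260001155fa990090002192604090004837c16004c17696000a26d82c06d48f64266e834056800056b5a840056b5a8400002eb9942209009201002e29e02002fc8bc20002050e840021f2a840023d3c040000181b7930019dbb130003797ba6003bd7f2600010edfc58011fdf0580025ebb8b002b5ad420000175cca10017f43a10001048b820014bad42000052eb508900904009f2e0080002a2b1c2002b5ad420035755903224c276cd400b8a780800bf22e080008143c10008accc100003016f260033775a60006eaf64c00772fd4c000223bf8b00245bdcb0004c97616004ff6f1600002eb9982002fe874200020917040023d3b840000a5d6a1000ae58a102410092000151d8a10015ad6a1001ab89780536a133f2a046d03e00645707e006086a1bbfcc01f48cefb3000ad6b50800d7004c43fd70858ad]).isSome = true := by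
  decide +kernel

theorem ck17 : (chkTop tab 60 1817531 1887437 174763 262144 128 256
  [0x1dfbf82]).isSome = true := by
  decide +kernel

end Pool.Agent.Lib.MP250511.GEOM
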