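import Pool.Agent.Lib.MP_250511_an.Geo.Core

/-!
Problem MP_250511_an: certificate data, part 13.
-/

set_option autoImplicit false
set_option maxRecDepth 1000000

namespace Pool.Agent.Lib.MP250511.GEOM

theorem ck18 : (chkTop tab 60 1817531 1887437 262144 349526 128 192
  [6,
  7,
  0x16f4fe10017dc62100010287c20011096820011d9d8200124a0c20012aa30200000030f71160032b74160006aaf12c000ecdfa580020bc00b0022cbf0b0004897b960056b5a84000ad6b50800005d53404005fd0f0400041630080052eb50800014bad420018bb902001b9bd82001dcbf820000101e00100114dfa100024ebd020026eb9c20000a5acf0800ad6b50800d63f9c26e150a1435,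
  0x5c13e04005f7188400040a1c080043a55080046a7008004827d0800ad6b50800bee320800080c32100089cc2100003016f260033976260006eef74c00776fe4c000170b50a0018eb94a00035f7994003ad7e14003f58014005b34384000000b92740800bce51080017fc3210001229fcb0002a15d0400335758440240015a56c100d66efbec76b0e901500000056b5a84005f7190400040619080044e6108000180b7930019cbb130003777ba6003bb7f260000bb5ae5000cb5d250001bcbdca001fbc00a00001724e8100179ca210002ff86420002494196000542ba080066aeb088048002b4ad8201acddf7d8ed61d202a0056b5a84005f7190400040619080044e6108000180b7930019cbb130003777ba6003bb7f260000be5b85000d05da50001ccbeca0020ec00a00001724e8100179ca210002ff864200024f4396000542ba080066aeb088048002b4ad8201acddf7d8ed61d202a000ad6b50800bee320800080c32100089cc2100003016f260033976260006eef74c00776fe4c000184b80a001abbc4a0003b57e940043b7f1400002e49d02002f394420005ff0c840004a68c2c000a85741000cd5d6110090005695b040359bbefb1dac3a405400ad6b50800bee320800080c32100089cc2100003016f260033976260006eef74c00776fe4c05c5a1bb8c001b6bd4a0003d17f94004537e9400002e49d02002f394420005ff0c840004b6902c000a85741000cd5d6110090005695b040359bbefb1dac3a405400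01a0bb4b001afbccb000071efa2c007aaff2c00020dc00b00227bf4b00234becb5e672b95400296b3d200020105840020714840020d1b84002111f0400211200400063ae528000006aaf12800712f928000f1dfc50000080f00280089afd28000ebdfa9800fd6009800045f7e260056b5a84012000436500812000906f82c00986ed2c001455b0580dac5e4832c30ab5750000139dca90017dc62100010082c2001058c820002172504003a17e14000782fe28000fd60050000085aff28008d6fa28000ea5f89800fbe00980004577e260056b5a84012000436500812402004b178960009bae72c0014a5a2580d99abc7252b0a9c1d002b5ad4200056b5a8400002ec9882002ff86c20002091804002975a840000a5d6a112400003eb8004004158004000ad6b50800bee310800080c3610008a4c61000030770260033f76a60006faf74c00782fe4c00022fbf0b0025fbb8b0027bb84b00001724ea1001794a410002ff86c200020b18840023f3d840000a656c1000c9dd01000e35f21100120009c2e6080015ad6c100d615c3fbd2d0ca495002b5ad42002fb8c820002030c840022730840000c05bc9800ce5d898001bbbdd3001ddbf930000892fe2c00916f62c001325d85801405bc580000b92740800bce51080017fc3210001058cc2001219f420000542ba080066aeb088048002b4ad8201acddf7d8ed61d202a04a907e0060012c5e01000271b9820000a6acd0800ad6b50800d69bb42e2fb0bd81d,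
  0x1e0bf82]).isSome = true := by
  decide +kernel

end Pool.Agent.Lib.MP250511.GEOM
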