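import Pool.Agent.Lib.MP_250511_an.Geo.Core

/-!
Problem MP_250511_an: certificate data, part 14.
-/

set_option autoImplicit false
set_option maxRecDepth 1000000

namespace Pool.Agent.Lib.MP250511.GEOM

theorem ck19 : (chkTop tab 60 1817531 1887437 262144 349526 192 256
  [6,
  7,
  0xb7a800800bee310800081440100088cb610008f4ee1000bd5b45800000c65c85800d45e058001d6bf4b0004138016004557e9600090af72c00ad6b5080015ad6a100000baa680800bfa1e080008245e11000052eb5080061ee208006cef4080075afd0800003e580040040d8004000b76820800bea350800080c341000874a810008f4f0100000612e04c0067eed4c000e75f6980022fbf0b0025ebb8b0027ab84b0000171cee1001794a610002ff868200020d1a84002975a840000a95761120100263bb020005575f040359bbf030d343c3736668070030095e0cc00c00222bf8a00008e6f92800ad6b50800d69e5c36261099f25,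
  0x5bf3e84005f7188400040a1d080043e5608004626d0800ad6b50800bee330800080c32100086ca010008dce41000005fedd4c0066aeb4c000dcdec9800ed5fa980002d36794003097014000696ef280073efb28007b6ff2800b4295080002d8a282000002e59cc2002f394020005ff0c84000476772c000a7d72112012000acab80806b3255fe6c58786e68002b5ad42002fb8c820002030c840022730840000c55c69800db5ea9800ebdfa980002dd69140031571940006b6f2280076afd2800837002800b568e080016cd0e10000002e49d02002f394420005ff0c840004827c2c000a85741000cd5d6110090005695b040359bbefb1dac3a405400ad6b50800bee320800080c32100089cc21000031571a60036d7aa6003af7ea60000ba5ac5000cadd250001bdbdca001f2c00a00228bf4a002d9a1c20000005c93a04005e72884000bfe190800091d025800150ae820019abac22012000ad2b60806b377df63b587480a8000002b5ad42002fb8c820002030c840022730840000c55c69800db5ea9800ebdfa980002f56d140033b761400072afa2800803002800906f82800000b92740800bce51080017fc321000125a10b0002a15d0400335758440240015a56c100d66efbec76b0e9015002b5ad42002fb8c820002030c840022730840000c55c69800db5ea9800ebdfa980003036f14003517814000766fd2800896fd2800005c93a04005e72884000bfe1908000945125800150ae820019abac22012000ad2b60806b377df63b58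7480a8002b5ad42002fb8c820002030c840022730840000c55c69800db5ea9800ebdfa980b333b7618003677a1400079eff28008befc2800005c93a04005e72884000bfe190800095d1a5800150ae820019abac22012000ad2b60806b377df63b587480a800ca5d05800034d781600071af92c007a6ff2c00020cc00b00226bf4b00233becb0026cba1200294b45200020106040020714840020f1e840000e8df85000f7dfe50000082f0028008aefc28000e85f89800f9e009800044f7ea60056b5a840120004324f08124000247bd8b00266bacb00051b6a960367a051e13ec265634000056b5a840056b5a8400002ec9882002fe8702048049200001ebbfc2002e09f02002fb8c420002030e040021d2a040023b3b84000017eb7130018bb91300034176a6000702f84c00786fe4c000229bf4b00259bc0b002b5ad4200001764c410017fc3610001058c020014bad42000052eb508920000206c0020022ebf020004a97904004eb720400014e59610015ad6a1001acaad83f79a189cfa000b827b0800bee310800080c361000874a610008ecec10000060edf4c0067aed4c000dedee9800efdfc9800045f7e16004bf77160056b5a8400002ec98c2002ff86c200020b1804002975a840000a5d6a1000c65c8112000020cc00200234bec20004b17804004f1710400014f59210015ad6a1001ac4de82674a18ad5a005c13e04005f719040004061a0800436520800472740800003036f260033976260006eef74c00776fe4c000225bf4b00246bd8b0004cb7596005036e9600002ed9882002ff868200020b1904002975a840000a656c1120001125fc100135dd210002b2ae0201ac79c813ea21b647a049d03600648907600608ca1abfcc020a8c6fb3000ad6b50800d744ec44a150b0fc5,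
  0x1d4bf02]).isSome = true := by
  decide +kernel

theorem ck20 : (chkTop tab 60 1747626 1887437 0 174763 256 512
  [0,
  6,
  7,
  0x1d4bf02,
  0x4d37494005f51a8400040614080042645080008dce410009a53610000066aeb2c00742fc2c0010660058014ed9410015ad6a100000b7a800800bf62a0800082c6410009350e100002ad5f84003337504003a97e04000102e001001135fa1000246bd8200264bb020000a2ad70800aceb70800d5b3f41f9eb040f9d,
  0x1cfbec2,
  6,
  7,
  0x1c2be02,
  0x25ebb8a0028bb5ca0002030a840021523040004727408005cad52c00003277416003937d16000817002c00a7aca0800ad6b50800005bd4004005f9158400041631080052eb508000154af4200196ba42001c1be02001e1bf820000101600100111dfc1000243bdc200262bb42000088afe2800aceb70800d5d8e428209030aed,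
  0x1bcbdc2]).isSome = true := by
  decide +kernel

end Pool.Agent.Lib.MP250511.GEOM
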