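import Pool.Agent.Lib.MP_250511_an.Geo.Core

/-!
Problem MP_250511_an: certificate data, part 15.
-/

set_option autoImplicit false
set_option maxRecDepth 1000000

namespace Pool.Agent.Lib.MP250511.GEOM

theorem ck21 : (chkTop tab 60 1747626 1817531 174763 262144 256 384
  [0x137dcc50017dc6610001008402001078f0200022d3384002454004005b94204005f7198400040e24080045263080052eb508000031d72a6003917d2600063ae52800722fa2800ad6b508000056b5a84005d93104000bfa2408000904f8584f94bad4c00198ba82001c9be82001ecbfc20000108dfe10011adf41000266bac200056b5a94035670100c44c1e9114000bc5b25800000c45c45800d1dde58001d0bf0b0004038016004357f96004557e9600015757810015ad6a100000b96720800bfa2308120000a5d6a112003b37e8400001f4c002002dca102002fb8cc20002071204002293184002975a84000018eb953001c8be930004497f16004a579960056b5a8400002b5ad42002ec98820005fd1204000416330800492830800014bad4200166b3020003317504003937d04003d97f840000211bfc200235be820004cd7584000a66cd0800ad6b50800d59c040311307a4450005b94204005f7198400040e24080045263080052eb508000031d72a6003917d260008b2fc2c0099aeb2c0002b5ad42002ec98820005fd1204000416330800492830800014bad4200166b3020003317504003937d04003d97f840000211bfc200235be820004cd7584000a66cd0800ad6b50800d59c040311307a445959f8c00c945fcc00c0049301600647b05600608aa15bfcc01ff8b2fc3000ad6b50800d655fc3400506c5e5]).isSome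 = true := by
  decide +kernel

theorem ck22 : (chkTop tab 60 1747626 1817531 262144 305835 256 320
  [0x13adc850017dc60100010288420011197420011c9d42001219f8200056b5a84005f71a040004061a08004566508000187b893001b3bd130015bb10a00005dad82800652e828000dadea5000ecdfa500102e005000001714f21001794aa10002ff86c20002454016000556bf08900901acddf7d8ed61d202a0056b5a84005f71a040004061a08004566508000187b893001b3bd1300160b20a00005f6dc2800676ec28000e1df25000fd600500000b8a790800bca55080017fc361000125a14b0002ab5f84480480d66efbec76b0e901500000056b5a84005f71a040004061a08004566508000187b893001b3bd1372178b64c000060adf2800696ef28000e6df6500102e00500000b8a790800bca55080017fc361000127a20b0002ab5f84480480d66efbec76b0e901500185b80b00031d7296000692ef2c000e1df25800f25fc5800040d8016004377f96004497e960009bee74800a76ca4800080c2010008347210001c4be4a01327e3003000762fd4c00105e00980116df898002b5ad4200904804900229bf4b0000128de65801445b2580d7cb1459ddb051be50029db282000015ad6a10015ad6a100000baa690800bfa200812012402005bf3f04005f7188400040a1f08004425908004867e0800003056fa60033b76260006eef74c00772fd4c000227bf4b00256bc4b002b5ad4200001754d210017f43c10001058c020014bad420000532b60890090004a77904004e7728400014cd9a10015ad6a1001abf5882f74e144eaa000b7e7e0800bee32080008143c100087cb01000904f8100000602de4c0066eeb4c000dcdec9800ed5fa9800045b7e16004b977960056b5a8400002ea9a02002fe874200020b1884002975a840000a7570112012000a6acc0800ad6b50800d5f6ec0c34d0b36c5929f9c00c915fdc00c0047b01e00646305e006087e17bfcc01f58bafc3000ad6b50800d6cb9c3f4f307f8ad]).isSome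 = true := by
  decide +kernel

end Pool.Agent.Lib.MP250511.GEOM
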