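import Pool.Agent.Lib.MP_250511_an.Geo.Core

/-!
Problem MP_250511_an: certificate data, part 16.
-/

set_option autoImplicit false
set_option maxRecDepth 1000000

namespace Pool.Agent.Lib.MP250511.GEOM

theorem ck23 : (chkTop tab 60 1747626 1817531 305835 349526 256 320
  [6,
  0x4f97014005fb150400040e24080044a5d080047e790800b8e760800bf22d080008143e10008b4d0100002f96da60032f74a60006d6f54dbb5d2d630000182b7ca001a7bc0a0003af7e940056b5a8400002ea99c2002fe87c20002433f1614452eb530900900056b5a94035670100c44c1e911400000b92740800bf22c080008144010008b4d01000030f70a6003677a26003977da6003bb7f26000018bb90a001b3bd0a0003c57f140043f7f1400002e19ec2002f196020005fd100400049a872c000a8574592012000ad6b52806ace01f9afb83802a800c75ca58001a3bbcb0003877c96003cd7f960001006005801095fe580021fbf8b4d274b914002a3b15200020308840020d1c0400072efa280001f1c00a00211bfca0003997da6003dd7fa60001095fe990402400085c941024001245ec580140dba580d9ab3c79f1503c995040002b5ad420090480490080171cec10017e45610001028842001109682001219f4200000c0dbc9800cedd898001bcbdd3001debf93000085eff2c008eaf92c0012d5e058015ad6a100000baa680800bfa21081201240248107c198028004517ea400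01215ee90015ad6a1001abd4584cc8e0b5bea000b92750800bf22b08000814441000884b4100090cfa100000602de4c0066eeb4c000dd5ec9800ee5fa9800043d7f16004817c1600097eee2c00ad6b50800005d53484005fd108400040e2a080046e7208024120130e4038028041b07600a001155fa900004897ba40056b5a84006ad7ba0dc5082a326801724ea10017e45610001028882001109682001219f4200000c05bc9800cddd698001babd93001dcbf53000089efd2c00922f62c0013adc8580005d53484005fd108400040e2a088048240261c807005008360ec0140022abf520000912f74800ad6b50800d5b7a41d75b05464d0000b92750800bf22b08000814441000884b4100090cfa1000005fedd4c0066eeb4c000dcdec9800eddfa9800045f7e160049f79960009eee12c0002ea9a42002fe88420002091504002373904012090092041b07e00a00115df89000048b7b240056b5a84006ad05e0bd9882a326c1104e00607d616bfcc01cc8befc3000962f12800d713244c247037d8d,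
  0x13adc850017e45c100010288020011096820011a9c42002e19e82002fb8c420002030d840021d2984002393a84000017bb6d300196ba530003697aa6002ab5f140000b7da65000c75ca50001b8bd8a00202c00a002b5ad42000002e49d42002f294820005ff0d84000476762c000a656c112012000ad2b60806b05c600ac3862b568015ad6a10017dc64100010186420011398420000612e04c006c2f34c0054abc2800016cb44a00188b88a0003517814003a57e140040b8014005ab4704000b668708000001724e8100179ca210002ff864200023f3d96000542ba08900901acddf7d8ed61d202a00015ad6a10017dc64100010186420011398420000612e04c006c2f34c00726fa4c0057ec72800002e96b140032b74140006f6f728007c7002800896fd2800b668708000001724e8100179ca210002ff86420002474096000542ba08900901acddf7d8ed61d202a0000056b5a84005f7190400040619080044e6108000184b813001b0bcd3001c9be9300165b30a00000bedb85000d15dc50001d0beca0021bbfca00001724e8100179ca210002ff864200024d4396000542ba08900901acddf7d8ed61d202a0056b5a84005f7190400040619080044e6108000184b813001b0bcd3001c9be930016ab3ca00000c25c05000d65e450001debf8a00225bf4a00001724e8100179ca210002ff86420002534596000542ba08900901acddf7d8ed61d202a00063ae52c000d25de58001c4be4b001e6bfcb000082b002c00882fe2c008a6fd2c0014dd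96100153586100000ad6b5080002b5ad42209009201002e19e42002fc8b820002050f040021f2b84002373904002494184000003036f260033b76260006f2f74c0077afe4c000228bf4b00259bc0b002b5ad420000175cca10017f43c10001048b422012402488e9fec014022a82f005000892fd4800023ebe12002b5ad4200358d050a2544248ab4001714f210017e45e100010287820010f95820011f9e4200000c05bc9800cddd698001babd93001dcbf5300008befc2c0097eee2c00ad6b50800005d73284005fd0e840004122e080052eb50800014bad422402639807005008aa0dc01400227bf520000a7ec90800ad6b50800d603cc1df4309798d002e29e42002fc8b820002050f040021f2b040023f3d040000180b7930019bbad30003757b26003b97ea60001135fa5801245ec5800274b90b0000bae650800bfa1d080008245c1000a5d6a100002975a844804c7300600a011541b80280044d7ea40001205f090015ad6a1001ac0cc83ed0212967a0460ffe00644903e006084613bfcc01e68b2fc300094af32800d78b145211f0770f5]).isSome = true := by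
  decide +kernel

end Pool.Agent.Lib.MP250511.GEOM
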