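import Pool.Agent.Lib.MP_250511_an.Geo.Core

/-!
Problem MP_250511_an: certificate data, part 17.
-/

set_option autoImplicit false
set_option maxRecDepth 1000000

namespace Pool.Agent.Lib.MP250511.GEOM

theorem ck24 : (chkTop tab 60 1747626 1817531 262144 349526 320 384
  [7,
  0x9b6e72800bf230080008041c10008346e100010e9542001169a020005bb4104005f51a840004061a080043a54080047a780800002f76da60032b74a60006cef44c0055ac028000170b50a0018eb94a00036b7a94003f780140056b5a84000005c73b84005e52984000bfe1a080008ecec58241002abaf8201acddf81869a1e1b9a005bb4104005f51a840004061a080043a54080047a780800002f76da60032b74a60006cef44c0056ec428000177b60a00198ba8a00038b7c940040b80140056b5a84000005c73b84005e52984000bfe1a080008fcf658241002abaf8201acddf81869a1e1b9a000b76820800bea350800080c341000874a810008f4f01000005eedb4c00656e94c000d9de89800b0590500002ff6e9400347771400074afc28008aafd2800005c73b84005e52984000bfe1a080009150058241002abaf8201acddf81869a1e1b9a002ef6c9600000061ae12c00686ee2c000e05f05800f0dfc580004078016004337f969a4d175280050f6d24005ff0c84000080c241000cedd850001cabe8a00007beff28006aaf14c000ecdfa980020cc01300292b482040240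00864981024800048d7b16004ff6f160366acf1e7c540f26540014a5a210014fd92100000ad6b50800ad6b508000056b5a84412012402005bb4004005f7198400040a1e08004425908004727508005bed34c00000602dd4c0066eeb4c000dcdec9800ed5fa980004517e96004af78960056b5a8400002eb99c2002fe874200020b18844024804801365d01000052b68040056b5a84006b377e1456e85c1728002dda002002fb8cc20002050f04002212c84002393a84002df69a6000003016ea60033775a60006e6f64c0076afd4c000230becb0025fbb8b002b5ad420000175cce10017f43a10001058c4220124024009b2e808000295b402002b5ad4200359bbf0a2b742e0b96447cf003008c5ffc00c00213bfca01e989efd300092af52800d73d644b8a707541d,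
  6,
  0x275b90a002fd8a820002071204002252f04005c73b04005f9168400040a1f080045a6808000185b813001b0bcd3001c9be93001dabf5300000bedb85000d0ddc50001d1bf0a002b5ad4200001754ce10017f43e100011f9e8b0a02975a9848048002b5ad4a01ab3808062260f488a000017eb70b0018bb90b0003417696000702f82c0078afe2c0001fdc00b0020ec00b048200015ad6a100482402480004f97024005f9158400040a2308004465c08004767708004a2890800000602de4c00672eb4c000dddec9800ee5fc9800043d7f160047f7c16000ad6b50880000baa6808824024804c4af6dfea0885f0c01410cbed8028041101e00a0010ddfe9000046f7d240056b5a84006b2fca1c7268245bec1efd600640501600607ba0fc00c01c18a2fd300093ef32800d774cc54a610317c5,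
  0x9b6e72800bf22d080008041c10008346a100010e94820011599420005bf3e84005f7198400040619080043651080046e730800002ef6ca60032573a60006c6f34c00546bb2800016ab40a00188b88a0003637a14003f780140056b5a84000ad6b50800000bb6610800bfe19080008e4e858241002b0ae4201acddf81869a1e1b9a005bf3e84005f7198400040619080043651080046e730800002ef6ca60032573a60006c6f34c00556bf28000171b54a00193ba0a0003877c94004397f140056b5a84000005db3084005ff0c8400047a792c12080158572100d66efc0c34d0f0dcd0005bf3e84005f7198400040619080043651080046e730800002ef6ca60032573a60006c6f34c0056ac328000179b64a0019ebb0a0003a77e140048f7b1400002ed9842002ff86420002433f16090400ac2b90806b377e061a68786e6800bb5b05800000185b80b001a1bb8b0003817c16003c57f160001036005a53335d6a00141db890017fc30100002010384002030d8400069af028006baf3280001c1be0a001dbbf4a00000fb6005000d65e498001debf930004497f2640002f790c22092000120df058013edc0580dc04dc98a9b03c995002a1b1c20000ad6b508024120124000274b912002fc8b820002051004002212c04002393a04002df69a6000003016f260033976260006eef64c00776fe4c000215bfcb00237be8b00056b5a840056b5a8400002eb9942002fe87820480490093233d17fa800909ebbfd48f5f0bfd411abed8028044701600a0010c5fe900004657da40056b5a84006b59a21e2c1840efe80170cf410017e45c100010287c20011096020011b9cc20016fb4d300000180b7930019bbad30003757b26003b97ea60001195f65801315da58015ad6a100000bae650800bfa1e08120124024486f65fea47af8600a08d5f6c014022380f005000866ff48000233bed2002b5ad420035a6a90e2f3421d396367c30030088dfcc00c81e0dc00c01d9896fd3000926f52800d7d64c59725065a3d]).isSome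 = true := by
  decide +kernel

theorem ck25 : (chkTop tab 60 1817531 1887437 174763 262144 256 384
  [0x1c9be82]).isSome = true := by
  decide +kernel

end Pool.Agent.Lib.MP250511.GEOM
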