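import Pool.Agent.Lib.MP_250511_an.Geo.Core

/-!
Problem MP_250511_an: certificate data, part 18.
-/

set_option autoImplicit false
set_option maxRecDepth 1000000

namespace Pool.Agent.Lib.MP250511.GEOM

theorem ck26 : (chkTop tab 60 1817531 1887437 262144 349526 256 320
  [0x4d97414005f719840004020b0800416340800086ca4100089cc210016e50410017d46a100010186c20010f95820011b9c420016fb4d300000180b7930019bbad30003757b26003b77ea60000b2d985000c15be50001a4bbca001d6bf4a00056b5a8400002eb9942002ff8682000233371600052eb5080062ee40800732fb0800021bbfc200264bb0200056b5a94035a24907745438e8140002dda082002fa8d420002030d040021d2a040023d3c04000017db71300198ba9300036f7aa6003b17ea60000b3d9c5000c25c050001a2bb8a001c1be0a0003eb80140058d5104000ad6b5080015ad6a100000171cee1001794a610002ff86820002393a96000536b70800646e70800752fc08000222bf8200268ba820005615c840359bbf030d343c373400b76820800bea350800080c341000874a810008f4f01000005f6dc4c00662ea4c000dbdea9800ec5fa980002df6994003217314000706f828009eee02800005c73b84005e52984000bfe1a080008fcf4580014dadc200191b9c2001d4bf02000088afe08009a2ea0800158572100d66efc0c34d0f0dcd0005b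b4104005f51a840004061a080043a54080047a780800002fb6e260033175260006def54c00762fd4c000176b60a0019bbaca0003a57e14004b9779400002e39dc2002f294c20005ff0d040004867f2c000a6d6e1000c8dce1000ea5f8100004457f04004d17504000ac2b90806b377e061a68786e68016ed0410017d46a100010186820010e95020011e9e0200000bedb89800cc5d498001b7bd53001d8bf5300005f6dc280069af028000f05fc500128de6500000b8e770800bca53080017fc341000124a0cb00029b5b84003237384003a97e040001115fc1001345d410002b0ae4201acddf81869a1e1b9a000000b76820800bea350800080c341000874a810008f4f01000005f6dc4c00662ea4c000dbdea9800ec5fa9800030770140035f79940007aeff280093af428000058f5094005ff0d0400049a872c000a6d6e1000c8dce1000ea5f8100004457f04004d17504000ac2b90806b377e061a68786e6800c2dc2580018fb98b00034b7796000712f92c0079aff2c000209c00b00223bf8b00230becb002a8b042000015ad6a10015ad6a100000ad6b50800bfa1d08120000a5d6a1000be5b61000d35e01000e45f4100000796ff0800b76820800bee33080008143c1000884b210008d4e210008f4f01000904f8100090cfc1000005c2d44c005dad84c000000c25c09800d05da98001bfbe13001e1bf9300008aefc2c0096eef2c00ad6b50800005d73304005fd0e0400041631080052eb50800014bad4200182b7c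2001afbcc2001d3bf0200000f8e0010010060010010460010010660010010760014d4f7dfea00009a5f0bfd49a1f1c0141333e580282627d700504b6fde00a012540f8028004397f2400011adf490015ad6a1001adba187013e1705ca000b76820800bee33080008143c1000884b210008d4e210008f4f01000904f8100090cfc1000005c2d44c005dad84c000000c25c09800d05da98001bfbe13001e1bf9300008cefb2c009c2e62c0002eb9982002fe870200020b1884002975a840000a5d6a1000c15be1000d7de61000e9df81000007c700080080300080082300080083300080083b000a6a7beff500004d2f85fea4d0f8e00a0999f2c0141313eb802825b7ef0050092a07c0140021cbf9200008d6fa4800ad6b50800d6dd0c3809f0b82e597df4c00c969f8c00c004a2ff600648b03600608c612bfcc02048a6fd3000ad6b50800d7cc445253f0a676d]).isSome = true := by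
  decide +kernel

end Pool.Agent.Lib.MP250511.GEOM
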