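import Pool.Agent.Lib.MP_250511_an.Geo.Core

/-!
Problem MP_250511_an: certificate data, part 19.
-/

set_option autoImplicit false
set_option maxRecDepth 1000000

namespace Pool.Agent.Lib.MP250511.GEOM

theorem ck27 : (chkTop tab 60 1817531 1887437 262144 349526 320 384
  [6,
  7,
  0x1bfbe02,
  0,
  0x9a2ea2800bf2300800080416100082c64100010d93c2001129782001159942002df9f42002fb8cc20002030c840021b28840023739840000187b853001b3bd13001d4bf130000592cb28005fedd28000cddd65000d8de85000e7df6500005915004005974e04000ad6b5080015ad6a100000176cc210017fc3210001199bcb00029b5b844804009a2ea0800158572100d66efc0c34d0f0dcd000016fcfa10017dc66100010186420010d94420011b9cc200000c3dc29800d9de89800ea5f8980002d567940031171140006aaf12800746fc2800164540100165d3810002b5ad4200056b5a84000005db3084005ff0c8400046e732c000a6d6e1120100268ba820005615c840359bbf030d343c373400b7e7d0800bee330800080c32100086ca210008dce610000061ee14c006cef44c00752fc4c000171b50a00194ba0a0003957d14005016f1400002ed9842002ff864200023d3c16000536b708900801345d410002b0ae4201acddf81869a1e1b9a0005d6d72c0000061ae12c0068eee2c000e9d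f85800207c00b00222bf8b002a4b1020000ad6b5080002b5ad4220004364f0812480000782fe0800b827c0800bee30080008143a100087cac10008dce21000b8da89800000c15be9800cedd898001bcbdd3001debf9300008aafd2c0096af02c00ad6b50800005d93184005fd0e040004122e088049001d0bec200000f75fe14cef1dfca4caf2dfea0985e8bfd4025a7baff524f7db005008f602c01400217bfd200008c2fb4800ad6b50800d707a43eec70ad51d0005c13e84005f7188400040a1c080043e5508005aacf4c00003036f260033976260006eef74c00776fe4c000231becb00261bb4b002b5ad4200001764c410017fc3610001048bc220124800007c7000800803000a627aaff50096defbfd4941f7c014023e80f005000862ff48000232bed2002b5ad420035b7430e027c2e0b96527c7003008fdfcc00c0020fc00a00008a6fd280091af62800d849bc5d9d7098ea5,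
  0x263bb0a002fc8bc200020106040020b198400043650080044a5f08005fedd280002df9f42002fb8cc20002030c844c2975aa80000c25c09800d85e69800e8df8980002d768140031772140006bef3280076afd28001165f850015ad6a10002b5ad42000002ed9842002ff86420002393a16000536b708900801345d410002b0ae4201acddf81869a1e1b9a002d768160005d2d62c0000061ae12c0068aee2c000e95f85800206c00b00220bf8b002a4b1420000ad6b5080002b5ad4220004324e08124800009a2ea4800bf230080008143c10008649e100089cc2100016bb41300000c15be9800cf5da98001debf8b0004477f160056b5a840056b5a8400002b5ad42002fe8742048049001c9be8200000f0dfc1000f45fe1000f65fe1000f75fe14d4ee5fca0004d2eedfca4ceef5fca0995e0bf94130bc77f2804b2f45fea49af8600a011d3f980280041d80240001145fa90015ad6a1001af47a8a036e13a0ea004d37524005f7180400040a1e080043e5708005aed04c00003056fa60033b76260006f6f74c0077afe4c00022bbf0b002b5ad42002b5ad4200001764c610017f4381024024900000f15fc1000f65fe109a1debf94999e0bf941313c77f2804b2f4dfea49cf8e00a011d3fb80280041f8024000114dfa90015ad6a1001af0bf899a8a144eaa000b7e7e0800bee310800081438100087caa1000b4d9e980000602de4c0066eeb4c000dd5ec9800ee5fa980004657d96004c576960056b5a8400002ed9882002ff86c2048049008010060010975ebbfd4949f3c014023e7ff00500084aff4800022cbf12002b5ad420035d3c310e6f42f45564f7b6ff3008e9f8c00c00209c00a000088efe2800906f82800d899f464bef08930d,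
  0x1bcbdc2]).isSome = true := by
  decide +kernel

end Pool.Agent.Lib.MP250511.GEOM
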