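import Pool.Agent.Lib.MP_250511_an.Geo.Core

/-!
Problem MP_250511_an: certificate data, part 2.
-/

set_option autoImplicit false
set_option maxRecDepth 1000000

namespace Pool.Agent.Lib.MP250511.GEOM

theorem ck4 : (chkTop tab 60 1747626 1817531 262144 305835 64 128
  [0xb827d0800bee30080008143e1000884b4100090cfc1000004c696088017e46010001028782001169a02000052eb5080067eed4c000dedee9800ef5fc9800040180260034f781400075efd28000221bf8a002f096820005fd0f840004ae8e2c000ac5825800bc5b25920024101acddf7a3e921456ea400bf230080008143c10008b4d0100002975a840033f76a60006f6f74c0077afe4c000200c013001b1bcca0003cb7f940001185f65001784b410002fe87c200025d4916000572c52c005fadd2c90012080d66efbd1f490a2b75008017e46010001028782001169a02000052eb5080067eed4c000dedee9800ef5fc980004018026003757b140007cb002800023cbe4a002f096820005fd0f8400041632080048a8008000161b24b00185b80b001a0bb4b0090406b377de8fa48515ba800d35e058001b1bd0b0000726fa2c007aeff2c00020dc00b00226bf4b00233becb002afaecb002a1b1d20002010704002091684003076f940000d6de45000e95f85000007c700280084eff28357165f86000ff600980004637da60056b5a84012000436500812000932f52c00a12db2c06ceede3cf8a83d04e8018a9fadf5000bee31080008041a10008346a100010e94c2001c1be0a0003c97f140000205c00a00227bf4a00039b7da6003bb7f260007df004c00022abf53002b5ad420000ad6b50882402480400976ef2c001395ca5800297b3cb01af4e68a485211978a0056b5a8400002e99a82002fe87c20002091804002975a840000a656c1120124000256bc4200275b9020000a6ecc0800ad6b50800d5d3f4121c5093be5]).isSome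 = true := by
  decide +kernel

end Pool.Agent.Lib.MP250511.GEOM
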