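import Pool.Agent.Lib.MP_250511_an.Geo.Core

/-!
Problem MP_250511_an: certificate data, part 21.
-/

set_option autoImplicit false
set_option maxRecDepth 1000000

namespace Pool.Agent.Lib.MP250511.GEOM

theorem ck29 : (chkTop tab 60 1747626 1817531 262144 349526 384 448
  [7,
  0x132dd650017e45e100010083c2001068e0200021f2b040022b3284005bb4104005f51a840004061a080043a54080047a7808000030770260035d79a6002a75e940000b5da05000c45c450001adbc8a001f0bfca002b5ad4200056b5a84000005c73b84005e52984000bfe1a080008dce458241002abaf8201acddf81869a1e1b9a00016ed0410017d46a100010186820010e95020011e9e0200000c1dc09800d75e69800ac582500002e76b140032773940006fef7280083f002800ad6b50800000b8e770800bca53080017fc34100011d9dcb0482005575f040359bbf030d343c3734005aacf2c000b9daa5800000c25c05800cfdda58001cdbecb00040180160042d7f96004b977a4005056ea4005ff0c84000080c241000d75e650001d3bf0a0000626e34c00696ef4c000ea5f89800207c01300292b4820402400086498102480004917b16005016f160366acf1e7c540f26540014d5981000056b5a8401209009201002de9fc2002fb8c020002051004002232e04002d16726000018bb913001e4bfcb00044f7e96004af78960056b5a8400002ea9a02002fe87c204804900c94f5dfea47ef9e00a01163ff8028004277fa40001165f890015ad6a1001acefb86714611978a000b76800800bee33080008143c1000884b21000b3598980000622e24c006d2f44c00756fc4c00022ebf0b0025dbb8b002b5ad420000175cce10017f43a10001058c4220124024009b2e808000295b402002b5ad4200359bbf0a2b742e0b96407b2ff3008adf8c00c00209c00a000088efe2800906f82800d7c17c57b6d067735,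
  6,
  0x26cba0a002b5ad4a00020309040020d1c8400043e56080045e690800171cec10017e45a100010287c2001169a020000606de4c006b2f24c00566c228000175b5ca00197ba8a00038f7d140056b5a8400002ea99c2002fe87c2000239399613852eb530900900056b5a94035670100c44c1e9114005a2ce2c000b8da85800000c15be5800cf5da58001bebdcb001e0bf8b00007eb002c900820120900920100274b912002fc8ac20002051184002232e84002cf66a6000017eb75300199ba930003717b26003b57ea60001155f858015ad6a1004824024804c48f2dfea0881e8bfd410bbdf7fa80406fde00a00108600900004597e24004997a24006b6e9a23488821a4a800275b912002fc8a820002051184002232e04002cf66a6000017db71300199ba9300036f7b26003b37ea60001195f658015ad6a10048240248048899e4bf9488de6bfd410fbd37fa82167beff500809fcc01400211bfd200008b6fc4800936f44800d6b63442ba1043495875e7bfcc859ebbfcc00418f960063fcfd6006079e06c00c01b787efe3000916f62800d834dc632e70286f5,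
  0x264bb0a002fc8b0200020107840020d1b0400043a53080044e620800b7e7d0800bee330800080c32100086ca210008dce6100000602de4c006b2f24c0053ab828000166b30a00181b78a00033d7614003697a94003a17d94000164540100165d3810002b5ad4200056b5a84000005db3084005ff0c8400046a702c12080158572100d66efc0c34d0f0dcd0000b7e7d0800bee330800080c32100086ca210008dce6100000602de4c006b2f24c0054abc2800016db44a0018db94a00037b7b940042b7f940056b5a84000ad6b50800000bb6610800bfe19080008ecea58241002b0ae4201acddf81869a1e1b9a002d167160005c6d52c0000060edf2c0067eed2c000df5ee5800f05fc580004078016004357f96005236984000a86c7080002b5ad420090002172604092010026bba12002fc8b820002051004002212c84002d16726000017eb7530019abad30003717b26003b57ea60001155f858015ad6a10015ad6a100000ad6b508824024804c90f05fca011fbcd7fa919bdd7fa8043cfd600a00106e00900004517ea40056b5a84006b9eaa2568083e38e80026cba12002fc8b820002051004002212c84002cf6726000017eb75300199bad30003717b26003b57ea6000119df65801385cc5800056b5a84412012402647782fe5008f9e6bfd48c9eebfd4021e7eb0050008370048000228bf52002b5ad420035cafd125d241e8c76337a2ff300879f4c00c00204c00a0000882fe28008fef82800d88eb467627057e4d]).isSome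 = true := by
  decide +kernel

end Pool.Agent.Lib.MP250511.GEOM
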