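import Pool.Agent.Lib.MP_250511_an.Geo.Core

/-!
Problem MP_250511_an: certificate data, part 22.
-/

set_option autoImplicit false
set_option maxRecDepth 1000000

namespace Pool.Agent.Lib.MP250511.GEOM

theorem ck30 : (chkTop tab 60 1747626 1817531 262144 349526 448 512
  [7,
  6,
  0x4c17694005f12004005ff0b84000080c26100083c78100011096820015ab0cb0002d76816000018fb98b001cbbe8b0003fb8016410090480490080135dd290017e45a1000103890200113980200166b35300000c4dc49800e1df29800227bf4b002b2ae02200002e89b022090092018cde5bfd489dedbfd40202807005000112dfa90015ad6a1001acddf87480a09c4ba0009aee94800bf22d0800081c48100089cc01000b359a980000626e24c0070ef94c001185f85801365d0580005d1360441201240319bcb7fa913bdb7fa8040500e00a000225bf52002b5ad4200359bbf0e90141389762979aff30084df2c00c00201c00a000086eff28008eaf92800d800ac5f9b3024d05,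
  0,
  0x96af02800a22d92800080420100083472100010e94c20011197420002b762160005b2d12c00003217316003997d960007ff002c00862ff2c00a6ecc080002b5ad42009048049009204c6ea5f864c0eb5fa6096dd9bf4c025177afe324479aff3008b9f2c00c00200c00a0000866ff28008defa2800d85314636370572dd,
  0x4ad78940056b5a9400040611080041e3a08000874a81000894bc100015ab0cb0002d76816000018fb98b001cabe8b0003fb8016005096e0400537660400015ad6a10048240249000012d5e0900144db090001018402001068e4200021f2b84002b361260005aacf4c000031b72a6003917d2600088efe2c00ad6b50802412012490003343997da8266736fb504c6e7df6a4c0e8df8a012c3ad7e28244786fe5042cfc600a000218bfd200236be920035f2c516776c146f940096af04800a26d84800080c20100083472100010f95c200159b0930002d567a6000018db953001c8be930004577e160056b5a84012090092480019a1ccbed413339b7da826373efb5260746fc500961d6bf141223c37f282167e300500010c5fe90011b5f49001af9628b3bb60a37ca24e76efd324078efe3008a5eebfcc001fbc00a0000856ff28008cefb2800d87b6466c1d04a825,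
  6,
  0x4c77614005f31e84005ff0a84000080c26100083c74100010f96020011599820015bb0cb00005a6cf2c00003016f160033976160006eef72c00776fe2c0001f8c00b20820120900920100266bad2002adaf0a00020309040020d1c8400043e56080045e6908000b459c9800005fadd4c0066aeb4c000dcdec9800ed5fa9800045b7e16402412012402498b1d7bf54115baf7ea8001143b37ea912bb77ea822077afe5042af25fca00ffbe1802800401802400010edfc90011f5f09001b05d58c59d604c98a0009a2ea4800bf62a0800080c22100083470100011297c200167b35300000c5dc89800dc5ec9800ecdfa980004677d964024120124024c56ec5faa0022676efd521f77efe5042af2dfea00ffbe3802800403802400010fdfc9001205f09001afc788ba8de05b20b10bb97e9821778afe300801eebfcc77dffc00c01ab85eff30008eef92800d8ea8c6f5cd0170a5,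
  0x966f02800be23f0800bfe18080001018402001068e0200021b2884002232d04000b827c0800bee3108000814381000874aa1000afd8e980000606de4c006b6f24c00546ba2800016cb44a00191b9ca0003d17f940056b5a8400002ec98c2002ff870200022d34160920183a04c0140d54697da80359bbf0a2b742e0b940055ec12c000ae588580002d56816000018fb98b001cdbecb0004038016005316704080480010b928204900801305da90017e45a10001008382001068d4200021d2904002ad5fa600059ecd4c000031771a60036f7b26003b37ea6000115df858015ad6a1004824024804c92ebdfaa011f3bb7f2918bcb7fa80434f8e00a00100600900004377fa4004777ca4006c16c62fdc6834056800262bb12002fc8b4200020107040020d1a8400043a5208004566508000b359a98000062ae34c006daf54c00762fd4c000232becb002b5ad42009048049200249939d2bf14000935d3bf1492dd4bf14124bab7e28244762fd5008e9debf948b5e6bfd402167cb005000807004800021dbf920023dbe520035ee7f15deac18a73631782fe300865ecbfcc001f9c00a0000856ff28008d2fb2800d9770476ca5041095]).isSome = true := by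
  decide +kernel

end Pool.Agent.Lib.MP250511.GEOM
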