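import Pool.Agent.Lib.MP_250511_an.Geo.Core

/-!
Problem MP_250511_an: certificate data, part 23.
-/

set_option autoImplicit false
set_option maxRecDepth 1000000

namespace Pool.Agent.Lib.MP250511.GEOM

theorem ck31 : (chkTop tab 60 1817531 1887437 174763 349526 384 512
  [7,
  0x1b4bd42,
  0,
  6,
  7,
  0x1b4bd42,
  0,
  0x97aee2800bf22f080008041a100082c68100010d9442002e09f02002fb8c420002050e040021d2a84002cb66260000188b893001b3bd13001d4bf1300005aed0280063ee628000e3df450015ad6a10002b5ad4200001764c610017fc3810001169a0b0002975a844800ed5fa1000007e3000a5e796ff5049cf8e00a089a09c0140e34717d280359bbf0a2b742e0b94005f6dc2800582c82c00002cf6696002e76b160000030b7016003437716000746fc2c00102e0058010fdfc5801525881000056b5a840120004324e0812480000752fc080076efd0800782fe08000263bb12002fc8c0200020105840020b19040004324f080044e6208000b55a098000063ee64c006f2f74c00776fe4c00022bbf0b002b5ad420000ad6b50880010d9402049200001debf82001e8bfc2133bb77ea9313bf7f2804b2f2dfea498f6dfea011c3f18028004138024000111dfc900120df09001afe038ad84a132eba25a786fe324d7a6ff3008e1f4c00c00203c00a000087afe28008eef92800d9078c6cccf07e545,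
  0x12c5e0500141db850001008382001068d820002192704005c13e04005f7188400040a1c080043a55080058eca4c000030b70a60036379a6003a57e260000b2d985000c35c250001c0be0a002b5ad4200056b5a8400002ec98c2002ff8702000229319600052eb5089001dabf4200000fc60014baf1dfca092deebfd411140d80281bf8d6fa5006b377e1456e85c1728002e09f02002fb8c420002050e040021d2a84002c765260000185b853001b1bcd3001d2bf1300005b6d1280064ee828000e6df650015ad6a10002b5ad4200001764c610017fc3810001169a0b0002975a844800ed5fa1000007e3000a5d78efe50496f75fea088a06c0140dfc6b7d280359bbf0a2b742e0b940057ac62c00016db44b00000c95ce5800e85f65800204c00b0028fb542002a4b1420000ad6b508024000864981024800dcdec100000742fb080097aee4800bf22f0800080418100082c66100010d940200159b0930002d567a6000018eb953001ccbed300044d7e960056b5a8400015ad6a110002192784092400003bd7f0534baf7ea9313b57ea804b2f05fca496f45fea011abe9802800407802400010edfc90011ddf29001b0f388c40fe11d87a00097aee4800bf22f0800080418100082c66100010d940200159b0930002d567a6000018eb953001ccbed30004597e160056b5a8400015ad6a110002192784092400003bd7f0534baf7ea9313b57ea804b2f05fca496f45fea011abe9802800407802400010edfc90011ddf29001b0f388c40fe11d87a258776fe324a796ff3008cdf0c00c001fdc00a0000862ff28008dafa2800d9723c74a69069ff5,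
  0x1b1bd02,
  6,
  7,
  0x1aabc42,
  0,
  0x94ef228009f6e0280008041e10008245a1000844801000021b2784002e96b1400056ac32c000b65a2580000646e72c0073afb2c00101e00580147da810015258a1000056b5a8401200042e4c08124006def508000039b7d84004b17824005f917040004020d0800416340800086ca21000ac5829800169b3d300000c75ca9800e5df49800226bf4b002b5ad420000ad6b50880010c9382049001bebdc200000eadf81000ee5fa14dae75f6a09add0bed4026674efc526075efd500955dcbf9491de4bf9402307c2ff50007f70048000217bfd200235be92003631eb1a3ce41ea8140012bde290017e45e10001008342001058d0200021b2884002b160a60005aacf4c000031d72a6003977da60008aafd2c00ad6b5080240008649c1024900000ecdfa14d2e95f8a4c6eb5faa012cbb97ea925bc77f280466f7dfea000fe6009000042f7fa40046b7da4006c86aa36723841052ccce8df860985d3bf0c0257766fd3248786fe3008c5ecbfcc001f8c00a000084eff28008c6fb2800d9d3a47ad4b05fc1d,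
  0x49b7a140056b5a940004061008004122e08004264208000170b50a00152aecb0002b561960005b2d12c000032173160039b7d96000807002c00a6acd080015ad6a100480010b9282049001b3bd0200001295e690013e5c090001008382001068d820002192704002a15d26000562c14c000b4d9e980000636e54c0072efa4c001125fa58015ad6a100480010c9302049001b9bd8200000e85f614dee4df4a4dae55f4a09adcbbed4026673afb525f74afc500951d8bf54915dfbf94022d7aeff50007db0048000211bfd20022fbf1200365abf1d1e6c1958d400952f248009fede480008041c10008346a100010e948200157b0530002d16726000018cb913001c9be930004597e160056b5a840120004324d08124006f2f70800003a37e04003a97e0537b937d2804dae5df4a4d2e65f6a0132b9f7da92f3a77e2804a6ecdfaa488f0dfca01163d97fa8003f180240001095fe900118df69001b20088dae660dbcda254756fc3245776fe3008b1e8bfcc001f2c00a00008370028008aefc2800da4a94825e70479a5,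
  0x1a6bc02]).isSome = true := by
  decide +kernel

end Pool.Agent.Lib.MP250511.GEOM
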