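import Pool.Agent.Lib.MP_250511_an.Geo.Core

/-!
Problem MP_250511_an: certificate data, part 24.
-/

set_option autoImplicit false
set_option maxRecDepth 1000000

namespace Pool.Agent.Lib.MP250511.GEOM

theorem ck32 : (chkTop tab 60 1747626 1887437 0 174763 512 768
  [0,
  6,
  7,
  0x1b2bd02,
  0x4a579940056b5a9400040617080042a4808000b15945800031b7216003837c160007f7002c00a7aca0800ad6b50800005bd4004005f9160400041230080052eb508000152af0200193ba02001bebdc2001debf8200000fbe0014e0eddfa60975e5bfcc1183f7801800085aff28008c6fb2800d5fa142e53901e32d,
  0x1abbc42,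
  6,
  0x198ba82,
  0x19abac2]).isSome = true := by
  decide +kernel

theorem ck33 : (chkTop tab 60 1747626 1817531 174763 262144 512 640
  [0,
  6,
  0x962f02800bda460800bfe19080001018502001068dc20010c93420000552be2c005aacf2c000031972160038b7c960007db002c009dee308800056b5a84012090092400004bf7724005f719040004061208004223e08000a8d769800b3d9a980000622e24c00706f84c00110dfc580156d7a1100001724e81104804900c7af2dfea083dfcc01400043b7f240056b5a84006b377e1d20282712ec9eeadf8608ede1bf8c106bef801800085eff28008d2fb2800d73904500f50274c5,
  0x942f32800ad6b52800080c2810008346c10008649a100002ad5f96002d76816000018db94b001c6be4b0003ed80160042f7f96000ad6b50802412012003537884003857c04004b37824005f719040004061208004223e08000aed8c9800031371a6003837c2600085eff2c00ab6bd0800ad6b50800005c93a04005fb128409000052eb50800622e208006cef40800736fb080076afd0a7472efa5271736fb5000009a9d1bf1497dd9bf54125bc97f2821d7ef005035f13dfaa00d66efc3a40504e25d00000259bc12002fb8c820002030904002111f04000576c64c000189b8d3001c1be130004417f160055b5e840056b5a8400002e49d02002fd89420480002975a84003117104003677a040039b7d84003b57e853a3977d2938b9b7da800004d4e8df8a4beecdfaa092de4bf9410ebf780281af89efd5006b377e1d20282712ecc2ea5f860931dfbf8c10e3eb801800084aff28008bafc2800d7797c5536102c0dd,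
  0x932f428009d2e42800bfe19080001018542001068e020010c9382000054ebc2c005a2ce2c00003157196003857c160007cb002c00a16db080015ad6a100482402002fd6e84003517804004af78a4005f719040004061208004223e08000ad5849800030b7026003797ba600083f002c00ab6bd0800ad6b50800005c93a04005fb128409000052eb50800622e208006cef40800736fb080076afd0a6971efa500004c0e6df6a4a8ea5f8a08fde0bf941073ed8028000856ff4800ad6b50800d66efc3a40504e25d00257bc52002fb8c820002030904002111f0400056ac24c000185b813001bcbdd300042f7f960055b5e840056b5a8400002e49d02002fd89420480002975a84003117104003677a040039b7d84003b57e8534b8f7d28000260736fb5254752fc5047ef05fca0839f6c01400042b7fa40056b5a84006b377e1d20282712e8000012bde290017dc6410001018482001088f820002b561260000c2dc09800de5ee980021fbf8b002adaf42002b5ad4200001724e810017ec4a102400014bad4200188b882001b3bd02001cdbec2001dabf429a5c7be9400013039b7da92a3a97e2823f782fe5041cfb600a000215bfd2002b5ad4200359bbf0e90141389765473efb3047ced5fa60001e2bf8a001f4c00a00008370028008aafd2800d7948457c5701b31d]).isSome = true := by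
  decide +kernel

end Pool.Agent.Lib.MP250511.GEOM
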