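import Pool.Agent.Lib.MP_250511_an.Geo.Core

/-!
Problem MP_250511_an: certificate data, part 25.
-/

set_option autoImplicit false
set_option maxRecDepth 1000000

namespace Pool.Agent.Lib.MP250511.GEOM

theorem ck34 : (chkTop tab 60 1747626 1817531 262144 349526 512 576
  [7,
  6,
  0x95ef12800be23f0800bfe16080001018502001078f420002232e04002b160960005a6cf2c00003197216003917d160007eb002c820120900920100266bad2002fc8b420002071204002273004002c765260000185b813001bfbdd300044b7e96005655c04400005d13604412012403143c97f281fa7f300500010fdfc90015ad6a1001acddf87480a09c4ba23475efd322577efe300835eabfcc001f7c00a000084aff28008c6fb2800d899dc6a4e90136b5,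
  0x1275e850017bc8210017fc301000020309040020b18840021523040000a75705800acd84580016ab3cb00000c6dca5800e45f458001fbc00b00290b50200056b5a84012090092400956f14800ad6b54800080c201000834721000151aed300167b35300000c55c69800e25f29800219bfcb002b5ad4200904804924000ccee45f4a0995cabe9413039b7da825674afc50482ef5fca0841f5c0140004277fa4004637da4006be58a2ceed828df28000012ade290015ad6a90001018402001068e420002a35da6002cf66a6000018ab8d3001c4be530004457f160056b5a840120900924800199dc8be94132b957d28260736fb504ace95f8a0905debf941083eb802800084eff48008c6fb4800d7cb1459ddb051be5971cdbecc955d0bf0c024a75afd323b77afe30088de9bfcc001f4c00a000083b0028008aefc2800d8e9046eb3b032685,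
  6,
  0x12bde250017cc7810017fc28100002030a040020f1e0400043e55080044a5f08000abd805800168b38b00000c65c85800dcdec5800eddfa58048200017b48e10008548e10248040097aee4800aaebe2800080c26100083c74100010f95c2001179ac20002cb66260000189b893001b5bd53001d7bf5300008aefc2c80482402480498c1ccbed4117b9b7da80458e7df6a452e8df8a0021f75afc521077afe5007e1eabfd4001f6c0120000852ff48008dafa4800d8833468ccd01601d0004c97624005fb148400040e25080044a5f080058eca4c000030d70a6003657a26003a77e26000118df65900904804920024811739d7da915ba17da822674efc50086dd9bf54831e1bf9401f57b6ff50007ef0048000218bfd20023abe520035e5c715f65c0837961476afd3007ede6bfcc001f0bfca00008370028008befc2800d9eb7c7e752ffdb25,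
  0x1275e850017c47c10017fc2c1000020309040020b18040021322040001704f810017dc621000102870200152af1300005f6dc4c006a2f04c0052eb528000161b24a00181b78a00035b7914003b57e94000ad6b5080015ad6a100000bb2630800bfe1c0800089cc05824806067ff005033717df8a00d66efc28add0b82e50014fae4b0002af60960005a6ce2c000031b7296003957d160007ff002c8200017bc88100085c92102480004a979240052f67940004020f080041a370800086ca01000884b21000155afd30002cd66a6000018ab8d3001dfbf8b0004497e960056b5a8401200042e4b081240264b73afb5008fdd4bf148c1dcbf5402177a2ff50007cf004800020ec0120022ebf12003656f31d20cc1494740095af14800a8ac6280008041c10008346c100010e94c200154af930002cb66260000188b893001b5bd53001d7bf5300008b2fc2c00ad6b50802400086498102480642756fc5232776fe500865e9bfd4001f5c0120000842ff48008c2fb4800d914a46f14f0680ad120b9f7d991cba77e1822d766fd300851e5bfcc001eebfca000082b0028008aafd2800da4d54835b70281a5]).isSome = true := by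
  decide +kernel

end Pool.Agent.Lib.MP250511.GEOM
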