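import Pool.Agent.Lib.MP_250511_an.Geo.Core

/-!
Problem MP_250511_an: certificate data, part 26.
-/

set_option autoImplicit false
set_option maxRecDepth 1000000

namespace Pool.Agent.Lib.MP250511.GEOM

theorem ck35 : (chkTop tab 60 1747626 1817531 262144 349526 576 640
  [7,
  0x926f528009c6e62800bfe16080001018502001058cc20010a92020000546bb2c0059ece2c000031571960038b7c960007df002c8201209009240094ef24800a4ad22800080c20100083472100014eae1300163b29300000c2dc29800eadf85800218bfcb002b5ad42009048049240026070ef9525c716f9504aee45f4a0935cebed411b3b37ea82027c2ff5000107e009001175f89001af9628b3bb60a37ca000004a7792400539659400040610080041a3908000a75709800b1d94980000616e14c0077afe2c00110dfc58015ad6a100482402492001303877ca92e38b7ca8257722fa5049ae75f6a08d9d9bf541013e17fa800083f0048008bafc4800d7cb1459ddb051be5945c7be4c925cabe8c023d742fb322d762fd30084de3bf8c001edbfca000081b002800896fd2800d94ffc7579f01792d,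
  0x47b7c94004b178940009cae52800bfe15080001018502001058c820010890420010a92020010c9342000002e09f02002fb8c420002050e040029d5c260000bcdb29800d1ddc9800a5d6a500002c965940030d70940006daf52800796ff280015ad6a10002b5ad4200001764c610017fc381000113988b04900becfd600a06222cbf1401acddf8515ba1705ca0029b5b96000556bf2c000b359a58000062ae32c006def52c00762fd2c0001f3c00b208200017b48c10008548e102490000127de890014ada050001018442001068e0200021b2884002212c04002995b260000a9d789800163b29300000c35c29800ef5fc5800223bf8b201200042e4a081240323b897ca9203917d280466e75f6a446eb5f8a01043c37f28003d77fa4000103e009001145fa9001b35678f3e2a07932a0049f7a2400541639400040611080041a380800086ca21000884b01000a656c980002a75e2600058eca4c000030d70a6003677a26003f180160001165f85900900021725040920191dc4be54901c8be94023373afb522375afc500821e1bf94001ebbfd2000081f0048008a2fd4800d9ab3c79f1503c99511bb917d1917b997d9822274afc300819debf8c001e5bfca01a281700300088afe2800db028c8d00b00c90d]).isSome = true := by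
  decide +kernel

theorem ck36 : (chkTop tab 60 1817531 1887437 174763 349526 512 640
  [7,
  0x1a1bb82,
  0,
  6,
  0x19abac2,
  0x19cbb02,
  0x191b9c2]).isSome = true := by
  decide +kernel

end Pool.Agent.Lib.MP250511.GEOM
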