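import Pool.Agent.Lib.MP_250511_an.Geo.Core

/-!
Problem MP_250511_an: certificate data, part 27.
-/

set_option autoImplicit false
set_option maxRecDepth 1000000

namespace Pool.Agent.Lib.MP250511.GEOM

theorem ck37 : (chkTop tab 60 1747626 1887437 174763 349526 640 768
  [6,
  7,
  0x906f828009a2ea2800bfa220800c020b080000201060400205118400041e3a080051eb12c00015ab0cb0000616e02c006f2f72c000f65fe5801425b610002b5ad420090480002975a84002f96d840034b77840049f7a24005f719040004061208004223e08000aad7e980002ff6ea60036b7aa600083b002c00ab6bd0800ad6b50800005c93a04005fb128409000052eb50800622e208006cef40800736fb080076afd0a66702f8500004b8e35f2a49ce6df6a08d9d8bf54100bdf7fa8000833004800ad6b50800d66efc3a40504e25d0024fbd12002fb8c820002030904002111f04000556bf4c00017fb753001b5bd5300042d7f960055b5e840056b5a8400002e49d02002fd89420480002975a84003117104003677a040039b7d84003b57e85333817c2800025c71af9524e736fb5046cec5faa0805efbfd400041980240056b5a84006b377e1d20282712e80000127de890017dc6410001018482001088f820002ab5fa60000bfdba9800dadea980021bbfcb002adaf42002b5ad4200001724e810017ec4a102400014bad4200188b882001b3bd02001cdbec2001dabf42999c0be1400012e38d7ca92739b7da8236762fd50402f7dfea00020cc012002b5ad4200359bbf0e9014138976606f6f7304bededee60971bfbdcc12bb837c1824b71ef930466e95f860001d8bf4a001eabfca000080700280087afe2800d7d38c5cc7effce9d,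
  0,
  7,
  0x8faf82800996eb2800bfe15080001018582001068d4200109914200146ac0b00000a85745800b3598580000622e22c0070af82c000fa60059040002f592420010b9242049001aebc820024dbd1200293b48a00020308040020d1c8400055abf4c000181b793001d4bf0b00042f7f960056b5a8401209009248004b2e0df0a494e4df4a08c5d4bf140fdbd77fa800082300480089efd4800d7cb1459ddb051be50000024dbd120029db28a00020308040020d1c8400055abf4c000181b793001dcbf4b00043f7f160056b5a8401209009248004b2e0df0a494e4df4a08c5d4bf140fdbd77fa800082300480089efd4800d7cb1459ddb051be5935c0be0c915c4be4c0238726fa3227746fc30082ddcbf4c001e3bf8a00007f700280086eff2800d9dca47da14ff953d,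
  0x8c6fb2800932f428001325d850017fc28100002030a840020b1984004a77924005f916040004020f080041a3608000a9578980002fd6e26003517826002a55e140000bbdb05000e25f250002b5ad420000c02022c0043a532c1249000929bdbdd4909c1be1411b38f7d2821d74afc503ccf55fea0002b5ad4a01af9628b3bb60a37ca0028b5716000014eae0b00164b2cb00000c45c45800da5e85800eadf8580482010010a918204920000247bd9200294b44a00020308840020d1c04000526b34c00542ba4c000b059098000060adf4c00776fe2c001115fc59009000217250409201909c2be14113b9b7da8202772fd5000792ff48000200c01200221bf9200366acf1e7c540f26540091ef64800a82c82800080c221000834701000149acd300150ae930002c164260000182b7d3001aebcd3001f7c00b00008aefc2c80480010b928204900c84e15f0a089dcdbed41013b97ea8003c97fa4000100600900110dfc9001b35678f3e2a07932a231712f9321e72efb300805d7bf4c001dbbf4a00007df00280085eff2800dbb55495adcff5b15,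
  0x1165f8500123dec5000261bb4a002fe88c2002ff864200060104840000100830200102888200020b190400277521600050eac2c000156afcb000060adf2c006baf22c0073afb2c02410000bd64a080042a4708124008eaf9480099aeb4800a1ed92800010082820010287c200020917840020d1b840027752260000a0d56980002a95f260000c0dbc9800e85f65800203c00b2080005ed240400217250409248004a6d8de8a494dadeaa08f5babd9411038b7ca81f9752fc5000766fd480001f5c01200215bfd2003698b52133740449d4008f6f94800a3ad52800080c28100082c681000a0d54980002a95ea60000c05bc9800ebdfa580021cbf8b201200042e4a08124932d35b79282586baf3504aad7de6a0000127b657a292336d7aa82396eef75043ae35f2a0001c6be52001dbbf5200007db00480085eff4800d9ec7c7e7110112750000023bbe5200296b3ca0002010504002050f840004122f080041e3908000a0d56980002a95f260000c0dbc9800efdfc5800224bf8b200017b490100085c941024926586bef3500000949b1bd14925b5bd5411e3757b2821f71af9503f0eadf8a000ed5fa900003eb80240042b7fa4006d280e41eae8073fec88d9de8608f1b7bd4c8c9bbbd8c0224702f83211722fa3007cdd3bf0c001d6bf4a00007c7002800846ff2800dac7cc89e9cfe45ad,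
  0x184b802]).isSome = true := by
  decide +kernel

theorem ck38 : (chkTop tab 60 1747626 1887437 0 174763 768 1024
  [0,
  0x189b8c2,
  0x17ab682]).isSome = true := by
  decide +kernel

end Pool.Agent.Lib.MP250511.GEOM
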