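import Pool.Agent.Lib.MP_250511_an.Geo.Core

/-!
Problem MP_250511_an: certificate data, part 28.
-/

set_option autoImplicit false
set_option maxRecDepth 1000000

namespace Pool.Agent.Lib.MP250511.GEOM

theorem ck39 : (chkTop tab 60 1747626 1817531 174763 262144 768 896
  [0x118df650012b5e250017f43e1001804101000004061a08004fea82c000aad7c580002fd6e96003697a1600078efe2c8201209000052eb508005e6da080066eeb08008defa4800a1ada280008040c10008143a10001048bc2001078e8200028154a60000a9578980002f76da6003637a260007ef002c00872fe2c0015ad6a1004824024800e55f410025b6f2f75000702f8483f8efdfca05da0ac01401af9628b3bb60a37ca0008defa4800a46d3280008040c10008143a10001048bc2001078e8200028154a60000a9578980002f76da6003637a26000852ff2c00ad6b5080241201240072afa08012db797ba8003817c241fc77efe502ed05600a00d7cb1459ddb051be598dacbc8c985adbc8c12fb5d79182596c2f33000049adb5ea6478dedee60885c7be8c0f23bb7f180007cf002800843002800d7e6f45d72afd0715]).isSome = true := by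
  decide +kernel

end Pool.Agent.Lib.MP250511.GEOM
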