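import Pool.Agent.Lib.MP_250511_an.Geo.Core

/-!
Problem MP_250511_an: certificate data, part 29.
-/

set_option autoImplicit false
set_option maxRecDepth 1000000

namespace Pool.Agent.Lib.MP250511.GEOM

theorem ck40 : (chkTop tab 60 1747626 1817531 262144 349526 768 896
  [0,
  7,
  0x4437f14004717d1400091ef6280092ef5280017f43810018040e1000004061908004f2a52c000abd80580003056f96003777b1609040002f49302240240062ee40800666ea0800119df690012c5e290017fc321000020309040020b18840027b53260000a9d78980002fd6e26003a17d9600080b002c00a4ad2081009000219260409204b0dbdeaa464e2df2a07d1dbbf540003e78024004237fa4006cd59e3cf8a81e4ca80119df69001475aa50001018482001058c420013da993000054ebc4c00017eb713001d8bf4b0004397f164024000864981024812c36f7aa91938b7ca81f476efd50000f9e00900108dfe9001b35678f3e2a07932a000004677da40053566940004061208004163108004f6a64c000153af1300005fadc4c00786fe2c001125fa59009000219260409204b0dbdeaa464e2df2a07d1dbbf540003e78024004237fa4006cd59e3cf8a81e4cac78dbdea6087dc1be0c0f03af7e980007b2ff2800827002800da646c83e80fbd4ad,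
  0x4397f14004697d9400090ef7280091af62800bf629080002ff86820030081820000080c3210009d5465800155afcb0000606df2c006f2f72c120100109908204900247bd8a0026bba0a00278b88a000040209080040a1e080008245a10009b53a980013da993000054ebd4c00017fb753001d1bf0b00040b80164100904900c8cd9de8a08a1bdbdd40f33a77e280007a6ff480081f004800dc08ec998eb00e7fd00221bf9200239be920004fb6f9400523699400008041210008143c10001048b4200136a75300027b53260000a9d7a980002ff6ea6003b37e9600087efe2c804824806466cef450450dedeea0799d3bf140003d37fa40040f8024006e04764cc758073fe80000110dfc90011cdf4900028cb58a002a2b1ca000040209080040a1e080008245a10009b53a980013da993000054ebd4c00017fb753001e2bf8b00044f7e96402412403233677a282286f6f7503cce9df8a0001e9bfd200207c0120037023b2663ac039ff6346c6f43042cde5ee607adcabe8c001cabe8a0000792fe280080f002800dc14dc98d6cfafbdd,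
  7,
  0x219bfca0022fbf0a0004797c940047d7c14005f9150400017fc3610018040c1000004061a08004eaa22c000aa57a580002fd6e960036b7a9609040002f493422402002d96884003177204004577e240049b7a24005ff0c84000080c2410009b53c9800150ae9300005eada4c00722fa2c000fde005801495a41020120004324c081240955b2bd14001b1bcd20003997da4160803005006cd59e3cf8a81e4ca80022bbf120024dbd12002ff864200004061208004da9e4c000a8574980002f56d26003a17e1600080f002c00a4ad2081009000219260409204aad95e8a000d8de690001ccbed20b040180280366acf1e7c540f26565d68eee325469af03000048ed5de46468d95e860859bdbdcc0ea3a57e18000796ff280080b002800da1f847f916fabdd5,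
  0x213bfca00229bf4a00046b7d940046f7d24005f71a8400601070400008245a1000a7570980002ed6c2600359792609040002f5928b0010082cb0002975a84002bf6384004c37694000a66cd280002b5ad4a001ecbfd20020dc0120035f2c51602d3e4c3d400bf627080002ff86020030081020000080c3410009c5405800152af0b00005f6dc2c006def52c120100108904204800bfdba10011e5f250012fddc50017f43e10018041610000040209080040a1e080009b53a9800150ae9300005eedb4c00726fa2c000fee005904024124032235d79a82246e6f6503bee75f6a0001e2bf9200200c0120037023b2663ac039ff400126de8500139dca5001435b4500002010484002050f040004da9d4c000a8574980002f76da6003a37e1600081b002c8201209201911aebcd41123737b281df73afb50000f15fc9001006009001b811d9331d601cffa004317fa40045f7e24000a12db2800a6ecc28000100824200102878200026d4ea6000542ba4c00017bb6d3001dabf4b0004417f164024124032235d79a82246e6f6503bee75f6a0001e2bf9200200c0120037023b2663ac039ff40023e69aef322a6b6f230414dbdea60001b1bcca001c4be4a0000776fe28007ef002800dbb354932b0f946ad]).isSome = true := by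
  decide +kernel

theorem ck41 : (chkTop tab 60 1817531 1887437 174763 349526 768 896
  [0x173b582]).isSome = true := by
  decide +kernel

end Pool.Agent.Lib.MP250511.GEOM
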