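import Pool.Agent.Lib.MP_250511_an.Geo.Core

/-!
Problem MP_250511_an: certificate data, part 3.
-/

set_option autoImplicit false
set_option maxRecDepth 1000000

namespace Pool.Agent.Lib.MP250511.GEOM

theorem ck5 : (chkTop tab 60 1747626 1782578 305835 349526 64 128
  [0,
  0x5c93a84005f9150400040a2208004465b08004867e0800002634b04482400018ab8d3001b6bd53001d8bf5301aa65ae9300068eee28000e2df25000f4dfe50000081f00280089efd2800178cb010002fe87820002091804d6ae56aa80000ae58a5800bfdba5900901aef6d765a2a130c5a000bce4f089000052eb508006cef44c00752fc4c0001eebfd300194ba0a0b43837c1800075afd28007f30028000044b7e94004b17894005e7278400017dc641001804161000020b18040028d58160000b4d9e5800c85cc5900901b126773a30e130c5a005e92684480002975a84003677a26003a97e260000f75fe9800fde00980102600980d0b9b7d98003a57e140000f8e0050010d5fe500000906f828009d2e4280017d46a10018041c100002091704002975a960000ba5ae5800cf5d85900901b143a7313160d9e2a0000e25f25800eadf858001efbfcb000084aff2c008b2fc2c008f6f92c05d286b694002fc8b0200020107840020d1b040006e2f6280077afe2800003fb8014004417f14000912f728007e7004c00021dbf930023fbe1300056b5a84012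0900920001275e85801365d05800293b48b01af9628b3bb60a37ca005635c84000ad6b5080015ad6a100000baa690800bfa2108120000a5d6a11240048002e59cc2002fc8a8200020510840022d34840000a5d6a1000d15dc98001c2be13001e4bf930000876fe2c008fef82c0012f5dc58013a5c858015ad6a1000001704f81001784b210002fe88420002091584002393a840000a5d6a1000d8de650839d7bf4c871e4bf8c2012002412006accb1f602d82d2629208008b4d0100002975a840033d76260006f6f74c0077afe4c000220bf8b00242bdcb0004c37696004fb701600002df9f82002ef96c20005fd11040004122b0800596cc4800014bad42001c2be0a0ff3cb7f990a3ed801822280700322681700301040048203589bef3ce3c14a794024120000a5d6a1000e4df498001fdc01300246bd8b0004cb7596005016f160000297b3cb002ef97420005fd11840004122a0800632e428000184b812001d2bf0a0003dd7f9504c07801821c83f00322585aff3229866ff322b86aff322c86eff3080002400090406b6f3ddc89781f92ac39115fc608422ebf0c01f591ef63000ad6b50800d5cddc2375304b34d,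
  7,
  0x2e49d42002fc8ac20002051084002212d04002433e84000014bad420014bad4224120000a5d6a1000e25f298001f7c013001a9bc4a0003ad7e94000106e005001764c8100179ca2100005f71a8400601070400008245a1262a5d6a600002bf6396003077016402406be589d3fa683678a800034377160036379960000e4df45800f55fe5800041b80160044f7e96004717d16000141db890017e458100010083c2001068d820003657a14003b17e9400001f8c00a0021abfca0003ab7e26003ef8026000115df898015ad6a100482402480004977a96004d37496000a42d42c06be58a2ceed828df280156d7810002b5ad4200056b5a8400002ea9a42002fe88420002091504002373904012090092045b0c5fe644d105fc608662dbf0c01fc916f73000ad6b50800d5a8b419807056115,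
  0xb96730800bf62a08000814421000884b21000904f8100090002050e040022731040000a5d6a1000cd5d698001b9bd93001d3bf13001e0bf93001e9bfd30006918eb94c0018ab8ca0003497794000726fa28007d7002800005bd4004005cf3704000bca54080017f43a1000128a28b0002ad5f96480480d66efbd1f490a2b75002f493822400014bad42001b0bcd3001d1bf1300007aeff4db16b2f2302d2e1df260001d9bf4a00201c00a0000115df850012ade2500177cb810002f493820000bee320800c020b080001048bc200145abcb00005aad02c00646e72c80480d8bf2b99ae7093f6d24804006faf74c000f4dfe9800fb6009b84e05f0600d1b997d98003a37e140000f8e0050010d5fe500000906f82800ad6b5280017dc6610018041a1000020916840029b5b960000bbdb05800d0ddc5900901b2a1b71c66e0ef9aa0000e1df25800ea5f858001eebfcb0000846ff2c008b2fc2c008e2fa2c00906f82c000055d5e040056b5a84000ad6b50800005d73304005fd100409009201002e69c02002fd8a8200020510040022b33040000a5d6a1000cfdda98001bebdd3001e0bf93000087afe2c00902f82c0012fddc58013adc858015ad6a100000170cf4100178cae10002fe880200020915040023739840000a5d6a13cee15f060825dbbf4c861e8bfcc87deebfcc2002400482400d5afabe59a905a4c50005cd3804005fb148400040a21080045a670800014bad42001a0bb930003817c26003c57f26000116df85801275e85800279b84b0000baa680800bfa210800081c5410008dce4100002975a84003857c14000776fe2a077db003012080090412006ac465f7ee68294f2c350edfc608362abf4c01ef90af73000ad6b50800d6085c2ccaf04ed3d]).isSome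 = true := by
  decide +kernel

end Pool.Agent.Lib.MP250511.GEOM
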