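import Pool.Agent.Lib.MP_250511_an.Geo.Core

/-!
Problem MP_250511_an: certificate data, part 30.
-/

set_option autoImplicit false
set_option maxRecDepth 1000000

namespace Pool.Agent.Lib.MP250511.GEOM

theorem ck42 : (chkTop tab 60 1747626 1887437 174763 349526 896 1024
  [6,
  7,
  0,
  0x170b502,
  0x169b3c2,
  0,
  7,
  6,
  0x85eff28008bafc280011edf250017e45e100030083c200004061b08004264508000a8574580002f36d16003617996090092012400892fd48009cee52800bfe1508000101854200135a71300029d5c260000bbdb29800e55f458241009048049023f6b6f250006aaf148000e2df290511fac01401b33568f3e29ffe50a0008a2fd4800ad6b54800bfe1908000101848200134a69300029b5ba60000bb5b09800e8df85800205c00b2080480010c930204820035b7924000722fa4829efe600a00d9ab3c79f1503c995929a1bb8c0008b9abbc4c001a6bbca0003817c14000786fe28007fb002800d9abbc7897afa100d,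
  0x16bb402,
  6,
  0x4237f94004537e940008dafa2800bf22c080018041c100002030d0400213218400053ab82c000178b64b001a1bb8b20120124024801295e450013d5c250017f43e10018041610000040209080040a1e0800099d34980014dadd300005ded84c0074efc2c12080482410019ebb520003777b24000776fe48007ef004800dc08ec998eb00e7fd90d9bbacc000895a6bbcc0019abaca0da3937d18000766fd28007e3002800daf73c89a1cf8f8dd,
  0x165b302,
  7,
  0x163b282,
  6,
  0x104e0050010fdfc50002f79102002f98e820005f91584000c020d0800010186c20010990c20002975b160000ba5ac5800ce5d859009009201240091ef628009c2e62800bfa1f0800c020b0800002010484002050f040004c6974c22c9cd44a00002e96b26003997d960904024120800cddd690001b5bd520003ad7ea4003e78024006e04764cc758073fe893d91b9cc8ed98ba8c000871a2bb8c00197ba4a0003657a1400074efc28007c7002800da6d0481cc0f84b15,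
  0x15eb182,
  0x165b302]).isSome = true := by
  decide +kernel

theorem ck43 : (chkTop tab 60 1747626 1887437 0 349526 1024 2048
  [0,
  0,
  7,
  0x166b302,
  0,
  6,
  0x154af42,
  0x158b042,
  0x14bad42,
  0x14bad42,
  0x14bad42]).isSome = true := by
  decide +kernel

theorem ck44 : (chkTop tab 60 1747626 1887437 0 349526 2048 4096
  [0,
  0,
  0x125a142,
  0x1119702,
  0x1028882]).isSome = true := by
  decide +kernel

end Pool.Agent.Lib.MP250511.GEOM
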