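import Pool.Agent.Lib.MP_250511_an.Geo.Core

/-!
Problem MP_250511_an: certificate data, part 4.
-/

set_option autoImplicit false
set_option maxRecDepth 1000000

namespace Pool.Agent.Lib.MP250511.GEOM

theorem ck6 : (chkTop tab 60 1782578 1817531 305835 349526 64 128
  [0,
  6,
  0x2e39d82002fc8b0200020510040021f2c040023f3d04000014bad420014bad420013ea9c20000682ed2c006bef32c0001c7be8b001eabfcb0000837002c0089efd2c008d2fb2c008f2f92c00be4fb6fa80055161240004020d08004122b08004223f0800010b92c20010d940200035d7994000712f928000f1dfc50000081300280089efd283191ddf2600100600980004697da6402410482004cf7516000a3ed42c06ceede3cf8a83d04e80140dba90017dc62100010082c2001058c8200021725040021b2904003bd7f140000f55fe5000202c00a000010e5fc50011ddf2500025bbbca001fdc0130000886fe4c0090ef74c0015ad6a100480010d94020482004e57296000a62ce2c06cb63a37cb485450e8015ad6a1000056b5a8400002ea9a02002fe88020002091604002393a840000a5d6a1104900120c61135fa6089632becc0000a96c40800ad6b50800d599c40a1a1071f6d,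
  0x1714f210017e45c100010287820010f95820011f9e420000096d22112080089cc2100003177226003717b26003b37ea6032cc95ce6000cedd850001bebdca001e3bf8a00001036005001105fc500115df85001195f65001734e0100000ba26b080002f295020005ff0d8400041633080048a7f0800015bb0cb0017db70b2012035e77eedeefc338a341002fc8b820002050e840022932040000a5d6a1000cf5d898001bdbdd3001dfbf93000080b004c006def528000f15fc500109dfe500000942f32800bc656080017f43a10001048c020011f9ec2000057ec72c0060adf2c90012080d66efbd1f490a2b75001a6bc0b0003657a160000e55f45800f6dfe580004217f96004677d961859eee05000a92c44800080418100081c54100083c7a1000021724840021926840021b27840000dd5ec50001cfbeca0003db7f94000020cc00a0022ebf0a0c1c7f7c18003ff8026000119df698015ad6a100480010c93c204824001355d25800291b4cb01b3ae78ef81a12812a0056b5a84000ad6b50800005d73284005fd0e840004122e080052eb50800014bad42240248017e45a10001028782001159942000052eb5080067eed4c000e75f69800233becb00263bb0b0027eb7cb000016e506100172ce410002f195c20005fd0f040004122f080047e7a0800014bad42001c7be4a0003c17f1518bef801824180f0030820024101ac9277a8376124d8a048b0d5fe647d115fc608ca2ebf0c0000a82c80800ad6b50800d5f1641a3e30958dd,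
  0x2e29dc2002fc8b820002050f040021f2b040023d3c84000014bad420014bad4200192b9cb0000676ec2c006b6f22c0001c5be4b001e7bfcb0000807002c0084eff2c001105fc580136dd09001415b8900029db29200056b5aa40056b5aa4002a95f140005aed02800018fb98a001b6bd4a00000ec5fa52d2fe60060001d7bf53001e8bfd3000407802600011bdf4990000be24008824100248bd8b0004ed71960370d93262a6c1e8274001375ce900141db8900029fb25200056b5aa40020713040020916840020b1884002a95f14000016cb44a0000666ea280070ef92800003cb7f94aac0b801819587efe300079eff4c00100e009800046d7d2640002f88fc22090400946f32c0013edbe580dbc3f49288508759d5de79b894002a2b19200020106840020915840020f1d04002e16a14000019ebb4a001ccbeca00000f7dfe50010b5fe5000234beca001e4bf930003ff8026000119df698015ad6a100482090004757c96004b77796000a16da2c06d4a5241961843ace801789e6e15000a8ec64800080418100082454100083472100084c8610000065eea28006e6f628000eddfa5000007fb00280088afe283191c5f46000ff600980004657da60056b5a8401208241200098eec2c001465ac580da43247e71108c0855ea7bb854002a4b11200020106040020715040020f1e84000085c981000d65e450001c8be8a0003d57f94000020bc00a0022ebf0a0004a57994003f98026000118df698015ad6a100480010c93c204824001365d05800293b48b01b36cc8ebaaa12812a000a02de4800bee310800080414100082c62100010c9382001cebeca0003eb80140000216bfca00237be8a0004b37814003f1802600010e5fc98011f5f098002b5ad4200900021b28040904009d6e42c0014d598580d8a5fc6207f0ad7c5002b5ad420000ad6b50800005d73304005fd0f040004122e0800476760800014bad420015ab0c20490012408ea1fbf8c0027eb7c20000a8ec60800ad6b50800d5bf440ace30901fd]).isSome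 = true := by
  decide +kernel

theorem ck7 : (chkTop tab 60 1817531 1887437 174763 262144 0 128
  [0x1f5c002]).isSome = true := by
  decide +kernel

end Pool.Agent.Lib.MP250511.GEOM
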