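import Pool.Agent.Lib.MP_250511_an.Geo.Core

/-!
Problem MP_250511_an: certificate data, part 5.
-/

set_option autoImplicit false
set_option maxRecDepth 1000000

namespace Pool.Agent.Lib.MP250511.GEOM

theorem ck8 : (chkTop tab 60 1817531 1887437 262144 349526 0 64
  [6,
  7,
  0x2df9f42002fb8c420002050f04002212c04002413e84000014bad4200199ba8b00035d799600077afe2c001105fc5801285e658015ad6a100000ba6690800bfa1e0800082c621000904f81000029d5c04003277404003897c84003d37f840000210c00200236be820004d17504000a72cb0800ad6b50800d5d51c0839f0a1fdd,
  0,
  0x5c33d04005f7180400040a1c080043a530800476760800002975a84002674d04005e52a04002030c840022730040000a5d6a1000cf5d898001bdbdd3001dfbf93000080b004c00666ea28000dcdec5000ecdfa5000007d7002800833002800882fe2800baa680800005df2e84005eb250400017fc34100012da44b0002b76216002fb6e16480090406bea39db4118717ea80005e52a04002030c840022730040000a5d6a1000cf5d898001bdbdd3001dfbf93000080b004c0068eef28000e3df45000f75fe500000846ff28008e6fa2800177cba10017ac94100005ff0d0400041634080048e8108000160b20b00184b80b2400482035f51ceda08c38bf5400bca54080040619080044e600800014bad420019ebb1300037b7ba6003bf7f26000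1016009800d75e450001d6bf0a00201c00a000011adf4500177cba10017ac94100005ff0d0400041634080048e8108000165b30b0018ab8cb2400482035f51ceda08c38bf54000d9de8580003997d96003dd7f96000108dfe58011a5f65800248bd8b00250bccb0005096da4005f7190400040209080041630080008649a1000a5d6a50001e0bf8a0000105e00500118df65000256bc4a001fec01300008cafb4c009c2e64c0002b5ad422000436520812402004c176960009dae32c0014dd98580d83144572b70bf7ad002dea002002fb8cc2000201040400209178400042e4c080044a5e08000f960050000086eff28008faf8280012fddc5000fe600980004417f26004837ba6000ad6b50800ad6b50800005db3004005ff0d0400043a530812402004357f840009f6df2c00150d8e580d7e44c4e7830cf1450000b1ea20800ad6b5080015ad6a1000001764c810017fc3810001058c020014bad42000052eb50800642e6080070af90800782fe08007d3000800000823000800876fe080011d5f2100025ebb820027cb8020000a86c70800ad6b50800d5fe6c045bf0bd6b5,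
  0x2e19e82002fb8c020002030e040021d29840023b3b04000012ba3422400080c34100089cc2100002975a840033d76260006f6f74c0077afe4c000201c0130019abaca0003757b14003bd7f140000201c00a002e39d82002e69c420005d335840001794a810002ff86c20002574696000562c12c005e6da2c00782fe0880090406ba1e5e0af58687f28002f295020010186420011398020000636e54c006eaf64c00772fd4c06759abacc001a5bbca0003957d14003e580140000218bfca00243bdca0005df2e84005eb250400017fc3410001058d0200123a0420000586c82c00612e02c90012080d7d473b68230e2fd5001a6bc0b0003637a160000e55f45800f65fe5800041f8016004557e96004757c96000123dec5801405bc90017dc6a100010081c2001048b820002172584003477794000772fd28000040d80140045b7e1415d8fef830007f7004c000221bf9300243bdd300056b5a8400015ad6a1100021d2a040904009b6e72c0014a5a2580d917d46207f0eaecd0005036ea4005f7190400040209080041630080008649a100088cb61000dd5ec500003d57f940000212bfca00236be8a0004b37814003f980260001185f698015ad6a1000056b5a84400086ca4102480400986ed2c0013b5c6580029bb30b01b0e038b683e189cfa005056ea4005f719840004020808004122f0800085c961000884b4100089cc21000f0dfc5000007e3002800833002800000892fd2800912f72800131dd85000fde009800043f7f26004837c26000ad6b50800ad6b50800005db30044000874a610248040085aff080013edbe58002a0b20b01b0aef8ad84a1adcca00015ad6a10015ad6a1000001764c610017fc3610001058c020014bad42000052eb5080063ae50800702f80800776fe08007c700080000081b00080086aff080011c5f4100025cbbc20027bb8420000a82c80800ad6b50800d606bc09b4f0bef45,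
  0x1fac002]).isSome = true := by
  decide +kernel

end Pool.Agent.Lib.MP250511.GEOM
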