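import Pool.Agent.Lib.MP_250511_an.Geo.Core

/-!
Problem MP_250511_an: certificate data, part 6.
-/

set_option autoImplicit false
set_option maxRecDepth 1000000

namespace Pool.Agent.Lib.MP250511.GEOM

theorem ck9 : (chkTop tab 60 1817531 1887437 262144 349526 64 128
  [6,
  7,
  0x5bf3f04005f7188400040a1f08004425908004867d08000025b4904002694d0400065ae92c000d65e458001dbbf4b00043d7f160048d7b16004ab7896000ad6b50800005d53484005fd0f0400041630080052eb50800014cad8200190b982001bfbe02001e4bf820000105600100118df61000254bc8200273b9020000a6acd0800ad6b50800d5efbc14f5d0a1435,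
  0xb827b0800bee3108000814381000874a810008ecee1000004a68b088017dc6410001018642001139802000052eb50800672ec4c000dddec9800ee5fa980002e96b140032373940006c2f3280074afc2800003ef80140041f8014005c53c040001744da10002f294820005ff0d0400049e882c000a95765800d25de1000f7dfe100482035c36cf36f943a40541002fb8c820002030c840022730040000a5d6a1000ce5d898001bbbd93001dcbf5300005eada280066eeb28000dfdf05000f5dfe500000892fd2800ba26d08001794a410002ff8682000255461600055ac02c00692ef08007beff08024101ae1b679b7ca1d202a005e32b84002030b84002252f040000a5d6a1000ccdd498001b8bd93001dabf530186656e8300067eed28000e25f25000f85fe50000088afe280095ef12800baa67080002f394020005ff0c040004ba932c000aed8a5800d55e21100901af962782bd621cdea000178cae100080c2e1000894bc100002975a840033375260006e2f64c0076afd4c0001f4c0130018db94a000355789400074efc28008130028000046b7d14004db7394000bce50080017fc3010001068d8200124a0c2000058aca2c006aaf10880480d7cb13c15eb10e6f5001a5bbcb00036379960000e4df45800f65fe5800041f8016004537e960046d7d160047d7c160064a77b8d4002fb8d0200020104040020713040020f1d0400008548c1000c35c2500019cbb0a0003737b1400077efe2800004078014004517e9417a8eaf930007fb004c0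00232bed3002b5ad4200900021b29040900048b7b16004c97596000a36d62c06d1cee3be06868bce8013d5c290017dc6410001008242001058c4200021724840033175140006eaf628000f15fc50000081b0028008aafc28001285e65000fde00980004617e260056b5a8400015ad6a1100021b2884092000125dea5801355d25800291b4cb01b2cd48d9c8e17ef5a0009eae14800bee320800080412100082c62100010b92420010d9402001b3bd0a000073efb28000f9e0050000084eff28008d6fa280012c5e25000fde00980004617e260056b5a8400015ad6a1100021b28840920100259bc0b0004df7396000a5ad02c06cb3523672385fbd680027bb812002fb8c8200020105040020b18840004324e08007aaff28007cb0028000208c00a00001115fc5001205f05000260bb4a001fac01300008bafc4c00ad6b5080002b5ad422000436510812402004c576960009dee22c0014e596580d8f2c4661e70b82e5002b5ad420000ad6b50800005d93184005ff0d8400041630080052eb50800014bad42240077efe0800003fd8004004257f8400089efd08008eaf908000256bc4200276b8c20000a76ca0800ad6b50800d639641bd3f0bef45,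
  0x1edbfc2]).isSome = true := by
  decide +kernel

theorem ck10 : (chkTop tab 60 1747626 1817531 174763 262144 128 256
  [0xb6a870800bee340800081c4810008acc810009250410009852a10001002fb8d0200020510040023538040000c7dcc9800e45f498001f9c013001a1bb8a0003817c14003bf7f1400001fdc00a002b5ad4a0005cf3684005e12c8400017d47010018041810000255469600054ebd2c006aaf108007beff08024101acddf7a3e921456ea003157196000652e82c000d4de258001d7bf4b0004118016004517e960008f2f92c00a9ec2080015ad6a10002b5ad420000172ce610017f44610001058c820014bad42000053ab8089001e0bf820000102e00100114dfa100024cbd020026cba020000a4ed10800ad6b50800d5f2bc21a0507cd35]).isSome = true := by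
  decide +kernel

end Pool.Agent.Lib.MP250511.GEOM
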