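import Pool.Agent.Lib.MP_250511_an.Geo.Core

/-!
Problem MP_250511_an: certificate data, part 7.
-/

set_option autoImplicit false
set_option maxRecDepth 1000000

namespace Pool.Agent.Lib.MP250511.GEOM

theorem ck11 : (chkTop tab 60 1747626 1817531 262144 305835 128 192
  [0x2df9f82002fb8c020002051004002232d840023b3b840024f4484000400bee330800080c3410008a4c8100002975a840033575a60006e2f64c00766fd4c00017cb70a0019abaca0003757b14003bb7f1400001fcc00a00211bfca0005cb3904000bc656080017fc361000128a28b0002a75e96480480d6dd0bd1f490e027d2005f9180400040a1e080045a680800018db953001b9bd93001d9bf53000062ae328006b6f228000e95f85000fee005000008e6fa2800bc25a080017f43e100012ca3cb0002b36116002f76d96480090406b377de8fa48515ba9002fc8c020002050f040022d34040000c6dca9800dcdec9800ecdfa9800032373940036d7a940007beff28000242bdca002f096820005fd0f8400041632080048a800800015eb18b00181b78b24004820359bbef47d2428add400019dbb0b001a5bbcb00036179960000e45f45800f4dfe5800041780160044b7e96004637d96005615d160053b65a40004020e08004122d0800672ec280001bebdca001debf8a00000fd60050010d5fe50001d7bf53001f9c01300008b2fc4c00ad6b50802400086ca01024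00127de85801435b4580d9ddbc79f1507a09d002f13bdc6a0015158e90001008302001048ac2001089002000070af82800756fc28000f75fe50000082b0028008a2fd28001255ea5000fae009800042f7fa6004737d26000ad6b50802400086ca410240012eddc580148da6580d89f9c643870937cd002b5ad4200056b5a8400002ea9a42002fe87c20002091784002975a840000a5d6a11201002b5ad42002fb8c420002050f040022d34840000a5d6a1000d05da98001bfbdd3001dfbf9300008bafc2c00972ef2c009e2e22c00005c13e04005e12c04000bfa1e0800082c64100090cfc100002975a84002cb6604000666eb088048002b2ae0201abd2e7e849615721a0056b5a84005f7180400040a1e080045a680800014bad420019dbb130003777ba6003b97ea60001185f6580136dd0580005236996005e12c84000bfa1f0800082c62100090cfe100002975a84002d16704000642e608006c2f3081200240015ad6a100d6175be150b0a2b7593a0bc00c0049108dfe647f0cdfe6000270b9820000a62ce0800ad6b50800d61c7424f0f09038d]).isSome = true := by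
  decide +kernel

end Pool.Agent.Lib.MP250511.GEOM
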