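import Pool.Agent.Lib.MP_250511_an.Geo.Core

/-!
Problem MP_250511_an: certificate data, part 8.
-/

set_option autoImplicit false
set_option maxRecDepth 1000000

namespace Pool.Agent.Lib.MP250511.GEOM

theorem ck12 : (chkTop tab 60 1747626 1782578 305835 349526 128 160
  [7,
  0x2e49d42002fc8ac20002051104002212d04002433e840000130a5422410011498c2000062ae34c006daf54c0075efd4c069999bacc001a9bc4a0003997d94003e38014000021fbf8a002f195820005fd0f040004163008004827c0800015cb14b2402406b749de14c38515ba8001a0bb4b001afbccb000071efa2c007a6ff2c00020cc00b00226bf4b00233becb0023bbe4b0000140dba90017e458100010083c2001068d820003717b14003bb7f1400001fbc00a0021dbf8a0003a57e26003e980260001145fa98015ad6a1004824024800049b7a16004d57496000a46d32c06be58a2ceed828df28015757810002b5ad4200056b5a8400002ea9a02002fe88420002071504400014bad42240249040045a680800018db953001c9be930004637d96004c17696004f7701600002df9f82002f096820005fd11040004122b0800476760800014bad42001c5be4a0003bf7f1510bef801823180f0030820024101ac3777a217a0a9bca04550a5fe64470edfc6085629bf4c01f5906f83000ad6b50800d5c5a420367056115,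
  6,
  0x1734e010017ec50100010288c20011196c2001219f8200000a5d6a1000a5d6a1000cadd25800034176960035f79960000e45f45800f55fe5800041b80160044f7e96004737d1600015557e110400005d5348441201209200002e69c02002fd8a0200020511040022f35040000a5d6a1000d1dde98001c3be53001e5bfd30000827004c008e2fa2c001285e658015ad6a10002b5ad4200001754d210017f44410001038a02001199bc200904804824405175f8a00004af78a40056b5a84006ab95a0700581bf8680173cde10017ec5010001028882001169a42000052eb5080067aec4c000dedee9800ef5fc980004417f16004857b96000986ed2c00ad6b50800ad6b50800000ba66a0800bfa220800081c5010008d4e2100002975a84eb3837c181f876afd320779eff30804800904801ab0b27d5cde070cba21484aff321085aff304150e5fc607f629bf4c01df90af73000ad6b50800d5c84c26089025d25,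
  0x172ce610017ec5410001028842001109642001209f020000097d28112080089cc41000031171260036b7aa6003ad7ea6033eccdd46000d3de050001cbbeca001f4c00a00001145fa5001794aa10002fe8742000259479600056ec42c900901add2778530e1456ea000682ed2c006bef32c0001c8be8b001eabfcb0000837002c0089efd2c008e6fa2c0002a8b042002b1ae4200056b5a84000ad6b50800005d53384005fd108409000052eb50890090005cd3884005fb150400040a20080045a670800014bad420019fbb5300037d7ba6003bf7f2600010edfc58011fdf0580025ebb8b002c6a882002b5ad42000002ea9a02002fe880200020715040023739040000a5d6a1000d7de65083dd6bf0c2402400482400d58c1bf11fb05a4c5002e69c02002fd8a4200020510040022b33840000a5d6a1000cedd898001bbbdd3001ddbf93000088efe2c00916f72c001325d858013fdbc580000b867a0800bc258080017f44210001038a820011b9cc2000052eb508006f2f728000eb5fa5426f8e0060889fec00c20800904801ab6557c78f60a9bca044309dfe64330e5fc6083228bf4c01ec906f83000ad6b50800d5de6c2675104b34d]).isSome = true := by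
  decide +kernel

end Pool.Agent.Lib.MP250511.GEOM
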