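import Pool.Agent.Lib.MP_250511_an.Geo.ASM
import Pool.Agent.Lib.MP_250511_an.Geo.C0
import Pool.Agent.Lib.MP_250511_an.Geo.C1
import Pool.Agent.Lib.MP_250511_an.Geo.C2
import Pool.Agent.Lib.MP_250511_an.Geo.C3
import Pool.Agent.Lib.MP_250511_an.Geo.C4
import Pool.Agent.Lib.MP_250511_an.Geo.C5
import Pool.Agent.Lib.MP_250511_an.Geo.C6
import Pool.Agent.Lib.MP_250511_an.Geo.C7
import Pool.Agent.Lib.MP_250511_an.Geo.C8
import Pool.Agent.Lib.MP_250511_an.Geo.C9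
import Pool.Agent.Lib.MP_250511_an.Geo.C10
import Pool.Agent.Lib.MP_250511_an.Geo.C11
import Pool.Agent.Lib.MP_250511_an.Geo.C12
import Pool.Agent.Lib.MP_250511_an.Geo.C13
import Pool.Agent.Lib.MP_250511_an.Geo.C14
import Pool.Agent.Lib.MP_250511_an.Geo.C15
import Pool.Agent.Lib.MP_250511_an.Geo.C16
import Pool.Agent.Lib.MP_250511_an.Geo.C17
import Pool.Agent.Lib.MP_250511_an.Geo.C18
import Pool.Agent.Lib.MP_250511_an.Geo.C19
import Pool.Agent.Lib.MP_250511_an.Geo.C20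
import Pool.Agent.Lib.MP_250511_an.Geo.C21
import Pool.Agent.Lib.MP_250511_an.Geo.C22
import Pool.Agent.Lib.MP_250511_an.Geo.C23
import Pool.Agent.Lib.MP_250511_an.Geo.C24
import Pool.Agent.Lib.MP_250511_an.Geo.C25
import Pool.Agent.Lib.MP_250511_an.Geo.C26
import Pool.Agent.Lib.MP_250511_an.Geo.C27
import Pool.Agent.Lib.MP_250511_an.Geo.C28
import Pool.Agent.Lib.MP_250511_an.Geo.C29
import Pool.Agent.Lib.MP_250511_an.Geo.C30

/-!
Problem MP_250511_an: assembly of the certificate.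
-/

set_option autoImplicit false

namespace Pool.Agent.Lib.MP250511.GEOM

theorem specGEO (hEAB : SpecEAB) (hAFF : SpecAFF) (hVPS : SpecVPS) (hPTS : SpecPTS)
    (hMTS : SpecMTS) (hCOV : SpecCOV) (hSYM : SpecSYM) (hBND : SpecBND) : SpecGEO := by
  refine specGEO_of hCOV hSYM hBND ?_
  exact (cov_s 2048 (cov_s 1024 (cov_s 512 (cov_s 256 (cov_b 174763 (cov_leaf hEAB hAFF hVPS hPTS hMTS hCOV ck0 (by norm_num)) (cov_s 128 (cov_d 1817531 (cov_b 262144 (cov_leaf hEAB hAFF hVPS hPTS hMTS hCOV ck1 (by norm_num)) (cov_s 64 (cov_b 305835 (cov_leaf hEAB hAFF hVPS hPTS hMTS hCOV ck2 (by norm_num)) (cov_leaf hEAB hAFF hVPS hPTS hMTS hCOV ck3 (by norm_num))) (cov_b 305835 (cov_leaf hEAB hAFF hVPS hPTS hMTS hCOV ck4 (by norm_num)) (cov_d 1782578 (cov_leaf hEAB hAFF hVPS hPTS hMTS hCOV ck5 (by norm_num)) (cov_leaf hEAB hAFF hVPS hPTS hMTS hCOV ck6 (by norm_num)))))) (cov_b 262144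 (cov_leaf hEAB hAFF hVPS hPTS hMTS hCOV ck7 (by norm_num)) (cov_s 64 (cov_leaf hEAB hAFF hVPS hPTS hMTS hCOV ck8 (by norm_num)) (cov_leaf hEAB hAFF hVPS hPTS hMTS hCOV ck9 (by norm_num))))) (cov_d 1817531 (cov_b 262144 (cov_leaf hEAB hAFF hVPS hPTS hMTS hCOV ck10 (by norm_num)) (cov_s 192 (cov_b 305835 (cov_leaf hEAB hAFF hVPS hPTS hMTS hCOV ck11 (by norm_num)) (cov_d 1782578 (cov_s 160 (cov_leaf hEAB hAFF hVPS hPTS hMTS hCOV ck12 (by norm_num)) (cov_leaf hEAB hAFF hVPS hPTS hMTS hCOV ck13 (by norm_num))) (cov_leaf hEAB hAFF hVPS hPTS hMTS hCOV ck14 (by norm_num)))) (cov_b 305835 (cov_leaf hEAB hAFF hVPS hPTS hMTS hCOV ck15 (by norm_num)) (cov_leaf hEAB hAFF hVPS hPTS hMTS hCOV ck16 (by norm_num))))) (cov_b 262144 (cov_leaf hEAB hAFF hVPS hPTS hMTS hCOV ck17 (by norm_num)) (cov_s 192 (cov_leaf hEAB hAFF hVPS hPTS hMTS hCOV ck18 (by norm_num)) (cov_leaf hEAB hAFF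 hVPS hPTS hMTS hCOV ck19 (by norm_num))))))) (cov_b 174763 (cov_leaf hEAB hAFF hVPS hPTS hMTS hCOV ck20 (by norm_num)) (cov_s 384 (cov_d 1817531 (cov_b 262144 (cov_leaf hEAB hAFF hVPS hPTS hMTS hCOV ck21 (by norm_num)) (cov_s 320 (cov_b 305835 (cov_leaf hEAB hAFF hVPS hPTS hMTS hCOV ck22 (by norm_num)) (cov_leaf hEAB hAFF hVPS hPTS hMTS hCOV ck23 (by norm_num))) (cov_leaf hEAB hAFF hVPS hPTS hMTS hCOV ck24 (by norm_num)))) (cov_b 262144 (cov_leaf hEAB hAFF hVPS hPTS hMTS hCOV ck25 (by norm_num)) (cov_s 320 (cov_leaf hEAB hAFF hVPS hPTS hMTS hCOV ck26 (by norm_num)) (cov_leaf hEAB hAFF hVPS hPTS hMTS hCOV ck27 (by norm_num))))) (cov_d 1817531 (cov_b 262144 (cov_leaf hEAB hAFF hVPS hPTS hMTS hCOV ck28 (by norm_num)) (cov_s 448 (cov_leaf hEAB hAFF hVPS hPTS hMTS hCOV ck29 (by norm_num)) (cov_leaf hEAB hAFF hVPS hPTS hMTS hCOV ck30 (by norm_num)))) (cov_leaf hEAB hAFF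 hVPS hPTS hMTS hCOV ck31 (by norm_num)))))) (cov_s 768 (cov_b 174763 (cov_leaf hEAB hAFF hVPS hPTS hMTS hCOV ck32 (by norm_num)) (cov_s 640 (cov_d 1817531 (cov_b 262144 (cov_leaf hEAB hAFF hVPS hPTS hMTS hCOV ck33 (by norm_num)) (cov_s 576 (cov_leaf hEAB hAFF hVPS hPTS hMTS hCOV ck34 (by norm_num)) (cov_leaf hEAB hAFF hVPS hPTS hMTS hCOV ck35 (by norm_num)))) (cov_leaf hEAB hAFF hVPS hPTS hMTS hCOV ck36 (by norm_num))) (cov_leaf hEAB hAFF hVPS hPTS hMTS hCOV ck37 (by norm_num)))) (cov_b 174763 (cov_leaf hEAB hAFF hVPS hPTS hMTS hCOV ck38 (by norm_num)) (cov_s 896 (cov_d 1817531 (cov_b 262144 (cov_leaf hEAB hAFF hVPS hPTS hMTS hCOV ck39 (by norm_num)) (cov_leaf hEAB hAFF hVPS hPTS hMTS hCOV ck40 (by norm_num))) (cov_leaf hEAB hAFF hVPS hPTS hMTS hCOV ck41 (by norm_num))) (cov_leaf hEAB hAFF hVPS hPTS hMTS hCOV ck42 (by norm_num)))))) (cov_leaf hEAB hAFF hVPS hPTS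 hMTS hCOV ck43 (by norm_num))) (cov_leaf hEAB hAFF hVPS hPTS hMTS hCOV ck44 (by norm_num)))

end Pool.Agent.Lib.MP250511.GEOM
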