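import Pool.Agent.Lib.MP_250511_an.Geo.Spec

/-!
Problem MP_250511_an, module BND: the points of `E` have modulus `< 9/5`.
-/

set_option autoImplicit false

namespace Pool.Agent.Lib.MP250511.GEOM

open Complex

namespace BNDM

theorem log_lt : Real.log (20 / 9) < 87 / 100 := by
  rw [Real.log_lt_iff_lt_exp (by norm_num)]
  have h1 : Real.exp (87 / 100) = Real.exp (87 / 800) ^ 8 := by
    rw [← Real.exp_nat_mul]; norm_num
  have h2 : (87 / 800 : ℝ) + 1 ≤ Real.exp (87 / 800) := Real.add_one_le_exp _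
  rw [h1]
  calc (20 / 9 : ℝ) < (87 / 800 + 1) ^ 8 := by norm_num
    _ ≤ _ := pow_le_pow_left₀ (by norm_num) h2 8

end BNDM

open BNDM in
theorem specBND : SpecBND := by
  intro β v h0 h1 hv hpair
  by_contra hcon
  rw [not_lt] at hcon
  set x := ‖v‖ with hx
  have hx0 : 0 < x := norm_pos_iff.2 hv
  set L := Real.log (4 / x) with hL
  -- `L ≥ 0`
  have hL0 : 0 ≤ L := by
    have h2 := hpair.2
    rw [sub_zero] at h2
    have h3 : 0 ≤ ‖(v + 0) / 2‖ ^ 2 +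
        ‖((v + 0) / 2) ^ 2 + v ^ 2 / 8 - 2 * β‖ ^ 2 / 2 := by positivity
    have h4 := h3.trans h2
    linarith
  have hL1 : L ≤ 87 / 100 := by
    refine le_trans ?_ log_lt.le
    apply Real.log_le_log (by positivity)
    rw [div_le_div_iff₀ hx0 (by norm_num)]
    linarith
  -- the unit vector
  have hu : ‖(starRingEnd ℂ) v / x‖ = 1 := by
    rw [norm_div, Complex.norm_real, RCLike.norm_conj, Real.norm_eq_abs, abs_of_pos hx0, hx]
    exact div_self (by rw [← hx]; exact hx0.ne')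
  have h2 := hpair.1 _ hu
  rw [sub_zero, add_zero] at h2
  have h3 : (starRingEnd ℂ) v * v = ((x ^ 2 : ℝ) : ℂ) := by
    rw [mul_comm, Complex.mul_conj, Complex.normSq_eq_norm_sq]
  have hxc : (x : ℂ) ≠ 0 := by exact_mod_cast hx0.ne'
  have h4 : (starRingEnd ℂ) v / x * (v / 2) = ((x / 2 : ℝ) : ℂ) := by
    have : (starRingEnd ℂ) v / x * (v / 2) = ((starRingEnd ℂ) v * v) / (2 * x) := by
      field_simp
    rw [this, h3]
    push_cast
    field_simp
  have h5 : ((starRingEnd ℂ) v / x) ^ 2 * ((β : ℂ) - v ^ 2 / 8) =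
      (β : ℂ) * ((starRingEnd ℂ) v / x) ^ 2 - ((x ^ 2 / 8 : ℝ) : ℂ) := by
    have : ((starRingEnd ℂ) v / x) ^ 2 * v ^ 2 = ((starRingEnd ℂ) v * v) ^ 2 / x ^ 2 := by
      field_simp
    have h6 : ((starRingEnd ℂ) v / x) ^ 2 * ((β : ℂ) - v ^ 2 / 8) =
        (β : ℂ) * ((starRingEnd ℂ) v / x) ^ 2 - (((starRingEnd ℂ) v / x) ^ 2 * v ^ 2) / 8 := by
      ring
    rw [h6, this, h3]
    push_cast
    field_simp
  rw [h4, h5, Complex.ofReal_re, Complex.sub_re, Complex.ofReal_re, Complex.re_ofReal_mul] at h2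
  have h6 : (((starRingEnd ℂ) v / x) ^ 2).re ≤ 1 := by
    calc (((starRingEnd ℂ) v / x) ^ 2).re ≤ |(((starRingEnd ℂ) v / x) ^ 2).re| := le_abs_self _
      _ ≤ ‖((starRingEnd ℂ) v / x) ^ 2‖ := Complex.abs_re_le_norm _
      _ = 1 := by rw [norm_pow, hu, one_pow]
  have h7 : (x / 2) ^ 2 ≤ (4 / 3 - x ^ 2 / 8) * L := by
    refine h2.trans (mul_le_mul_of_nonneg_right ?_ hL0)
    nlinarith
  have h8 : (81 / 25 : ℝ) ≤ x ^ 2 := by nlinarith
  by_cases h9 : 0 ≤ 4 / 3 - x ^ 2 / 8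
  · have h10 : (4 / 3 - x ^ 2 / 8) * L ≤ (4 / 3 - x ^ 2 / 8) * (87 / 100) :=
      mul_le_mul_of_nonneg_left hL1 h9
    nlinarith
  · rw [not_le] at h9
    have h10 : (4 / 3 - x ^ 2 / 8) * L ≤ 0 := mul_nonpos_of_nonpos_of_nonneg h9.le hL0
    nlinarith

end Pool.Agent.Lib.MP250511.GEOM
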