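import Pool.Agent.Lib.MP_250511_an.Geo.Core

/-!
Problem MP_250511_an: certificate data, part 20.
-/

set_option autoImplicit false
set_option maxRecDepth 1000000

namespace Pool.Agent.Lib.MP250511.GEOM

theorem ck28 : (chkTop tab 60 1747626 1817531 174763 262144 384 512
  [0x261bb4a002b5ad4a0002030904002111f8400044a5f08004666f080057ec72c00016db48b00000c85cc5800e55f458001fac00b00213bfcb0028fb5020000ad6b5080002b5ad42209000052eb508800d85e61000e4df41000eddfa10000016bd1610017d470100010082c2001068dc20002273084002d16726000018ab8d3001c4be530004417f160049f79960056b5a8400002e79bc2002fe87c200020d1a8440248040095ef10800147daa10015ad6a1001acddf8515ba1705ca005b94204005f7198400040e24080045263080052eb508000030d70a60037d7ba6000886fe2c0093ef32c00ad6b508000056b5a84005d93104000bfa240800082c66100092506100002975a84002cd6604000662ea0800726fa08007b2ff0800004237f840046b7d0400099aeb080014cd9a10015ad6a1001ab3808062260f488a000b72840800bee330800081c4810008a4c61000a5d6a10000061ae14c006faf74c00114dfa58012bde258015ad6a100000ad6b50800bb262080017f44810001058cc200124a0c2000052eb5080059acc08000cc5d41000e4df41000f65fe100000846ff08008d6fa08001335d61000299b342002b5ad420035670100c44c1e9116477baff3008cdf9c00c00209c00a0000886fe28008faf82800d6ca4c4402904e22d]).isSome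 = true := by
  decide +kernel

end Pool.Agent.Lib.MP250511.GEOM
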