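import Pool.Agent.Lib.MP_250511_an.Geo.Core

/-!
Problem MP_250511_an: certificate data, part 9.
-/

set_option autoImplicit false
set_option maxRecDepth 1000000

namespace Pool.Agent.Lib.MP250511.GEOM

theorem ck13 : (chkTop tab 60 1747626 1782578 305835 349526 160 192
  [7,
  0x2e39d82002fc8ac20002051104002212d04002433f0400240008143a10008a4c81000031571a60036d7aa6003af7ea60000f8e009800c75ca50001a7bc0a0003977d94003eb80140000220bf8a002e69c420005e32b04000bfa1d080008246010008fcf6100002af6016480480d66efbd1f490a2b75001a7bc0b00038f7d16003d37f96000105e00580112dfa5801195f65ab13c5c4a00152d8890001018442001068e020003897c94003c37f1400001fcc00a0021cbf8a0003ad7e26003f180260001165f8990090002172504090004837c16004c17696000a26d82c06cd59e3cf8a81e4ca80000aaebf0800ad6b5080015ad6a100000baa680800bfa2108120124024900020510840022d34040000c6dca9800e4df49800231becb00260bb4b0027cb80b000016fcfa1001784b410002fe884200020915840023b3b040000a5d6a1000e05f050001d9bf4a88df2c00c04820024101abb1c7b95320b498a045108600643f0c5fe6084624bf4c01ef8f6f93000ad6b50800d6003c2ad3d05501d,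
  0x289b60a002fd8a420002051104002212d04002433e84002400081438100089cc41000031171260036b7aa60039d7da6003b77ea6003c77f26000d2b21731800319721400069af028000e6df65000fde00500000b7a800800b9e6e08001794a810002fe874200020917840023d3c040000abd805920120359bbef47d2428add400bd24e089000052eb508006b2f24c00732fb4c0701a1bb8c001aebc8a0003a97e14003f580140000225bf4a00262bb4a002f493420000bee310800c020b080001048bc24954bad4c000059ecd2c00636e52c80480d8933b9d18709862d0019ebb4b00034977960006bef32c0001c8be8b001eabfcb000083b002c008a2fd2c008d6fa2c00a7ec908000056b5a84400005d53384412012480000b96730800bf62a0800081442100087cae10008fcf410000052eb50800632e44c000d15dc98001c2be13001e4bf930000852ff2c008dafa2c00125dea580128de65801595701000056b5a84000ad6b50800005d73384005fd100400040e2a080046a7108024120120c2b0edfca08222abf54000094af34800ad6b50800d59a4c14a7b058e45002e69c42002fd8a8200020510040022d33840000a5d6a1000ce5d898001bbbd93001dcbf93000087afe2c00902f82c001305da580161d4c10015ad6a10002b5ad42000002ea9a02002fe880200020715040023739040000a5d6a13d2df5ee60829d7bf4c2402400482400d58f03efdcd05a4c50005cd3884005fb148400040a21080045a670800014bad420019cbb130003777ba6003bb7f260001165f8580126de85800279b88b0000baa680800bfa210800081c5410008dce4100002975a840037f7c1400076afd2a067d3003012002412006ac371f8a6582a326c230bdfe6080a23bf8c01e18f2f93000ad6b50800d63d24355ef03fe95]).isSome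 = true := by
  decide +kernel

end Pool.Agent.Lib.MP250511.GEOM
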