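import Pool.Agent.Lib.MP_250511_an.Geo.Spec

/-!
Problem MP_250511_an: soundness of the recursive checkers.
-/

set_option autoImplicit false

namespace Pool.Agent.Lib.MP250511.GEOM

open Complex

noncomputable section

/-- the situation: `E`, `β` and integer bounds -/
structure Env (E : Set ℂ) (β : ℝ) (be0 be1 d1 : Int) : Prop where
  zero : (0 : ℂ) ∈ E
  pair : ∀ v ∈ E, ∀ w ∈ E, v ≠ w → PairOK β v w
  hits : Hits E (5 / 3)
  md : ∀ v ∈ E, 1048576 * ‖v‖ ≤ d1
  lt : ∀ v ∈ E, ‖v‖ < 2
  b0 : (be0 : ℝ) ≤ 1048576 * β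
  b1 : 1048576 * β ≤ be1
  bb : |β| ≤ 1 / 2

/-- the point of the circle -/
def cp (ar ai bn : Int) (k : ℕ) (s : ℝ) : ℂ :=
  ⟨(ar : ℝ) / 1048576, (ai : ℝ) / 1048576⟩ + ((bn : ℝ) / 1048576 : ℝ) * (I ^ k * ee s)

theorem toPB_sound {w : AB} {W : ℂ} (h : InAB w W) : InPB (toPB w) W := by
  obtain ⟨c, hc, h1, h2⟩ := h
  refine ⟨c, 0, hc, by simp, ?_, ?_⟩
  · simpa [toPB] using h1
  · simpa [toPB] using h2

theorem zAB_sound : InAB zAB 0 := by
  refine ⟨0, by simp, ?_, ?_⟩ <;> simp [zAB]

theorem arc_sound (hEAB : SpecEAB) (hAFF : SpecAFF) {ar ai bn : Int} {k : ℕ} {s0 s1 : Int} {s : ℝ}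
    (hbn : 0 ≤ bn) (hk : k < 4) (h1 : -4096 ≤ s0) (h2 : s0 ≤ s1) (h3 : s1 ≤ 4096)
    (h4 : (s0 : ℝ) ≤ 4096 * s) (h5 : 4096 * s ≤ s1) :
    InAB (arcAB ar ai bn k s0 s1) (cp ar ai bn k s) := by
  have e1 := hEAB s0 s1 h2 h1 h3 s h4 h5
  have e2 := (hAFF _ _ e1).1 k hk
  exact (hAFF _ _ e2).2 ar ai bn hbn

theorem cok_sound {E : Set ℂ} {ar ai bn : Int} (h : cok ar ai bn = true) (hits : Hits E (5 / 3)) :
    0 < bn ∧ ∃ e : ℂ, ‖e‖ = 1 ∧
      (⟨(ar : ℝ) / 1048576, (ai : ℝ) / 1048576⟩ + ((bn : ℝ) / 1048576 : ℝ) * e : ℂ) ∈ E := by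
  rw [cok, Bool.and_eq_true, Bool.and_eq_true, decide_eq_true_iff, decide_eq_true_iff,
    decide_eq_true_iff] at h
  obtain ⟨⟨h1, h2⟩, h3⟩ := h
  have h3 : 3 * (bn * bn - ar * ar - ai * ai) ≤ 5 * 1048576 * bn := h3
  have h1' : (0 : ℝ) < bn := by exact_mod_cast h1
  have h2' : (ar : ℝ) * ar + ai * ai < bn * bn := by exact_mod_cast h2
  have h3' : (3 : ℝ) * (bn * bn - ar * ar - ai * ai) ≤ 5 * 1048576 * bn := by exact_mod_cast h3
  set a : ℂ := ⟨(ar : ℝ) / 1048576, (ai : ℝ) / 1048576⟩ with ha
  set r : ℝ := (bn : ℝ) / 1048576 with hr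
  have hr0 : 0 < r := by positivity
  have hna : ‖a‖ ^ 2 = ((ar : ℝ) * ar + ai * ai) / 1048576 ^ 2 := by
    rw [Complex.sq_norm, Complex.normSq_apply, ha]
    field_simp
  have hlt : ‖a‖ < r := by
    apply lt_of_pow_lt_pow_left₀ 2 hr0.le
    rw [hna, hr, div_pow]
    apply div_lt_div_of_pos_right _ (by positivity)
    nlinarith
  have hle : r ^ 2 - ‖a‖ ^ 2 ≤ 5 / 3 * r := by
    rw [hna, hr]
    field_simp
    nlinarith
  obtain ⟨v, hv, hvr⟩ := hits a r hlt hle
  refine ⟨h1, (v - a) / r, ?_, ?_⟩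
  · rw [norm_div, hvr, Complex.norm_real, Real.norm_of_nonneg hr0.le, div_self hr0.ne']
  · have hrc : (r : ℂ) ≠ 0 := by exact_mod_cast hr0.ne'
    rw [mul_div_cancel₀ _ hrc]
    simpa using hv

theorem mid_le {s0 s1 : Int} (h : s0 ≤ s1) : s0 ≤ (s0 + s1) / 2 ∧ (s0 + s1) / 2 ≤ s1 := by
  constructor <;> omega

section

variable (hEAB : SpecEAB) (hAFF : SpecAFF) (hVPS : SpecVPS) (hPTS : SpecPTS) (hMTS : SpecMTS)
  (hCOV : SpecCOV)
include hEAB hAFF hPTS hMTS hCOV

theorem chkArc_sound {E : Set ℂ} {β : ℝ} {be0 be1 d1 : Int} (H : Env E β be0 be1 d1) :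
    ∀ (f : ℕ) (pts : List PB) (ar ai bn : Int) (k : ℕ) (s0 s1 : Int) (st st' : ℕ),
      chkArc tab be0 be1 d1 f pts ar ai bn k s0 s1 st = some st' →
      (∀ P ∈ pts, ∃ v ∈ E, InPB P v) → 0 ≤ bn → k < 4 → -4096 ≤ s0 → s0 ≤ s1 → s1 ≤ 4096 →
      ∀ s : ℝ, (s0 : ℝ) ≤ 4096 * s → 4096 * s ≤ s1 → cp ar ai bn k s ∈ E → False := by
  have hd1 : 0 ≤ d1 := by
    have := H.md 0 H.zero
    simp only [norm_zero, mul_zero] at this
    exact_mod_cast this
  intro f
  induction f with
  | zero =>
    intro pts ar ai bn k s0 s1 st st' h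
    simp [chkArc] at h
  | succ f ih =>
    intro pts ar ai bn k s0 s1 st st' h hp hbn hk h1 h2 h3 s h4 h5 hE
    have hA := arc_sound hEAB hAFF (ar := ar) (ai := ai) hbn hk h1 h2 h3 h4 h5
    have hm := mid_le h2
    rw [chkArc] at h
    dsimp only at h
    split_ifs at h with c0 c1 c2 c5 c6 c7
    · -- split
      split at h
      · exact absurd h (by simp)
      · rename_i st1 hst1
        rcases le_total (4096 * s) (((s0 + s1) / 2 : Int) : ℝ) with hs | hs
        · exact ih _ _ _ _ _ _ _ _ _ hst1 hp hbn hk h1 hm.1 (hm.2.trans h3) s h4 hs hE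
        · exact ih _ _ _ _ _ _ _ _ _ h hp hbn hk (h1.trans hm.1) hm.2 h3 s hs h5 hE
    · -- modulus
      have := hMTS _ _ hd1 c2 _ hA
      exact absurd (H.md _ hE) (not_le.2 this)
    · -- child
      obtain ⟨hb, e, he, heE⟩ := cok_sound c6 H.hits
      obtain ⟨k', hk', s', hs1, hs2, hs3⟩ := (hCOV e he).1
      have hp' : ∀ P ∈ toPB (arcAB ar ai bn k s0 s1) :: pts, ∃ v ∈ E, InPB P v := by
        intro P hP
        rcases List.mem_cons.1 hP with rfl | hP
        · exact ⟨_, hE, toPB_sound hA⟩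
        · exact hp P hP
      rw [hs3] at heE
      split at h
      · exact absurd h (by simp)
      · rename_i st1 hst1
        split at h
        · exact absurd h (by simp)
        · rename_i st2 hst2
          split at h
          · exact absurd h (by simp)
          · rename_i st3 hst3
            interval_cases k'
            · exact ih _ _ _ _ _ _ _ _ _ hst1 hp' hb.le (by norm_num) (by norm_num) (by norm_num)
                (by norm_num) s' (by push_cast; linarith) (by push_cast; linarith) heE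
            · exact ih _ _ _ _ _ _ _ _ _ hst2 hp' hb.le (by norm_num) (by norm_num) (by norm_num)
                (by norm_num) s' (by push_cast; linarith) (by push_cast; linarith) heE
            · exact ih _ _ _ _ _ _ _ _ _ hst3 hp' hb.le (by norm_num) (by norm_num) (by norm_num)
                (by norm_num) s' (by push_cast; linarith) (by push_cast; linarith) heE
            · exact ih _ _ _ _ _ _ _ _ _ h hp' hb.le (by norm_num) (by norm_num) (by norm_num)
                (by norm_num) s' (by push_cast; linarith) (by push_cast; linarith) heE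
    · -- pair tests
      split at h
      · refine hPTS _ _ _ _ _ _ _ _ ?_ c7 β H.b0 H.b1 H.bb _ 0 (toPB_sound hA) zAB_sound
          (H.lt _ hE) (by simp) (fun hne => H.pair _ hE _ H.zero hne)
        positivity
      · rename_i j _
        split at h
        · exact absurd h (by simp)
        · rename_i v hv
          split_ifs at h with c8
          obtain ⟨V, hVE, hV⟩ := hp v (List.mem_of_getElem? hv)
          refine hPTS _ _ _ _ _ _ _ _ ?_ c8 β H.b0 H.b1 H.bb V _ hV hA
            (H.lt _ hVE) (H.lt _ hE) (fun hne => H.pair _ hVE _ hE hne)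
          positivity
    · split at h
      · exact absurd h (by simp)
      · rename_i j _
        split at h
        · exact absurd h (by simp)
        · rename_i v hv
          split_ifs at h with c8
          obtain ⟨V, hVE, hV⟩ := hp v (List.mem_of_getElem? hv)
          refine hPTS _ _ _ _ _ _ _ _ ?_ c8 β H.b0 H.b1 H.bb V _ hV hA
            (H.lt _ hVE) (H.lt _ hE) (fun hne => H.pair _ hVE _ hE hne)
          positivity

include hVPS

theorem chkTop_sound {E : Set ℂ} {β : ℝ} :
    ∀ (f : ℕ) (d0 d1 be0 be1 s0 s1 : Int) (l l' : List ℕ),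
      chkTop tab f d0 d1 be0 be1 s0 s1 l = some l' →
      (0 : ℂ) ∈ E → (∀ v ∈ E, ∀ w ∈ E, v ≠ w → PairOK β v w) → Hits E (5 / 3) →
      (∀ v ∈ E, ‖v‖ < 2) → |β| ≤ 1 / 2 → (be0 : ℝ) ≤ 1048576 * β → 1048576 * β ≤ be1 →
      be0 ≤ be1 → d0 ≤ d1 → -4096 ≤ s0 → s0 ≤ s1 → s1 ≤ 4096 →
      ∀ d s : ℝ, (d0 : ℝ) ≤ 1048576 * d → 1048576 * d ≤ d1 → (s0 : ℝ) ≤ 4096 * s →
        4096 * s ≤ s1 → (d : ℂ) * ee s ∈ E → (∀ v ∈ E, ‖v‖ ≤ d) → False := by
  intro f
  induction f with
  | zero =>
    intro d0 d1 be0 be1 s0 s1 l l' h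
    simp [chkTop] at h
  | succ f ih =>
    intro d0 d1 be0 be1 s0 s1 l l' h hz hpair hhits hlt hbb hb0 hb1 hbe hd h1 h2 h3 d s hd0 hd1 h4 h5
      hE hmax
    have hV := hVPS d0 d1 s0 s1 hd h2 h1 h3 d s hd0 hd1 h4 h5
    have hm := mid_le h2
    have hmd := mid_le hd
    have hmb := mid_le hbe
    cases l with
    | nil => simp [chkTop] at h
    | cons st l =>
      rw [chkTop] at h
      dsimp only at h
      split_ifs at h with c0 c1 c2 c3 c4 c5
      · split at h
        · exact absurd h (by simp)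
        · rename_i l1 hl1
          rcases le_total (4096 * s) (((s0 + s1) / 2 : Int) : ℝ) with hs | hs
          · exact ih _ _ _ _ _ _ _ _ hl1 hz hpair hhits hlt hbb hb0 hb1 hbe hd h1 hm.1
              (hm.2.trans h3) d s hd0 hd1 h4 hs hE hmax
          · exact ih _ _ _ _ _ _ _ _ h hz hpair hhits hlt hbb hb0 hb1 hbe hd (h1.trans hm.1) hm.2
              h3 d s hd0 hd1 hs h5 hE hmax
      · split at h
        · exact absurd h (by simp)
        · rename_i l1 hl1
          rcases le_total (1048576 * d) (((d0 + d1) / 2 : Int) : ℝ) with hs | hs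
          · exact ih _ _ _ _ _ _ _ _ hl1 hz hpair hhits hlt hbb hb0 hb1 hbe hmd.1 h1 h2
              h3 d s hd0 hs h4 h5 hE hmax
          · exact ih _ _ _ _ _ _ _ _ h hz hpair hhits hlt hbb hb0 hb1 hbe hmd.2 h1 h2
              h3 d s hs hd1 h4 h5 hE hmax
      · split at h
        · exact absurd h (by simp)
        · rename_i l1 hl1
          rcases le_total (1048576 * β) (((be0 + be1) / 2 : Int) : ℝ) with hs | hs
          · exact ih _ _ _ _ _ _ _ _ hl1 hz hpair hhits hlt hbb hb0 hs hmb.1 hd h1 h2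
              h3 d s hd0 hd1 h4 h5 hE hmax
          · exact ih _ _ _ _ _ _ _ _ h hz hpair hhits hlt hbb hs hb1 hmb.2 hd h1 h2
              h3 d s hd0 hd1 h4 h5 hE hmax
      · -- node
        have H : Env E β be0 be1 d1 := ⟨hz, hpair, hhits, fun v hv => by
          have := hmax v hv
          linarith, hlt, hb0, hb1, hbb⟩
        obtain ⟨hb, e, he, heE⟩ := cok_sound c4 hhits
        obtain ⟨k', hk', s', hs1, hs2, hs3⟩ := (hCOV e he).1
        have hp' : ∀ P ∈ [vPB d0 d1 s0 s1], ∃ v ∈ E, InPB P v := by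
          intro P hP
          rw [List.mem_singleton] at hP
          subst hP
          exact ⟨_, hE, hV⟩
        have key := chkArc_sound hEAB hAFF hPTS hMTS hCOV H
        rw [hs3] at heE
        split at h
        · exact absurd h (by simp)
        · rename_i st1 hst1
          split at h
          · exact absurd h (by simp)
          · rename_i st2 hst2
            split at h
            · exact absurd h (by simp)
            · rename_i st3 hst3
              split at h
              · exact absurd h (by simp)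
              · rename_i st4 hst4
                interval_cases k'
                · exact key _ _ _ _ _ _ _ _ _ _ hst1 hp' hb.le (by norm_num) (by norm_num)
                    (by norm_num) (by norm_num) s' (by push_cast; linarith)
                    (by push_cast; linarith) heE
                · exact key _ _ _ _ _ _ _ _ _ _ hst2 hp' hb.le (by norm_num) (by norm_num)
                    (by norm_num) (by norm_num) s' (by push_cast; linarith)
                    (by push_cast; linarith) heE
                · exact key _ _ _ _ _ _ _ _ _ _ hst3 hp' hb.le (by norm_num) (by norm_num)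
                    (by norm_num) (by norm_num) s' (by push_cast; linarith)
                    (by push_cast; linarith) heE
                · exact key _ _ _ _ _ _ _ _ _ _ hst4 hp' hb.le (by norm_num) (by norm_num)
                    (by norm_num) (by norm_num) s' (by push_cast; linarith)
                    (by push_cast; linarith) heE
      · -- single test
        refine hPTS _ _ _ _ _ _ _ _ ?_ c5 β hb0 hb1 hbb _ 0 hV zAB_sound
          (hlt _ hE) (by simp) (fun hne => hpair _ hE _ hz hne)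
        positivity

end

end

end Pool.Agent.Lib.MP250511.GEOM
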