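import Pool.Agent.Lib.MP_250511_an.Geo.Spec

/-!
Module COV (helper23).
-/

set_option autoImplicit false

namespace Pool.Agent.Lib.MP250511.GEOM

open Complex

namespace COVM

/-- a unit vector with `0 < 1 + re` is `ee s`, `s = im / (1 + re)`. -/
lemma eq_ee (e : ℂ) (he : e.re ^ 2 + e.im ^ 2 = 1) (hr : 0 < 1 + e.re) :
    e = ee (e.im / (1 + e.re)) := by
  have h0 : (1 + e.re) ≠ 0 := hr.ne'
  have h1 : 1 + (e.im / (1 + e.re)) ^ 2 = 2 / (1 + e.re) := by
    rw [div_pow]
    field_simp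
    nlinarith
  have h2 : 1 - (e.im / (1 + e.re)) ^ 2 = 2 * e.re / (1 + e.re) := by
    rw [div_pow]
    field_simp
    nlinarith
  apply Complex.ext
  · show e.re = (1 - (e.im / (1 + e.re)) ^ 2) / (1 + (e.im / (1 + e.re)) ^ 2)
    rw [h1, h2]
    field_simp
  · show e.im = 2 * (e.im / (1 + e.re)) / (1 + (e.im / (1 + e.re)) ^ 2)
    rw [h1]
    field_simp

/-- right quarter -/
lemma quarter (e : ℂ) (he : e.re ^ 2 + e.im ^ 2 = 1) (hr : |e.im| ≤ e.re) :
    ∃ s : ℝ, (-1707 : ℝ) ≤ 4096 * s ∧ 4096 * s ≤ 1707 ∧ e = ee s := by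
  have h0 : 0 ≤ e.re := (abs_nonneg _).trans hr
  have h1 : 0 < 1 + e.re := by linarith
  refine ⟨e.im / (1 + e.re), ?_, ?_, eq_ee e he h1⟩
  · have h2 := (abs_le.1 hr).1
    rw [← mul_div_assoc, le_div_iff₀ h1]
    by_contra h3
    push Not at h3
    nlinarith
  · have h2 := (abs_le.1 hr).2
    rw [← mul_div_assoc, div_le_iff₀ h1]
    by_contra h3
    push Not at h3
    nlinarith

end COVM

open COVM in
theorem specCOV : SpecCOV := by
  intro e he
  have h1 : e.re ^ 2 + e.im ^ 2 = 1 := by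
    have h2 := Complex.sq_norm e
    rw [he, Complex.normSq_apply] at h2
    nlinarith
  refine ⟨?_, ?_⟩
  · rcases le_total |e.im| |e.re| with h2 | h2
    · rcases le_total 0 e.re with h3 | h3
      · rw [abs_of_nonneg h3] at h2
        obtain ⟨s, hs⟩ := quarter e h1 h2
        exact ⟨0, by norm_num, s, hs.1, hs.2.1, by rw [pow_zero, one_mul]; exact hs.2.2⟩
      · rw [abs_of_nonpos h3] at h2
        obtain ⟨s, hs⟩ := quarter (-e) (by simpa using h1) (by simpa using h2)
        refine ⟨2, by norm_num, s, hs.1, hs.2.1, ?_⟩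
        rw [← hs.2.2, I_sq]
        ring
    · rcases le_total 0 e.im with h3 | h3
      · rw [abs_of_nonneg h3] at h2
        obtain ⟨s, hs⟩ := quarter (-I * e) (by simp; linarith) (by simpa using h2)
        refine ⟨1, by norm_num, s, hs.1, hs.2.1, ?_⟩
        rw [← hs.2.2, pow_one, ← mul_assoc, mul_neg, I_mul_I]
        ring
      · rw [abs_of_nonpos h3] at h2
        obtain ⟨s, hs⟩ := quarter (I * e) (by simp; linarith) (by simpa using h2)
        refine ⟨3, by norm_num, s, hs.1, hs.2.1, ?_⟩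
        rw [← hs.2.2, ← mul_assoc, ← pow_succ, I_pow_four, one_mul]
  · intro h2 h3
    have h4 : 0 < 1 + e.re := by linarith
    refine ⟨e.im / (1 + e.re), div_nonneg h3 h4.le, ?_, eq_ee e h1 h4⟩
    rw [div_le_one h4]
    nlinarith

end Pool.Agent.Lib.MP250511.GEOM
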