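import Mathlib

/-!
Problem MP_250511_an: the certificate checker (definitions).
All numbers are integers in units of `2^-20`.
-/

set_option autoImplicit false

namespace Pool.Agent.Lib.MP250511.GEOM

/-- the unit -/
def NS : Int := 1048576

/-- absolute value -/
def ab (n : Int) : Int := (n.natAbs : Int)

/-- first order forms `c + x δ₁ + y δ₂ + z δ₃ ± r` -/
structure TM where
  c : Int
  x : Int
  y : Int
  z : Int
  r : Int

namespace TM

def R (a : TM) : Int := ab a.x + ab a.y + ab a.z

def lo (a : TM) : Int := a.c - a.R - a.r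

def add (a b : TM) : TM := ⟨a.c + b.c, a.x + b.x, a.y + b.y, a.z + b.z, a.r + b.r⟩

def sub (a b : TM) : TM := ⟨a.c - b.c, a.x - b.x, a.y - b.y, a.z - b.z, a.r + b.r⟩

/-- integer linear combination `(k A + l B) / m` -/
def lin (k : Int) (A : TM) (l : Int) (B : TM) (m : Int) : TM :=
  ⟨(k * A.c + l * B.c) / m, (k * A.x + l * B.x) / m, (k * A.y + l * B.y) / m,
    (k * A.z + l * B.z) / m, (ab k * A.r + ab l * B.r) / m + 5⟩

def mul (a b : TM) : TM :=
  let ra := a.R
  let rb := b.R
  ⟨(a.c * b.c) / NS, (a.c * b.x + a.x * b.c) / NS, (a.c * b.y + a.y * b.c) / NS,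
    (a.c * b.z + a.z * b.c) / NS,
    (ra * rb + (ab a.c + ra) * b.r + (ab b.c + rb) * a.r + a.r * b.r) / NS + 5⟩

def sqr (a : TM) : TM :=
  let ra := a.R
  let h := ra * ra / 2
  ⟨(a.c * a.c + h) / NS, (2 * a.c * a.x) / NS, (2 * a.c * a.y) / NS, (2 * a.c * a.z) / NS,
    (h + 1 + 2 * (ab a.c + ra) * a.r + a.r * a.r) / NS + 5⟩

end TM

/-- a point box: real and imaginary part, two noise symbols -/
structure PB where
  rc : Int
  rx : Int
  ry : Int
  rr : Int
  ic : Int
  ix : Int
  iy : Int
  ir : Int

/-- an arc box: real and imaginary part, one noise symbol -/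
structure AB where
  rc : Int
  rz : Int
  rr : Int
  ic : Int
  iz : Int
  ir : Int

/-- `e(s) = (1 + i s)² / (1 + s²)`, `s` between `s0 / 4096` and `s1 / 4096` -/
def eAB (s0 s1 : Int) : AB :=
  let m := (s0 + s1) / 2
  let g := s1 - m
  let mm := m * m
  let den := 16777216 + mm
  let er := (NS * (16777216 - mm)) / den
  let ei := (NS * (8192 * m)) / den
  let et := (NS * (4096 * g)) / (den - g * ab m) + 1
  let e2 := et * et / NS + 1
  let e3 := e2 * et / NS + 1
  ⟨er - er * e2 / NS, (-2 * ei * et) / NS, (ab er * e2 + 2 * ab ei * e3) / NS + 12,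
    ei - ei * e2 / NS, (2 * er * et) / NS, (ab ei * e2 + 2 * ab er * e3) / NS + 12⟩

/-- multiplication by `i` -/
def rotI (a : AB) : AB := ⟨-a.ic, -a.iz, a.ir, a.rc, a.rz, a.rr⟩

def rotK : Nat → AB → AB
  | 0, a => a
  | 1, a => rotI a
  | 2, a => rotI (rotI a)
  | _, a => rotI (rotI (rotI a))

/-- `a + b e` -/
def affAB (ar ai bn : Int) (e : AB) : AB :=
  ⟨ar + bn * e.rc / NS, bn * e.rz / NS, bn * e.rr / NS + 3,
    ai + bn * e.ic / NS, bn * e.iz / NS, bn * e.ir / NS + 3⟩

def arcAB (ar ai bn : Int) (k : Nat) (s0 s1 : Int) : AB := affAB ar ai bn (rotK k (eAB s0 s1))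

/-- arc box as point box (the noise symbol becomes the first one) -/
def toPB (a : AB) : PB := ⟨a.rc, a.rz, 0, a.rr, a.ic, a.iz, 0, a.ir⟩

/-- `v = d e(s)`, `d0 ≤ d ≤ d1` -/
def vPB (d0 d1 s0 s1 : Int) : PB :=
  let dm := (d0 + d1) / 2
  let dh := d1 - dm
  let e := eAB s0 s1
  let re := TM.mul ⟨dm, dh, 0, 0, 0⟩ ⟨e.rc, 0, e.rz, 0, e.rr⟩
  let im := TM.mul ⟨dm, dh, 0, 0, 0⟩ ⟨e.ic, 0, e.iz, 0, e.ir⟩
  ⟨re.c, re.x, re.y, re.r, im.c, im.x, im.y, im.r⟩

/-- table of upper bounds of `(log (256 / k) - 1) / 2` -/
def tab : List (List Int) :=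
  [[0, 2382984, 2019576, 1806995, 1656167, 1539176, 1443587, 1362767, 1292758, 1231006, 1175767, 1125797, 1080178, 1038212, 999358, 963186],
   [929349, 897565, 867597, 839250, 812358, 786778, 762388, 739083, 716769, 695367, 674804, 655017, 635950, 617552, 599778, 582586],
   [565941, 549808, 534156, 518958, 504189, 489824, 475842, 462223, 448949, 436003, 423369, 411032, 398979, 387197, 375674, 364398],
   [353360, 342550, 331958, 321575, 311395, 301408, 291608, 281988, 272541, 263261, 254143, 245181, 236369, 227703, 219177, 210789],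
   [202532, 194403, 186399, 178515, 170747, 163093, 155549, 148113, 140780, 133548, 126415, 119377, 112433, 105579, 98814, 92135],
   [85541, 79028, 72594, 66239, 59960, 53756, 47624, 41562, 35571, 29646, 23788, 17995, 12265, 6597, 990, -4559],
   [-10048, -15482, -20859, -26182, -31451, -36668, -41833, -46948, -52014, -57031, -62001, -66924, -71801, -76633, -81421, -86166],
   [-90868, -95528, -100148, -104726, -109266, -113766, -118228, -122653, -127040, -131391, -135706, -139986, -144231, -148442, -152620, -156765],
   [-160877, -164957, -169005, -173023, -177010, -180967, -184894, -188792, -192662, -196502, -200315, -204101, -207859, -211591, -215296, -218975],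
   [-222629, -226257, -229861, -233439, -236994, -240525, -244031, -247515, -250976, -254414, -257829, -261223, -264594, -267945, -271273, -274581],
   [-277868, -281135, -284381, -287608, -290814, -294001, -297169, -300318, -303448, -306560, -309653, -312728, -315785, -318824, -321846, -324851],
   [-327838, -330809, -333762, -336700, -339620, -342525, -345414, -348287, -351144, -353985, -356812, -359623, -362419, -365201, -367967, -370719],
   [-373457, -376181, -378890, -381586, -384268, -386936, -389590, -392232, -394860, -397475, -400077, -402666, -405242, -407806, -410357, -412896],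
   [-415423, -417937, -420440, -422931, -425409, -427877, -430332, -432777, -435209, -437631, -440042, -442441, -444830, -447207, -449574, -451931]]

def lam (t : List (List Int)) (k : Nat) : Int := (t.getD (k / 16) []).getD (k % 16) 0

/-- the pair tests; `ty = 2`: (II), `ty = 3`: (III), else (I) with `kp`.
`ua, ub, kp` in units of `1/256`. -/
def ptest (t : List (List Int)) (be0 be1 : Int) (v : PB) (w : AB) (ty : Nat) (ua ub kp : Int) : Bool :=
  let Pr : TM := ⟨v.rc + w.rc, v.rx, v.ry, w.rz, v.rr + w.rr⟩
  let Pi : TM := ⟨v.ic + w.ic, v.ix, v.iy, w.iz, v.ir + w.ir⟩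
  let Qr : TM := ⟨v.rc - w.rc, v.rx, v.ry, -w.rz, v.rr + w.rr⟩
  let Qi : TM := ⟨v.ic - w.ic, v.ix, v.iy, -w.iz, v.ir + w.ir⟩
  let B := TM.sqr (TM.lin ua Qr (-ub) Qi 256)
  let C := TM.sqr (TM.lin ub Qr ua Qi 256)
  let rho := ua * ua + ub * ub
  let re := ua * ua - ub * ub
  let be := if 0 ≤ re then be1 else be0
  let BC := TM.sub B C
  let M : TM := ⟨128 * rho + be * re / 8192 - BC.c, -BC.x, -BC.y, -BC.z, BC.r + 1⟩
  if ty = 3 then decide (M.c + M.R + M.r < 0)
  else
    let T := TM.add B C
    let k := (T.c + 32768) / 65536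
    let l := lam t k.toNat
    let Lt : TM := ⟨l * T.c / NS + rho * k / 2, l * T.x / NS, l * T.y / NS, l * T.z / NS,
      ab l * T.r / NS + 8⟩
    if 1 ≤ k then
      let A := TM.sqr (TM.lin ua Pr (-ub) Pi 256)
      if ty = 2 then
        decide (0 ≤ TM.lo M) &&
          decide (0 < TM.lo (TM.sub (TM.mul ⟨2 * A.c, 2 * A.x, 2 * A.y, 2 * A.z, 2 * A.r⟩ T)
            (TM.mul Lt M)))
      else
        let A' := TM.sqr (TM.lin ub Pr ua Pi 256)
        let G1 := TM.lin (256 + kp) A (256 - kp) A' 256
        let G2 := TM.lin kp BC 0 BC 512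
        let G : TM := ⟨G1.c + G2.c - kp * be * re / 2097152 - kp * kp * rho / 2048,
          G1.x + G2.x, G1.y + G2.y, G1.z + G2.z, G1.r + G2.r + 3⟩
        decide (0 < TM.lo (TM.sub (TM.mul G T) (TM.lin (8 * rho) Lt 0 Lt 65536)))
    else false

/-- modulus test: `|w| > d1` -/
def mtest (d1 : Int) (w : AB) : Bool :=
  decide (d1 * d1 / NS + 1 < TM.lo (TM.add (TM.sqr ⟨w.rc, 0, 0, w.rz, w.rr⟩)
    (TM.sqr ⟨w.ic, 0, 0, w.iz, w.ir⟩)))

/-- admissible circle, `D = 5 / 3` -/
def cok (ar ai bn : Int) : Bool :=
  decide (0 < bn) && decide (ar * ar + ai * ai < bn * bn) &&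
    decide (3 * (bn * bn - ar * ar - ai * ai) ≤ 5 * NS * bn)

/-- the zero point as arc box -/
def zAB : AB := ⟨0, 0, 0, 0, 0, 0⟩

/-- the recursive checker on arcs of the circle `a + b i^k e(s)`.  It consumes the stream `st`. -/
def chkArc (t : List (List Int)) (be0 be1 d1 : Int) :
    Nat → List PB → Int → Int → Int → Nat → Int → Int → Nat → Option Nat
  | 0, _, _, _, _, _, _, _, _ => none
  | f + 1, pts, ar, ai, bn, k, s0, s1, st =>
    if st % 8 = 0 then
      match chkArc t be0 be1 d1 f pts ar ai bn k s0 ((s0 + s1) / 2) (st / 8) with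
      | none => none
      | some st' => chkArc t be0 be1 d1 f pts ar ai bn k ((s0 + s1) / 2) s1 st'
    else if st % 8 = 1 then
      if mtest d1 (arcAB ar ai bn k s0 s1) then some (st / 8) else none
    else if st % 8 = 5 then
      let ar' : Int := (st / 8 % 4194304 : Nat) - 2097152
      let ai' : Int := (st / 33554432 % 4194304 : Nat) - 2097152
      let bn' : Int := (st / 140737488355328 % 4194304 : Nat)
      if cok ar' ai' bn' then
        let pts' := toPB (arcAB ar ai bn k s0 s1) :: pts
        match chkArc t be0 be1 d1 f pts' ar' ai' bn' 0 (-1707) 1707 (st / 590295810358705651712) with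
        | none => none
        | some st1 =>
          match chkArc t be0 be1 d1 f pts' ar' ai' bn' 1 (-1707) 1707 st1 with
          | none => none
          | some st2 =>
            match chkArc t be0 be1 d1 f pts' ar' ai' bn' 2 (-1707) 1707 st2 with
            | none => none
            | some st3 => chkArc t be0 be1 d1 f pts' ar' ai' bn' 3 (-1707) 1707 st3
      else none
    else
      let ix := st / 8 % 8
      let ua : Int := (st / 64 % 1024 : Nat) - 512
      let ub : Int := (st / 65536 % 1024 : Nat) - 512
      let kp : Int := (st / 67108864 % 1024 : Nat)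
      let w := arcAB ar ai bn k s0 s1
      match ix with
      | 0 => if ptest t be0 be1 (toPB w) zAB (st % 8) ua ub kp then some (st / 68719476736) else none
      | j + 1 =>
        match pts[j]? with
        | none => none
        | some v => if ptest t be0 be1 v w (st % 8) ua ub kp then some (st / 68719476736) else none

/-- the recursive checker for the point `v₁` of maximal modulus; the certificate is a list of
numbers, one per node of the top level tree -/
def chkTop (t : List (List Int)) :
    Nat → Int → Int → Int → Int → Int → Int → List Nat → Option (List Nat)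
  | 0, _, _, _, _, _, _, _ => none
  | _ + 1, _, _, _, _, _, _, [] => none
  | f + 1, d0, d1, be0, be1, s0, s1, st :: l =>
    if st % 8 = 0 then
      match chkTop t f d0 d1 be0 be1 s0 ((s0 + s1) / 2) l with
      | none => none
      | some l' => chkTop t f d0 d1 be0 be1 ((s0 + s1) / 2) s1 l'
    else if st % 8 = 6 then
      match chkTop t f d0 ((d0 + d1) / 2) be0 be1 s0 s1 l with
      | none => none
      | some l' => chkTop t f ((d0 + d1) / 2) d1 be0 be1 s0 s1 l'
    else if st % 8 = 7 then
      match chkTop t f d0 d1 be0 ((be0 + be1) / 2) s0 s1 l with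
      | none => none
      | some l' => chkTop t f d0 d1 ((be0 + be1) / 2) be1 s0 s1 l'
    else if st % 8 = 5 then
      let ar' : Int := (st / 8 % 4194304 : Nat) - 2097152
      let ai' : Int := (st / 33554432 % 4194304 : Nat) - 2097152
      let bn' : Int := (st / 140737488355328 % 4194304 : Nat)
      if cok ar' ai' bn' then
        let pts' := [vPB d0 d1 s0 s1]
        match chkArc t be0 be1 d1 40 pts' ar' ai' bn' 0 (-1707) 1707 (st / 590295810358705651712) with
        | none => none
        | some st1 =>
          match chkArc t be0 be1 d1 40 pts' ar' ai' bn' 1 (-1707) 1707 st1 with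
          | none => none
          | some st2 =>
            match chkArc t be0 be1 d1 40 pts' ar' ai' bn' 2 (-1707) 1707 st2 with
            | none => none
            | some st3 =>
              match chkArc t be0 be1 d1 40 pts' ar' ai' bn' 3 (-1707) 1707 st3 with
              | none => none
              | some _ => some l
      else none
    else
      let ua : Int := (st / 64 % 1024 : Nat) - 512
      let ub : Int := (st / 65536 % 1024 : Nat) - 512
      let kp : Int := (st / 67108864 % 1024 : Nat)
      if ptest t be0 be1 (vPB d0 d1 s0 s1) zAB (st % 8) ua ub kp then some l else none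

end Pool.Agent.Lib.MP250511.GEOM
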