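import Pool.Agent.Lib.MP_250511_an.Geo.Spec

/-!
Module EAB (helper23): soundness of the arc box.
-/

set_option autoImplicit false

namespace Pool.Agent.Lib.MP250511.GEOM

open Complex

namespace EABM

lemma fl (a b : Int) (hb : 0 < b) :
    ((a / b : Int) : ℝ) * b ≤ a ∧ (a : ℝ) < (((a / b : Int) : ℝ) + 1) * b := by
  constructor
  · exact_mod_cast Int.ediv_mul_le a hb.ne'
  · exact_mod_cast Int.lt_ediv_add_one_mul_self a hb

lemma absb (a l b : ℝ) (h1 : -b ≤ a - l) (h2 : a - l ≤ b) : |a - l| ≤ b := abs_le.2 ⟨h1, h2⟩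

/-- the real variable lemma -/
lemma core (N X Y x y t z et e2 e3 p q yy : ℝ) (hN : 0 < N) (hX : |N * X - x| ≤ 1)
    (hY : |N * Y - y| ≤ 1) (hx : |x| ≤ N) (hp : |p| ≤ 1) (hq : |q| ≤ 1)
    (het : 0 < et) (hyy : |yy| * N ≤ et)
    (he2 : et ^ 2 ≤ e2 * N) (he2' : (e2 - 1) * N ≤ et ^ 2) (he3 : e2 * et ≤ e3 * N)
    (ht : |t * N - x * e2| ≤ N) (hz : |z * N - 2 * y * et| ≤ N)
    (hpp : |p - 1| ≤ 2 * yy ^ 2) (hpq : p ≤ 1)
    (hqq : |q - 2 * yy| ≤ 2 * |yy| ^ 3) :
    |N * (X * p + Y * q) - (x - t + z * (yy * N / et))| * N ≤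
      |x| * e2 + 2 * |y| * e3 + 6 * N := by
  set η := et / N with hη
  have hη0 : 0 < η := by positivity
  set δ := yy * N / et with hδ
  have hyη : yy = η * δ := by
    rw [hη, hδ]
    field_simp
  have hδ1 : |δ| ≤ 1 := by
    rw [hδ, abs_div, abs_mul, abs_of_pos hN, abs_of_pos het, div_le_one het]
    exact hyy
  have hye : |yy| ≤ η := by
    rw [hη, le_div_iff₀ hN]
    exact hyy
  have hη2 : η ^ 2 * N ≤ e2 := by
    rw [hη]
    have : (et / N) ^ 2 * N = et ^ 2 / N := by field_simp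
    rw [this, div_le_iff₀ hN]
    exact he2
  have hη2' : e2 - 1 ≤ η ^ 2 * N := by
    rw [hη]
    have : (et / N) ^ 2 * N = et ^ 2 / N := by field_simp
    rw [this, le_div_iff₀ hN]
    exact he2'
  have hη3 : η ^ 3 * N ≤ e3 := by
    have h1 : η ^ 3 * N = (η ^ 2 * N) * η := by ring
    have h2 : (η ^ 2 * N) * η ≤ e2 * η := mul_le_mul_of_nonneg_right hη2 hη0.le
    have h3 : e2 * η ≤ e3 := by
      rw [hη, ← mul_div_assoc, div_le_iff₀ hN]
      exact he3
    linarith
  have hy2 : yy ^ 2 ≤ η ^ 2 := by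
    rw [← sq_abs yy]
    exact pow_le_pow_left₀ (abs_nonneg _) hye 2
  have hy3 : |yy| ^ 3 ≤ η ^ 3 := pow_le_pow_left₀ (abs_nonneg _) hye 3
  -- the seven error terms
  have T1 : |(N * X - x) * p| ≤ 1 := by
    rw [abs_mul]
    exact mul_le_one₀ hX (abs_nonneg _) hp
  have T2 : |(N * Y - y) * q| ≤ 1 := by
    rw [abs_mul]
    exact mul_le_one₀ hY (abs_nonneg _) hq
  have T3 : |x * (p - (1 - η ^ 2))| * N ≤ |x| * e2 := by
    rw [abs_mul]
    have h1 : |p - (1 - η ^ 2)| ≤ η ^ 2 := by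
      have h2 := abs_le.1 hpp
      rw [abs_le]
      constructor <;> linarith [h2.1]
    calc |x| * |p - (1 - η ^ 2)| * N ≤ |x| * η ^ 2 * N := by gcongr
      _ = |x| * (η ^ 2 * N) := by ring
      _ ≤ |x| * e2 := mul_le_mul_of_nonneg_left hη2 (abs_nonneg _)
  have T4 : |x * (e2 / N - η ^ 2)| ≤ 1 := by
    have h1 : |e2 / N - η ^ 2| ≤ 1 / N := by
      have h2 : e2 / N - η ^ 2 = (e2 - η ^ 2 * N) / N := by field_simp
      rw [h2, abs_div, abs_of_pos hN]
      apply div_le_div_of_nonneg_right _ hN.le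
      rw [abs_le]
      constructor <;> linarith
    rw [abs_mul]
    calc |x| * |e2 / N - η ^ 2| ≤ N * (1 / N) := by
          apply mul_le_mul hx h1 (abs_nonneg _) hN.le
      _ = 1 := by field_simp
  have T5 : |t - x * e2 / N| ≤ 1 := by
    have h2 : t - x * e2 / N = (t * N - x * e2) / N := by field_simp
    rw [h2, abs_div, abs_of_pos hN, div_le_one hN]
    exact ht
  have T6 : |y * (q - 2 * yy)| * N ≤ 2 * |y| * e3 := by
    rw [abs_mul]
    calc |y| * |q - 2 * yy| * N ≤ |y| * (2 * |yy| ^ 3) * N := by gcongr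
      _ ≤ |y| * (2 * η ^ 3) * N := by gcongr
      _ = 2 * |y| * (η ^ 3 * N) := by ring
      _ ≤ 2 * |y| * e3 := mul_le_mul_of_nonneg_left hη3 (by positivity)
  have T7 : |(2 * y * η - z) * δ| ≤ 1 := by
    have h2 : 2 * y * η - z = -((z * N - 2 * y * et) / N) := by
      rw [hη]
      field_simp
      ring
    have h1 : |2 * y * η - z| ≤ 1 := by
      rw [h2, abs_neg, abs_div, abs_of_pos hN, div_le_one hN]
      exact hz
    rw [abs_mul]
    exact mul_le_one₀ h1 (abs_nonneg _) hδ1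
  have key : N * (X * p + Y * q) - (x - t + z * δ) = (N * X - x) * p + (N * Y - y) * q +
      x * (p - (1 - η ^ 2)) + x * (e2 / N - η ^ 2) + (t - x * e2 / N) + y * (q - 2 * yy) +
      (2 * y * η - z) * δ := by
    rw [hyη]
    field_simp
    ring
  rw [key]
  have hsum : |(N * X - x) * p + (N * Y - y) * q +
      x * (p - (1 - η ^ 2)) + x * (e2 / N - η ^ 2) + (t - x * e2 / N) + y * (q - 2 * yy) +
      (2 * y * η - z) * δ| ≤ |(N * X - x) * p| + |(N * Y - y) * q| +
      |x * (p - (1 - η ^ 2))| + |x * (e2 / N - η ^ 2)| + |t - x * e2 / N| + |y * (q - 2 * yy)| +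
      |(2 * y * η - z) * δ| := by
    refine (abs_add_le _ _).trans (add_le_add ?_ le_rfl)
    refine (abs_add_le _ _).trans (add_le_add ?_ le_rfl)
    refine (abs_add_le _ _).trans (add_le_add ?_ le_rfl)
    refine (abs_add_le _ _).trans (add_le_add ?_ le_rfl)
    refine (abs_add_le _ _).trans (add_le_add ?_ le_rfl)
    exact abs_add_le _ _
  have hs2 := mul_le_mul_of_nonneg_right hsum hN.le
  nlinarith

/-- half-angle data -/
lemma pq (y : ℝ) : |(1 - y ^ 2) / (1 + y ^ 2)| ≤ 1 ∧ |2 * y / (1 + y ^ 2)| ≤ 1 ∧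
    |(1 - y ^ 2) / (1 + y ^ 2) - 1| ≤ 2 * y ^ 2 ∧ (1 - y ^ 2) / (1 + y ^ 2) ≤ 1 ∧
    |2 * y / (1 + y ^ 2) - 2 * y| ≤ 2 * |y| ^ 3 := by
  have h0 : 0 < 1 + y ^ 2 := by positivity
  have h1 : 1 ≤ 1 + y ^ 2 := by nlinarith [sq_nonneg y]
  refine ⟨?_, ?_, ?_, ?_, ?_⟩
  · rw [abs_div, abs_of_pos h0, div_le_one h0, abs_le]
    constructor <;> nlinarith [sq_nonneg y]
  · rw [abs_div, abs_of_pos h0, div_le_one h0, abs_le]
    constructor <;> nlinarith [sq_nonneg (y - 1), sq_nonneg (y + 1)]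
  · have h2 : (1 - y ^ 2) / (1 + y ^ 2) - 1 = -(2 * y ^ 2 / (1 + y ^ 2)) := by
      field_simp
      ring
    rw [h2, abs_neg, abs_of_nonneg (by positivity)]
    exact div_le_self (by positivity) h1
  · rw [div_le_one h0]
    nlinarith [sq_nonneg y]
  · have h2 : 2 * y / (1 + y ^ 2) - 2 * y = -(2 * y ^ 3 / (1 + y ^ 2)) := by
      field_simp
      ring
    rw [h2, abs_neg, abs_div, abs_of_pos h0, abs_mul, abs_pow]
    rw [show |(2 : ℝ)| = 2 by norm_num]
    exact div_le_self (by positivity) h1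

/-- multiplication formula -/
lemma ee_mul (s s0 : ℝ) (h : 0 < 1 + s * s0) :
    ee s = ee s0 * ee ((s - s0) / (1 + s * s0)) := by
  have h1 : 1 + ((s - s0) / (1 + s * s0)) ^ 2 = (1 + s ^ 2) * (1 + s0 ^ 2) / (1 + s * s0) ^ 2 := by
    rw [div_pow]
    field_simp
    ring
  have h2 : 1 - ((s - s0) / (1 + s * s0)) ^ 2 =
      ((1 + s * s0) ^ 2 - (s - s0) ^ 2) / (1 + s * s0) ^ 2 := by
    rw [div_pow]
    field_simp
  have a1 : (1 + s ^ 2) ≠ 0 := by positivity
  have a2 : (1 + s0 ^ 2) ≠ 0 := by positivity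
  have a3 : (1 + s * s0) ≠ 0 := h.ne'
  apply Complex.ext
  · rw [mul_re]
    show (1 - s ^ 2) / (1 + s ^ 2) = (1 - s0 ^ 2) / (1 + s0 ^ 2) *
      ((1 - ((s - s0) / (1 + s * s0)) ^ 2) / (1 + ((s - s0) / (1 + s * s0)) ^ 2)) -
      2 * s0 / (1 + s0 ^ 2) * (2 * ((s - s0) / (1 + s * s0)) /
        (1 + ((s - s0) / (1 + s * s0)) ^ 2))
    rw [h1, h2]
    field_simp
    ring
  · rw [mul_im]
    show 2 * s / (1 + s ^ 2) = (1 - s0 ^ 2) / (1 + s0 ^ 2) *
      (2 * ((s - s0) / (1 + s * s0)) / (1 + ((s - s0) / (1 + s * s0)) ^ 2)) +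
      2 * s0 / (1 + s0 ^ 2) * ((1 - ((s - s0) / (1 + s * s0)) ^ 2) /
        (1 + ((s - s0) / (1 + s * s0)) ^ 2))
    rw [h1, h2]
    field_simp
    ring

lemma ab_cast (n : Int) : ((ab n : Int) : ℝ) = |(n : ℝ)| := by
  unfold ab
  rw [Int.cast_natCast, Nat.cast_natAbs, Int.cast_abs]

end EABM

open EABM in
theorem specEAB : SpecEAB := by
  intro s0 s1 h01 h0 h1 s hs0 hs1
  obtain ⟨m, hm⟩ : ∃ m : Int, m = (s0 + s1) / 2 := ⟨_, rfl⟩
  obtain ⟨g, hg⟩ : ∃ g : Int, g = s1 - m := ⟨_, rfl⟩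
  have hg0 : 0 ≤ g := by omega
  have hg1 : g ≤ 4096 := by omega
  have hm0 : -4096 ≤ m := by omega
  have hm1 : m ≤ 4096 := by omega
  have hmg : m - s0 ≤ g := by omega
  obtain ⟨den, hden⟩ : ∃ d : Int, d = 16777216 + m * m := ⟨_, rfl⟩
  have hden0 : 0 < den := by rw [hden]; nlinarith [mul_self_nonneg m]
  have habm : ab m = |m| := by
    unfold ab
    exact (Int.abs_eq_natAbs m).symm
  have habm1 : |m| ≤ 4096 := abs_le.2 ⟨hm0, hm1⟩
  have hmm : m * m ≤ 16777216 := by
    have h2 := mul_le_mul habm1 habm1 (abs_nonneg _) (by norm_num)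
    rw [abs_mul_abs_self] at h2
    linarith
  have hD : 0 < den - g * ab m := by
    rw [habm, hden]
    have h2 : g * |m| ≤ 4096 * 4096 := mul_le_mul hg1 habm1 (abs_nonneg _) (by norm_num)
    rcases eq_or_ne m 0 with h3 | h3
    · rw [h3]; norm_num
    · have h4 : 0 < m * m := mul_self_pos.2 h3
      linarith
  obtain ⟨er, her⟩ : ∃ x : Int, x = (NS * (16777216 - m * m)) / den := ⟨_, rfl⟩
  obtain ⟨ei, hei⟩ : ∃ x : Int, x = (NS * (8192 * m)) / den := ⟨_, rfl⟩
  obtain ⟨et, het⟩ : ∃ x : Int, x = (NS * (4096 * g)) / (den - g * ab m) + 1 := ⟨_, rfl⟩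
  obtain ⟨e2, he2⟩ : ∃ x : Int, x = et * et / NS + 1 := ⟨_, rfl⟩
  obtain ⟨e3, he3⟩ : ∃ x : Int, x = e2 * et / NS + 1 := ⟨_, rfl⟩
  have hAB : eAB s0 s1 = ⟨er - er * e2 / NS, (-2 * ei * et) / NS,
      (ab er * e2 + 2 * ab ei * e3) / NS + 12,
      ei - ei * e2 / NS, (2 * er * et) / NS, (ab ei * e2 + 2 * ab er * e3) / NS + 12⟩ := by
    rw [he3, he2, het, her, hei, hden, hg, hm]
    rfl
  have hNS : (0 : Int) < NS := by unfold NS; norm_num
  have hNSr : ((NS : Int) : ℝ) = 1048576 := by unfold NS; norm_num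
  -- real data
  have hM0 : (-4096 : ℝ) ≤ m := by exact_mod_cast hm0
  have hM1 : (m : ℝ) ≤ 4096 := by exact_mod_cast hm1
  have hG0 : (0 : ℝ) ≤ g := by exact_mod_cast hg0
  have hgr : (g : ℝ) = s1 - m := by rw [hg]; push_cast; ring
  have hmgr : (m : ℝ) - s0 ≤ g := by exact_mod_cast hmg
  have hdr : (den : ℝ) = 16777216 + m * m := by rw [hden]; push_cast; ring
  have hdr0 : (0 : ℝ) < den := by exact_mod_cast hden0
  have htm : |4096 * s - m| ≤ g := by
    rw [abs_le]
    constructor <;> linarith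
  have hDr : (0 : ℝ) < den - g * |(m : ℝ)| := by
    have : (0 : ℝ) < ((den - g * ab m : Int) : ℝ) := by exact_mod_cast hD
    rw [Int.cast_sub, Int.cast_mul, ab_cast] at this
    exact this
  have hDle : (den : ℝ) - g * |(m : ℝ)| ≤ 16777216 + 4096 * s * m := by
    have h2 : -(g * |(m : ℝ)|) ≤ (4096 * s - m) * m := by
      have h3 : |(4096 * s - m) * (m : ℝ)| ≤ g * |(m : ℝ)| := by
        rw [abs_mul]
        exact mul_le_mul_of_nonneg_right htm (abs_nonneg _)
      exact (abs_le.1 h3).1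
    rw [hdr]
    nlinarith
  have hpos : 0 < 1 + s * ((m : ℝ) / 4096) := by
    have : 1 + s * ((m : ℝ) / 4096) = (16777216 + 4096 * s * m) / 16777216 := by ring
    rw [this]
    apply div_pos _ (by norm_num)
    linarith
  obtain ⟨y, hy⟩ : ∃ y : ℝ, y = (s - (m : ℝ) / 4096) / (1 + s * ((m : ℝ) / 4096)) := ⟨_, rfl⟩
  have hy' : y * (16777216 + 4096 * s * m) = 4096 * (4096 * s - m) := by
    rw [hy]
    have h2 : (16777216 + 4096 * s * m) = (1 + s * ((m : ℝ) / 4096)) * 16777216 := by ring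
    rw [h2, ← mul_assoc, div_mul_cancel₀ _ hpos.ne']
    ring
  -- casts of the quotients
  have f1 := fl (NS * (16777216 - m * m)) den hden0
  rw [← her] at f1
  push_cast at f1
  rw [hNSr] at f1
  have f2 := fl (NS * (8192 * m)) den hden0
  rw [← hei] at f2
  push_cast at f2
  rw [hNSr] at f2
  have f3 := fl (NS * (4096 * g)) (den - g * ab m) hD
  have het1 : (NS * (4096 * g)) / (den - g * ab m) = et - 1 := by rw [het]; ring
  rw [het1] at f3
  push_cast at f3
  rw [hNSr, ab_cast] at f3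
  have f4 := fl (et * et) NS hNS
  have h4 : et * et / NS = e2 - 1 := by rw [he2]; ring
  rw [h4, hNSr] at f4
  push_cast at f4
  have f5 := fl (e2 * et) NS hNS
  have h5 : e2 * et / NS = e3 - 1 := by rw [he3]; ring
  rw [h5, hNSr] at f5
  push_cast at f5
  have het0 : (1 : Int) ≤ et := by
    rw [het]
    have : 0 ≤ (NS * (4096 * g)) / (den - g * ab m) :=
      Int.ediv_nonneg (by positivity) hD.le
    linarith
  have hetr : (0 : ℝ) < et := by
    have : (1 : ℝ) ≤ et := by exact_mod_cast het0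
    linarith
  have hyet : |y| * 1048576 ≤ et := by
    have h6 : |y| * (16777216 + 4096 * s * m) = 4096 * |4096 * s - m| := by
      have h7 : 0 < 16777216 + 4096 * s * m := by linarith
      rw [← abs_of_pos h7, ← abs_mul, hy', abs_mul]
      norm_num
    have h8 : |y| * (den - g * |(m : ℝ)|) ≤ 4096 * g := by
      calc |y| * (den - g * |(m : ℝ)|) ≤ |y| * (16777216 + 4096 * s * m) :=
            mul_le_mul_of_nonneg_left hDle (abs_nonneg _)
        _ = 4096 * |4096 * s - m| := h6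
        _ ≤ 4096 * g := by linarith
    by_contra hcon
    push Not at hcon
    have h9 := mul_lt_mul_of_pos_right hcon hDr
    linarith only [f3.2, h9, h8]
  -- A and B
  obtain ⟨A, hA⟩ : ∃ A : ℝ, A = (1 - ((m : ℝ) / 4096) ^ 2) / (1 + ((m : ℝ) / 4096) ^ 2) := ⟨_, rfl⟩
  obtain ⟨B, hB⟩ : ∃ B : ℝ, B = 2 * ((m : ℝ) / 4096) / (1 + ((m : ℝ) / 4096) ^ 2) := ⟨_, rfl⟩
  have hA' : A * den = 16777216 - m * m := by
    rw [hA, hdr]
    have : (1 + ((m : ℝ) / 4096) ^ 2) ≠ 0 := by positivity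
    field_simp
    ring
  have hB' : B * den = 8192 * m := by
    rw [hB, hdr]
    have : (1 + ((m : ℝ) / 4096) ^ 2) ≠ 0 := by positivity
    field_simp
    ring
  have hX : |1048576 * A - er| ≤ 1 := by
    rw [abs_le]
    constructor
    · by_contra hcon
      push Not at hcon
      have h6 := mul_lt_mul_of_pos_right hcon hdr0
      linarith only [f1.1, h6, hA', hdr0]
    · by_contra hcon
      push Not at hcon
      have h6 := mul_lt_mul_of_pos_right hcon hdr0
      linarith only [f1.2, h6, hA']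
  have hY : |1048576 * B - ei| ≤ 1 := by
    rw [abs_le]
    constructor
    · by_contra hcon
      push Not at hcon
      have h6 := mul_lt_mul_of_pos_right hcon hdr0
      linarith only [f2.1, h6, hB', hdr0]
    · by_contra hcon
      push Not at hcon
      have h6 := mul_lt_mul_of_pos_right hcon hdr0
      linarith only [f2.2, h6, hB']
  have her1 : |(er : ℝ)| ≤ 1048576 := by
    have h6 : 0 ≤ er := by
      rw [her]
      apply Int.ediv_nonneg _ hden0.le
      apply mul_nonneg hNS.le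
      linarith only [hmm]
    have h7 : er ≤ 1048576 := by
      rw [her]
      apply Int.ediv_le_of_le_mul hden0
      rw [hden]
      unfold NS
      linarith only [mul_self_nonneg m]
    rw [abs_of_nonneg (by exact_mod_cast h6)]
    exact_mod_cast h7
  have hei1 : |(ei : ℝ)| ≤ 1048576 := by
    have h6 : -1048576 ≤ ei := by
      rw [hei]
      apply Int.le_ediv_of_mul_le hden0
      rw [hden]
      unfold NS
      linarith only [mul_self_nonneg (m + 4096)]
    have h7 : ei ≤ 1048576 := by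
      rw [hei]
      apply Int.ediv_le_of_le_mul hden0
      rw [hden]
      unfold NS
      linarith only [mul_self_nonneg (m - 4096)]
    rw [abs_le]
    constructor
    · exact_mod_cast h6
    · exact_mod_cast h7
  obtain ⟨p1, p2, p3, p4, p5⟩ := pq y
  obtain ⟨p, hp⟩ : ∃ p : ℝ, p = (1 - y ^ 2) / (1 + y ^ 2) := ⟨_, rfl⟩
  obtain ⟨q, hq⟩ : ∃ q : ℝ, q = 2 * y / (1 + y ^ 2) := ⟨_, rfl⟩
  rw [← hp] at p1 p3 p4
  rw [← hq] at p2 p5
  have hee : ee s = ee ((m : ℝ) / 4096) * ee y := by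
    rw [hy]
    exact ee_mul s _ hpos
  have hre : (ee s).re = A * p + (-B) * q := by
    rw [hee, mul_re, hA, hB, hp, hq]
    unfold ee
    ring
  have him : (ee s).im = B * p + A * q := by
    rw [hee, mul_im, hA, hB, hp, hq]
    unfold ee
    ring
  have k1 : ∀ x : Int, |((x * e2 / NS : Int) : ℝ) * 1048576 - x * e2| ≤ 1048576 := by
    intro x
    have h6 := fl (x * e2) NS hNS
    rw [hNSr] at h6
    push_cast at h6
    rw [abs_le]
    constructor <;> linarith [h6.1, h6.2]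
  have k2 : ∀ x : Int, |((x / NS : Int) : ℝ) * 1048576 - x| ≤ 1048576 := by
    intro x
    have h6 := fl x NS hNS
    rw [hNSr] at h6
    rw [abs_le]
    constructor <;> linarith [h6.1, h6.2]
  have k3 : ∀ x z : Int, |(x : ℝ)| * e2 + 2 * |(z : ℝ)| * e3 + 6 * 1048576 ≤
      (((ab x * e2 + 2 * ab z * e3) / NS + 12 : Int) : ℝ) * 1048576 := by
    intro x z
    have h6 := fl (ab x * e2 + 2 * ab z * e3) NS hNS
    rw [hNSr] at h6
    push_cast at h6 ⊢
    rw [ab_cast, ab_cast] at h6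
    linarith [h6.2]
  have c1 := core 1048576 A (-B) er (-ei) ((er * e2 / NS : Int) : ℝ)
    (((-2 * ei * et) / NS : Int) : ℝ) et e2 e3 p q y (by norm_num) hX
    (by rw [show 1048576 * -B - -(ei : ℝ) = -(1048576 * B - ei) by ring, abs_neg]; exact hY)
    her1 p1 p2 hetr hyet (by linarith only [f4.2]) (by linarith only [f4.1]) (by linarith only [f5.2])
    (k1 er) (by
      have h6 := k2 (-2 * ei * et)
      push_cast at h6
      rw [show 2 * -(ei : ℝ) * et = -2 * ei * et by ring]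
      exact h6) p3 p4 p5
  have c2 := core 1048576 B A ei er ((ei * e2 / NS : Int) : ℝ)
    (((2 * er * et) / NS : Int) : ℝ) et e2 e3 p q y (by norm_num) hY hX
    hei1 p1 p2 hetr hyet (by linarith only [f4.2]) (by linarith only [f4.1]) (by linarith only [f5.2])
    (k1 ei) (by
      have h6 := k2 (2 * er * et)
      push_cast at h6
      exact h6) p3 p4 p5
  rw [hAB]
  refine ⟨y * 1048576 / et, ?_, ?_, ?_⟩
  · rw [abs_div, abs_mul, abs_of_pos hetr, div_le_one hetr,
      abs_of_pos (by norm_num : (0 : ℝ) < 1048576)]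
    exact hyet
  · rw [hre]
    rw [abs_neg] at c1
    have h6 := c1.trans (k3 er ei)
    have h7 := le_of_mul_le_mul_right h6 (by norm_num : (0 : ℝ) < 1048576)
    rw [Int.cast_sub]
    exact h7
  · rw [him]
    have h6 := c2.trans (k3 ei er)
    have h7 := le_of_mul_le_mul_right h6 (by norm_num : (0 : ℝ) < 1048576)
    rw [Int.cast_sub]
    exact h7

end Pool.Agent.Lib.MP250511.GEOM
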