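import Pool.Agent.Lib.MP_250511_an.Geo.Spec

/-!
Problem MP_250511_an, module MTS: soundness of the modulus test.
-/

set_option autoImplicit false

namespace Pool.Agent.Lib.MP250511.GEOM

namespace MTSM

theorem divN_gt (n : Int) : (n : ℝ) / 1048576 < ((n / NS : Int) : ℝ) + 1 := by
  have hm : (0 : Int) < NS := by unfold NS; norm_num
  have h := Int.lt_ediv_add_one_mul_self n hm
  rw [div_lt_iff₀ (by norm_num)]
  have h2 : ((n : ℝ)) < (((n / NS : Int) : ℝ) + 1) * ((NS : Int) : ℝ) := by exact_mod_cast h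
  have h3 : ((NS : Int) : ℝ) = 1048576 := by unfold NS; norm_num
  rwa [h3] at h2

end MTSM

theorem specMTS (hTMO : SpecTMO) : SpecMTS := by
  intro d1 w hd h W hW
  obtain ⟨c, hc, h1, h2⟩ := hW
  unfold mtest at h
  have h := of_decide_eq_true h
  have h0 : |(0 : ℝ)| ≤ 1 := by simp
  have e1 : Enc ⟨w.rc, 0, 0, w.rz, w.rr⟩ 0 0 c W.re := by
    unfold Enc
    simp only [Int.cast_zero, zero_mul, add_zero]
    exact h1
  have e2 : Enc ⟨w.ic, 0, 0, w.iz, w.ir⟩ 0 0 c W.im := by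
    unfold Enc
    simp only [Int.cast_zero, zero_mul, add_zero]
    exact h2
  have s1 := (hTMO _ _ 0 0 c _ _ h0 h0 hc e1 e2).2.2.2.2.1
  have s2 := (hTMO _ _ 0 0 c _ _ h0 h0 hc e2 e1).2.2.2.2.1
  have s3 := (hTMO _ _ 0 0 c _ _ h0 h0 hc s1 s2).1
  have s4 := (hTMO _ _ 0 0 c _ _ h0 h0 hc s3 s3).2.2.2.2.2
  have h' : (((d1 * d1 / NS : Int) : ℝ)) + 1 <
      ((TM.lo (TM.add (TM.sqr ⟨w.rc, 0, 0, w.rz, w.rr⟩) (TM.sqr ⟨w.ic, 0, 0, w.iz, w.ir⟩)) : Int) : ℝ) := by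
    exact_mod_cast h
  have h5 := MTSM.divN_gt (d1 * d1)
  push_cast at h5
  have h6 : (d1 : ℝ) * d1 / 1048576 < 1048576 * ‖W‖ ^ 2 := by
    have : ‖W‖ ^ 2 = W.re ^ 2 + W.im ^ 2 := by
      rw [← Complex.normSq_eq_norm_sq, Complex.normSq_apply]
      ring
    rw [this]
    linarith
  rw [div_lt_iff₀ (by norm_num)] at h6
  have hd' : (0 : ℝ) ≤ d1 := by exact_mod_cast hd
  have hn := norm_nonneg W
  by_contra hcon
  push Not at hcon
  have : (1048576 * ‖W‖) * (1048576 * ‖W‖) ≤ d1 * d1 :=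
    mul_le_mul hcon hcon (by positivity) hd'
  nlinarith

end Pool.Agent.Lib.MP250511.GEOM
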