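import Pool.Agent.Lib.MP_250511_an.Geo.Spec

/-!
Problem MP_250511_an, module PTS: soundness of the pair tests.
-/

set_option autoImplicit false

namespace Pool.Agent.Lib.MP250511.GEOM

namespace PTSM

open Complex

/-- the real facts; `r = |u|²`, `e = Re u²`, `p₁ + i p₂ = u P`, `q₁ + i q₂ = u Q` -/
structure Facts (β r e p1 p2 q1 q2 L : ℝ) : Prop where
  pos : 0 < L
  two : 2 * p1 ^ 2 ≤ (8 * r + 8 * β * e - (q1 ^ 2 - q2 ^ 2)) * L
  one : ∀ κ : ℝ, (1 + κ) * p1 ^ 2 + (1 - κ) * p2 ^ 2 + κ / 2 * (q1 ^ 2 - q2 ^ 2) - 8 * κ * β * e -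
    2 * κ ^ 2 * r ≤ 8 * r * L
  tab : ∀ k : ℕ, 1 ≤ k → (q1 ^ 2 + q2 ^ 2) * L ≤
    ((lam tab k : Int) : ℝ) / 1048576 * (q1 ^ 2 + q2 ^ 2) + r * k / 32

theorem facts (hTAB : SpecTAB) (hSEM : SpecSEM) {β : ℝ} {V W u : ℂ} (hV : ‖V‖ < 2) (hW : ‖W‖ < 2)
    (hne : V ≠ W) (hP : PairOK β V W) :
    Facts β (‖u‖ ^ 2) (u ^ 2).re (u * (V + W)).re (u * (V + W)).im (u * (V - W)).re
      (u * (V - W)).im (Real.log (4 / ‖V - W‖)) := by
  obtain ⟨h2, h1, h3⟩ := hSEM β V W hne hP u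
  have hpos : 0 < ‖V - W‖ := norm_pos_iff.2 (sub_ne_zero.2 hne)
  have hlt : ‖V - W‖ < 4 := (norm_sub_le V W).trans_lt (by linarith)
  have hre : ((u * (V - W)) ^ 2).re = (u * (V - W)).re ^ 2 - (u * (V - W)).im ^ 2 := by
    rw [sq, Complex.mul_re, sq, sq]
  have hq : (u * (V - W)).re ^ 2 + (u * (V - W)).im ^ 2 = ‖u‖ ^ 2 * ‖V - W‖ ^ 2 := by
    rw [← mul_pow, ← norm_mul, ← Complex.normSq_eq_norm_sq, Complex.normSq_apply]
    ring
  rw [hre] at h2 h1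
  refine ⟨Real.log_pos (by rw [lt_div_iff₀ hpos]; linarith), h2, h1, fun k hk => ?_⟩
  have hL := h3 k hk
  have ht := hTAB k hk
  rw [hq]
  have hu : 0 ≤ ‖u‖ ^ 2 := by positivity
  have hv : 0 ≤ ‖V - W‖ ^ 2 := by positivity
  have hL2 : ‖V - W‖ ^ 2 * Real.log (4 / ‖V - W‖) ≤
      ((lam GEOM.tab k : Int) : ℝ) / 1048576 * ‖V - W‖ ^ 2 + k / 32 :=
    hL.trans (by gcongr)
  have := mul_le_mul_of_nonneg_left hL2 hu
  calc ‖u‖ ^ 2 * ‖V - W‖ ^ 2 * Real.log (4 / ‖V - W‖)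
      = ‖u‖ ^ 2 * (‖V - W‖ ^ 2 * Real.log (4 / ‖V - W‖)) := by ring
    _ ≤ _ := this
    _ = _ := by ring

/-- the test (III), real version -/
theorem three {β b' r e p1 p2 q1 q2 : ℝ} (hb : |β| ≤ 1 / 2) (hbe : β * e ≤ b' * e) (he : |e| ≤ r)
    (h : (q1 = 0 ∧ q2 = 0) ∨ ∃ L, Facts β r e p1 p2 q1 q2 L)
    (hM : 8 * r + 8 * b' * e - (q1 ^ 2 - q2 ^ 2) < 0) : False := by
  rcases h with ⟨h1, h2⟩ | ⟨L, hF⟩
  · rw [h1, h2] at hM
    have h3 : |β * e| ≤ 1 / 2 * r := by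
      rw [abs_mul]
      exact mul_le_mul hb he (abs_nonneg _) (by norm_num)
    have h4 := (abs_le.1 h3).1
    have h5 : 0 ≤ r := (abs_nonneg _).trans he
    linarith
  · have h2 := hF.two
    have h3 : (8 * r + 8 * β * e - (q1 ^ 2 - q2 ^ 2)) * L ≤
        (8 * r + 8 * b' * e - (q1 ^ 2 - q2 ^ 2)) * L :=
      mul_le_mul_of_nonneg_right (by linarith) hF.pos.le
    have h4 := mul_neg_of_neg_of_pos hM hF.pos
    nlinarith [sq_nonneg p1]

/-- the test (II), real version -/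
theorem two {β b' r e p1 p2 q1 q2 ℓ : ℝ} {k : ℕ} (hk : 1 ≤ k)
    (hℓ : ℓ = ((lam tab k : Int) : ℝ) / 1048576) (hbe : β * e ≤ b' * e) (hr : 0 ≤ r)
    (h : (q1 = 0 ∧ q2 = 0) ∨ ∃ L, Facts β r e p1 p2 q1 q2 L)
    (hM : 0 ≤ 8 * r + 8 * b' * e - (q1 ^ 2 - q2 ^ 2))
    (ht : 0 < 2 * p1 ^ 2 * (q1 ^ 2 + q2 ^ 2) -
      (ℓ * (q1 ^ 2 + q2 ^ 2) + r * k / 32) * (8 * r + 8 * b' * e - (q1 ^ 2 - q2 ^ 2))) : False := by
  rcases h with ⟨h1, h2⟩ | ⟨L, hF⟩
  · rw [h1, h2] at ht hM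
    have h3 : 0 ≤ r * k / 32 := by positivity
    have h4 := mul_nonneg h3 hM
    norm_num at ht h4
    linarith
  · have h2 := hF.two
    have h3 : (8 * r + 8 * β * e - (q1 ^ 2 - q2 ^ 2)) * L ≤
        (8 * r + 8 * b' * e - (q1 ^ 2 - q2 ^ 2)) * L :=
      mul_le_mul_of_nonneg_right (by linarith) hF.pos.le
    have hT : 0 ≤ q1 ^ 2 + q2 ^ 2 := by positivity
    have h4 := mul_le_mul_of_nonneg_right (h2.trans h3) hT
    have h5 := hF.tab k hk
    rw [← hℓ] at h5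
    have h6 := mul_le_mul_of_nonneg_left h5 hM
    have h7 : (8 * r + 8 * b' * e - (q1 ^ 2 - q2 ^ 2)) * L * (q1 ^ 2 + q2 ^ 2) =
        (8 * r + 8 * b' * e - (q1 ^ 2 - q2 ^ 2)) * ((q1 ^ 2 + q2 ^ 2) * L) := by ring
    linarith [mul_comm (8 * r + 8 * b' * e - (q1 ^ 2 - q2 ^ 2))
      (ℓ * (q1 ^ 2 + q2 ^ 2) + r * k / 32)]

/-- the test (I), real version -/
theorem one {β b' r e p1 p2 q1 q2 ℓ κ : ℝ} {k : ℕ} (hk : 1 ≤ k) (hκ : 0 ≤ κ)
    (hℓ : ℓ = ((lam tab k : Int) : ℝ) / 1048576) (hbe : β * e ≤ b' * e) (hr : 0 ≤ r)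
    (h : (q1 = 0 ∧ q2 = 0) ∨ ∃ L, Facts β r e p1 p2 q1 q2 L)
    (ht : 0 < ((1 + κ) * p1 ^ 2 + (1 - κ) * p2 ^ 2 + κ / 2 * (q1 ^ 2 - q2 ^ 2) - 8 * κ * b' * e -
      2 * κ ^ 2 * r) * (q1 ^ 2 + q2 ^ 2) - 8 * r * (ℓ * (q1 ^ 2 + q2 ^ 2) + r * k / 32)) :
    False := by
  rcases h with ⟨h1, h2⟩ | ⟨L, hF⟩
  · rw [h1, h2] at ht
    have h3 : 0 ≤ 8 * r * (r * k / 32) := by positivity
    norm_num at ht h3
    linarith
  · have h2 := hF.one κ
    have hT : 0 ≤ q1 ^ 2 + q2 ^ 2 := by positivity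
    have h3 : κ * (β * e) ≤ κ * (b' * e) := mul_le_mul_of_nonneg_left hbe hκ
    have h4 : (1 + κ) * p1 ^ 2 + (1 - κ) * p2 ^ 2 + κ / 2 * (q1 ^ 2 - q2 ^ 2) - 8 * κ * b' * e -
      2 * κ ^ 2 * r ≤ 8 * r * L := by linarith
    have h5 := mul_le_mul_of_nonneg_right h4 hT
    have h6 := hF.tab k hk
    rw [← hℓ] at h6
    have h7 := mul_le_mul_of_nonneg_left h6 (show (0 : ℝ) ≤ 8 * r by positivity)
    have h8 : 8 * r * L * (q1 ^ 2 + q2 ^ 2) = 8 * r * ((q1 ^ 2 + q2 ^ 2) * L) := by ring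
    linarith

/-! ### rounding -/

theorem div_le (n m : Int) (hm : 0 < m) : ((n / m : Int) : ℝ) ≤ (n : ℝ) / m := by
  have hm' : (0 : ℝ) < m := by exact_mod_cast hm
  rw [le_div_iff₀ hm']
  have h := Int.ediv_mul_le n hm.ne'
  exact_mod_cast h

theorem div_gt (n m : Int) (hm : 0 < m) : (n : ℝ) / m ≤ ((n / m : Int) : ℝ) + 1 := by
  have hm' : (0 : ℝ) < m := by exact_mod_cast hm
  rw [div_le_iff₀ hm']
  have h := Int.lt_ediv_add_one_mul_self n hm
  exact_mod_cast h.le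

theorem abs_term {t a : ℝ} (h0 : 0 ≤ t) (h1 : t ≤ 1) (ha : |a| ≤ 1) : |t * a| ≤ 1 := by
  rw [abs_mul, abs_of_nonneg h0]
  exact mul_le_one₀ h1 (abs_nonneg a) ha

theorem abs_lin_le {x a : ℝ} (ha : |a| ≤ 1) : |x * a| ≤ |x| := by
  rw [abs_mul]
  exact mul_le_of_le_one_right (abs_nonneg x) ha

theorem ab_cast (n : Int) : ((ab n : Int) : ℝ) = |(n : ℝ)| := by
  unfold ab
  rw [Int.natCast_natAbs, Int.cast_abs]

theorem R_cast (A : TM) : ((TM.R A : Int) : ℝ) = |(A.x : ℝ)| + |(A.y : ℝ)| + |(A.z : ℝ)| := by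
  unfold TM.R
  push_cast
  rw [ab_cast, ab_cast, ab_cast]

theorem hi {A : TM} {a b c X : ℝ} (ha : |a| ≤ 1) (hb : |b| ≤ 1) (hc : |c| ≤ 1)
    (hA : Enc A a b c X) : 1048576 * X ≤ ((A.c + A.R + A.r : Int) : ℝ) := by
  unfold Enc at hA
  push_cast
  rw [R_cast]
  rw [abs_le] at hA
  have h1 := (abs_le.1 (abs_lin_le (x := (A.x : ℝ)) ha)).2
  have h2 := (abs_le.1 (abs_lin_le (x := (A.y : ℝ)) hb)).2
  have h3 := (abs_le.1 (abs_lin_le (x := (A.z : ℝ)) hc)).2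
  linarith [hA.2]

/-- the form `Lt` -/
theorem encLt {T : TM} {a b c X r : ℝ} (ha : |a| ≤ 1) (hb : |b| ≤ 1) (hc : |c| ≤ 1)
    (hT : Enc T a b c X) (l rho k : Int) (hr : r = (rho : ℝ) / 65536) :
    Enc ⟨l * T.c / NS + rho * k / 2, l * T.x / NS, l * T.y / NS, l * T.z / NS,
      ab l * T.r / NS + 8⟩ a b c ((l : ℝ) / 1048576 * X + r * k / 32) := by
  have hm : (0 : Int) < NS := by unfold NS; norm_num
  have hN : ((NS : Int) : ℝ) = 1048576 := by unfold NS; norm_num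
  unfold Enc at *
  simp only
  push_cast
  have c0 := div_le (l * T.c) NS hm
  have c1 := div_gt (l * T.c) NS hm
  have d0 := div_le (rho * k) 2 (by norm_num)
  have d1 := div_gt (rho * k) 2 (by norm_num)
  have t1 := abs_term (t := ((l * T.x : Int) : ℝ) / NS - ((l * T.x / NS : Int) : ℝ)) (a := a)
    (by linarith [div_le (l * T.x) NS hm]) (by linarith [div_gt (l * T.x) NS hm]) ha
  have t2 := abs_term (t := ((l * T.y : Int) : ℝ) / NS - ((l * T.y / NS : Int) : ℝ)) (a := b)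
    (by linarith [div_le (l * T.y) NS hm]) (by linarith [div_gt (l * T.y) NS hm]) hb
  have t3 := abs_term (t := ((l * T.z : Int) : ℝ) / NS - ((l * T.z / NS : Int) : ℝ)) (a := c)
    (by linarith [div_le (l * T.z) NS hm]) (by linarith [div_gt (l * T.z) NS hm]) hc
  have er := div_gt (ab l * T.r) NS hm
  rw [hN] at c0 c1 t1 t2 t3 er
  rw [sub_mul] at t1 t2 t3
  have key : |(l : ℝ) / 1048576 * (1048576 * X - (T.c + T.x * a + T.y * b + T.z * c))| ≤
      |(l : ℝ)| * T.r / 1048576 := by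
    rw [abs_mul, abs_div, abs_of_pos (show (0 : ℝ) < 1048576 by norm_num), div_mul_eq_mul_div]
    exact div_le_div_of_nonneg_right (mul_le_mul_of_nonneg_left hT (abs_nonneg _)) (by norm_num)
  push_cast at c0 c1 d0 d1 t1 t2 t3 er
  rw [ab_cast] at er
  rw [hr]
  generalize ((l * T.c / NS : Int) : ℝ) = g0 at *
  generalize ((l * T.x / NS : Int) : ℝ) = g1 at *
  generalize ((l * T.y / NS : Int) : ℝ) = g2 at *
  generalize ((l * T.z / NS : Int) : ℝ) = g3 at *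
  generalize ((ab l * T.r / NS : Int) : ℝ) = g4 at *
  generalize ((rho * k / 2 : Int) : ℝ) = g5 at *
  rw [abs_le] at key t1 t2 t3 ⊢
  have e1 : 1048576 * ((l : ℝ) / 1048576 * X + rho / 65536 * k / 32) =
    (l : ℝ) / 1048576 * (1048576 * X - (T.c + T.x * a + T.y * b + T.z * c)) +
      ((l : ℝ) * T.c / 1048576 + l * T.x / 1048576 * a + l * T.y / 1048576 * b +
        l * T.z / 1048576 * c) + rho * k / 2 := by ring
  rw [e1]
  constructor <;> linarith [key.1, key.2, t1.1, t1.2, t2.1, t2.2, t3.1, t3.2]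

/-- the form `M` -/
theorem encM {BC : TM} {a b c X r e b' : ℝ} (hT : Enc BC a b c X) (rho re be : Int)
    (hr : r = (rho : ℝ) / 65536) (he : e = (re : ℝ) / 65536) (hb' : b' = (be : ℝ) / 1048576) :
    Enc ⟨128 * rho + be * re / 8192 - BC.c, -BC.x, -BC.y, -BC.z, BC.r + 1⟩ a b c
      (8 * r + 8 * b' * e - X) := by
  unfold Enc at *
  simp only
  push_cast
  have d0 := div_le (be * re) 8192 (by norm_num)
  have d1 := div_gt (be * re) 8192 (by norm_num)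
  push_cast at d0 d1
  generalize ((be * re / 8192 : Int) : ℝ) = g5 at *
  rw [abs_le] at hT ⊢
  have e1 : 1048576 * (8 * r + 8 * b' * e - X) = 128 * (rho : ℝ) + be * re / 8192 - 1048576 * X := by
    rw [hr, he, hb']
    ring
  rw [e1]
  constructor <;> linarith [hT.1, hT.2]

/-- the form `G` -/
theorem encG {G1 G2 : TM} {a b c X Y r e b' κ : ℝ} (h1 : Enc G1 a b c X) (h2 : Enc G2 a b c Y)
    (rho re be kp : Int)
    (hr : r = (rho : ℝ) / 65536) (he : e = (re : ℝ) / 65536) (hb' : b' = (be : ℝ) / 1048576)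
    (hκ : κ = (kp : ℝ) / 256) :
    Enc ⟨G1.c + G2.c - kp * be * re / 2097152 - kp * kp * rho / 2048,
          G1.x + G2.x, G1.y + G2.y, G1.z + G2.z, G1.r + G2.r + 3⟩ a b c
      (X + Y - 8 * κ * b' * e - 2 * κ ^ 2 * r) := by
  unfold Enc at *
  simp only
  push_cast
  have d0 := div_le (kp * be * re) 2097152 (by norm_num)
  have d1 := div_gt (kp * be * re) 2097152 (by norm_num)
  have c0 := div_le (kp * kp * rho) 2048 (by norm_num)
  have c1 := div_gt (kp * kp * rho) 2048 (by norm_num)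
  push_cast at d0 d1 c0 c1
  generalize ((kp * be * re / 2097152 : Int) : ℝ) = g5 at *
  generalize ((kp * kp * rho / 2048 : Int) : ℝ) = g6 at *
  rw [abs_le] at h1 h2 ⊢
  have e1 : 1048576 * (X + Y - 8 * κ * b' * e - 2 * κ ^ 2 * r) =
      1048576 * X + 1048576 * Y - kp * be * re / 2097152 - kp * kp * rho / 2048 := by
    rw [hr, he, hb', hκ]
    ring
  rw [e1]
  constructor <;> linarith [h1.1, h1.2, h2.1, h2.2]

theorem encPr {v : PB} {w : AB} {a b c : ℝ} {V W : ℂ}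
    (h1 : |1048576 * V.re - (v.rc + v.rx * a + v.ry * b)| ≤ v.rr)
    (h2 : |1048576 * W.re - (w.rc + w.rz * c)| ≤ w.rr) :
    Enc ⟨v.rc + w.rc, v.rx, v.ry, w.rz, v.rr + w.rr⟩ a b c (V + W).re := by
  unfold Enc
  simp only
  push_cast
  rw [Complex.add_re]
  rw [abs_le] at *
  constructor <;> linarith [h1.1, h1.2, h2.1, h2.2]

theorem encPi {v : PB} {w : AB} {a b c : ℝ} {V W : ℂ}
    (h1 : |1048576 * V.im - (v.ic + v.ix * a + v.iy * b)| ≤ v.ir)
    (h2 : |1048576 * W.im - (w.ic + w.iz * c)| ≤ w.ir) :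
    Enc ⟨v.ic + w.ic, v.ix, v.iy, w.iz, v.ir + w.ir⟩ a b c (V + W).im := by
  unfold Enc
  simp only
  push_cast
  rw [Complex.add_im]
  rw [abs_le] at *
  constructor <;> linarith [h1.1, h1.2, h2.1, h2.2]

theorem encQr {v : PB} {w : AB} {a b c : ℝ} {V W : ℂ}
    (h1 : |1048576 * V.re - (v.rc + v.rx * a + v.ry * b)| ≤ v.rr)
    (h2 : |1048576 * W.re - (w.rc + w.rz * c)| ≤ w.rr) :
    Enc ⟨v.rc - w.rc, v.rx, v.ry, -w.rz, v.rr + w.rr⟩ a b c (V - W).re := by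
  unfold Enc
  simp only
  push_cast
  rw [Complex.sub_re]
  rw [abs_le] at *
  constructor <;> linarith [h1.1, h1.2, h2.1, h2.2]

theorem encQi {v : PB} {w : AB} {a b c : ℝ} {V W : ℂ}
    (h1 : |1048576 * V.im - (v.ic + v.ix * a + v.iy * b)| ≤ v.ir)
    (h2 : |1048576 * W.im - (w.ic + w.iz * c)| ≤ w.ir) :
    Enc ⟨v.ic - w.ic, v.ix, v.iy, -w.iz, v.ir + w.ir⟩ a b c (V - W).im := by
  unfold Enc
  simp only
  push_cast
  rw [Complex.sub_im]
  rw [abs_le] at *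
  constructor <;> linarith [h1.1, h1.2, h2.1, h2.2]

/-- real part of `u X` -/
theorem linRe (hTMO : SpecTMO) {A B : TM} {a b c : ℝ} {X : ℂ} (ha : |a| ≤ 1) (hb : |b| ≤ 1)
    (hc : |c| ≤ 1) (hA : Enc A a b c X.re) (hB : Enc B a b c X.im) (ua ub : Int) {u : ℂ}
    (hu1 : u.re = (ua : ℝ) / 256) (hu2 : u.im = (ub : ℝ) / 256) :
    Enc (TM.lin ua A (-ub) B 256) a b c (u * X).re := by
  have h := (hTMO A B a b c _ _ ha hb hc hA hB).2.2.1 ua (-ub) 256 (by norm_num)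
  have e : (((ua : ℝ) * X.re + ((-ub : Int) : ℝ) * X.im) / ((256 : Int) : ℝ)) = (u * X).re := by
    rw [Complex.mul_re, hu1, hu2]
    push_cast
    ring
  rwa [e] at h

/-- imaginary part of `u X` -/
theorem linIm (hTMO : SpecTMO) {A B : TM} {a b c : ℝ} {X : ℂ} (ha : |a| ≤ 1) (hb : |b| ≤ 1)
    (hc : |c| ≤ 1) (hA : Enc A a b c X.re) (hB : Enc B a b c X.im) (ua ub : Int) {u : ℂ}
    (hu1 : u.re = (ua : ℝ) / 256) (hu2 : u.im = (ub : ℝ) / 256) :
    Enc (TM.lin ub A ua B 256) a b c (u * X).im := by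
  have h := (hTMO A B a b c _ _ ha hb hc hA hB).2.2.1 ub ua 256 (by norm_num)
  have e : (((ub : ℝ) * X.re + (ua : ℝ) * X.im) / ((256 : Int) : ℝ)) = (u * X).im := by
    rw [Complex.mul_im, hu1, hu2]
    push_cast
    ring
  rwa [e] at h

/-- twice a form -/
theorem encTwo {A : TM} {a b c X : ℝ} (hA : Enc A a b c X) :
    Enc ⟨2 * A.c, 2 * A.x, 2 * A.y, 2 * A.z, 2 * A.r⟩ a b c (2 * X) := by
  unfold Enc at *
  simp only
  push_cast
  rw [abs_le] at *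
  constructor <;> linarith [hA.1, hA.2]

end PTSM

open PTSM in
theorem specPTS (hTMO : SpecTMO) (hTAB : SpecTAB) (hSEM : SpecSEM) : SpecPTS := by
  intro be0 be1 v w ty ua ub kp hkp htest β hb0 hb1 hb V W hV hW hVn hWn hP
  obtain ⟨a, b, ha, hbb, hvr, hvi⟩ := hV
  obtain ⟨c, hc, hwr, hwi⟩ := hW
  set u : ℂ := ⟨(ua : ℝ) / 256, (ub : ℝ) / 256⟩ with hu
  have hu1 : u.re = (ua : ℝ) / 256 := rfl
  have hu2 : u.im = (ub : ℝ) / 256 := rfl
  have hr : ‖u‖ ^ 2 = ((ua * ua + ub * ub : Int) : ℝ) / 65536 := by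
    rw [← Complex.normSq_eq_norm_sq, Complex.normSq_apply, hu1, hu2]
    push_cast
    ring
  have he : (u ^ 2).re = ((ua * ua - ub * ub : Int) : ℝ) / 65536 := by
    rw [sq, Complex.mul_re, hu1, hu2]
    push_cast
    ring
  have her : |(u ^ 2).re| ≤ ‖u‖ ^ 2 := by
    rw [← norm_pow]
    exact Complex.abs_re_le_norm _
  have hF : ((u * (V - W)).re = 0 ∧ (u * (V - W)).im = 0) ∨
      ∃ L, Facts β (‖u‖ ^ 2) (u ^ 2).re (u * (V + W)).re (u * (V + W)).im (u * (V - W)).re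
        (u * (V - W)).im L := by
    by_cases h : V = W
    · left
      rw [h, sub_self, mul_zero]
      exact ⟨rfl, rfl⟩
    · exact Or.inr ⟨_, facts hTAB hSEM hVn hWn h (hP h)⟩
  have hr0 : 0 ≤ ‖u‖ ^ 2 := by positivity
  clear_value u
  -- the forms
  have eB1 := linRe hTMO ha hbb hc (encQr hvr hwr) (encQi hvi hwi) ua ub hu1 hu2
  have eC1 := linIm hTMO ha hbb hc (encQr hvr hwr) (encQi hvi hwi) ua ub hu1 hu2
  have eA1 := linRe hTMO ha hbb hc (encPr hvr hwr) (encPi hvi hwi) ua ub hu1 hu2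
  have eA2 := linIm hTMO ha hbb hc (encPr hvr hwr) (encPi hvi hwi) ua ub hu1 hu2
  have eB := (hTMO _ _ a b c _ _ ha hbb hc eB1 eB1).2.2.2.2.1
  have eC := (hTMO _ _ a b c _ _ ha hbb hc eC1 eC1).2.2.2.2.1
  have eA := (hTMO _ _ a b c _ _ ha hbb hc eA1 eA1).2.2.2.2.1
  have eA' := (hTMO _ _ a b c _ _ ha hbb hc eA2 eA2).2.2.2.2.1
  have eBC := (hTMO _ _ a b c _ _ ha hbb hc eB eC).2.1
  have eT := (hTMO _ _ a b c _ _ ha hbb hc eB eC).1
  unfold ptest at htest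
  simp only at htest
  set B := TM.sqr (TM.lin ua ⟨v.rc - w.rc, v.rx, v.ry, -w.rz, v.rr + w.rr⟩ (-ub)
    ⟨v.ic - w.ic, v.ix, v.iy, -w.iz, v.ir + w.ir⟩ 256) with hBdef
  set C := TM.sqr (TM.lin ub ⟨v.rc - w.rc, v.rx, v.ry, -w.rz, v.rr + w.rr⟩ ua
    ⟨v.ic - w.ic, v.ix, v.iy, -w.iz, v.ir + w.ir⟩ 256) with hCdef
  set A := TM.sqr (TM.lin ua ⟨v.rc + w.rc, v.rx, v.ry, w.rz, v.rr + w.rr⟩ (-ub)
    ⟨v.ic + w.ic, v.ix, v.iy, w.iz, v.ir + w.ir⟩ 256) with hAdef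
  set A' := TM.sqr (TM.lin ub ⟨v.rc + w.rc, v.rx, v.ry, w.rz, v.rr + w.rr⟩ ua
    ⟨v.ic + w.ic, v.ix, v.iy, w.iz, v.ir + w.ir⟩ 256) with hA'def
  clear_value A A' B C
  set rho : Int := ua * ua + ub * ub with hrho
  set re : Int := ua * ua - ub * ub with hre
  set be : Int := if 0 ≤ re then be1 else be0 with hbedef
  have hbe : β * (u ^ 2).re ≤ (be : ℝ) / 1048576 * (u ^ 2).re := by
    rw [he]
    by_cases h0 : 0 ≤ re
    · have h1 : be = be1 := by rw [hbedef, if_pos h0]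
      rw [h1]
      have : (0 : ℝ) ≤ re := by exact_mod_cast h0
      exact mul_le_mul_of_nonneg_right (by linarith) (by positivity)
    · have h1 : be = be0 := by rw [hbedef, if_neg h0]
      rw [h1]
      have : (re : ℝ) ≤ 0 := by
        push Not at h0
        exact_mod_cast h0.le
      exact mul_le_mul_of_nonpos_right (by linarith) (by linarith)
  clear_value be rho re
  have eM := encM eBC rho re be hr he rfl
  by_cases h3 : ty = 3
  · rw [if_pos h3] at htest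
    have htest := of_decide_eq_true htest
    have h4 := hi ha hbb hc eM
    have h5 := (Int.cast_lt (R := ℝ)).2 htest
    have h6 := lt_of_le_of_lt h4 h5
    rw [Int.cast_zero] at h6
    exact three hb hbe her hF (by linarith)
  rw [if_neg h3] at htest
  by_cases hk : 1 ≤ ((TM.add B C).c + 32768) / 65536
  swap
  · rw [if_neg hk] at htest
    exact absurd htest (by simp)
  rw [if_pos hk] at htest
  have eLt := encLt ha hbb hc eT (lam tab (((TM.add B C).c + 32768) / 65536).toNat) rho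
    (((TM.add B C).c + 32768) / 65536) hr
  have hkk : 1 ≤ (((TM.add B C).c + 32768) / 65536).toNat := by omega
  have hkc : ((((TM.add B C).c + 32768) / 65536 : Int) : ℝ) =
      ((((TM.add B C).c + 32768) / 65536).toNat : ℝ) := by
    have : ((((((TM.add B C).c + 32768) / 65536).toNat : ℕ) : Int)) =
        ((TM.add B C).c + 32768) / 65536 := Int.toNat_of_nonneg (by omega)
    exact_mod_cast this.symm
  rw [hkc] at eLt
  set T := TM.add B C with hTdef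
  clear_value T
  set k := (T.c + 32768) / 65536 with hkdef
  clear_value k
  by_cases h2 : ty = 2
  · rw [if_pos h2, Bool.and_eq_true] at htest
    obtain ⟨g1, g2⟩ := htest
    have g1 := of_decide_eq_true g1
    have g2 := of_decide_eq_true g2
    have m1 := (hTMO _ _ a b c _ _ ha hbb hc (encTwo eA) eT).2.2.2.1
    have m2 := (hTMO _ _ a b c _ _ ha hbb hc eLt eM).2.2.2.1
    have m3 := (hTMO _ _ a b c _ _ ha hbb hc m1 m2).2.1
    have m4 := (hTMO _ _ a b c _ _ ha hbb hc m3 m3).2.2.2.2.2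
    have m5 := (hTMO _ _ a b c _ _ ha hbb hc eM eM).2.2.2.2.2
    have g1' := le_trans ((Int.cast_le (R := ℝ)).2 g1) m5
    have g2' := lt_of_lt_of_le ((Int.cast_lt (R := ℝ)).2 g2) m4
    rw [Int.cast_zero] at g1' g2'
    refine two hkk rfl hbe hr0 hF (by linarith) (by linarith)
  · rw [if_neg h2] at htest
    have htest := of_decide_eq_true htest
    have n1 := (hTMO _ _ a b c _ _ ha hbb hc eA eA').2.2.1 (256 + kp) (256 - kp) 256 (by norm_num)
    have n2 := (hTMO _ _ a b c _ _ ha hbb hc eBC eBC).2.2.1 kp 0 512 (by norm_num)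
    have n3 := encG n1 n2 rho re be kp hr he rfl rfl
    have n4 := (hTMO _ _ a b c _ _ ha hbb hc n3 eT).2.2.2.1
    have n5 := (hTMO _ _ a b c _ _ ha hbb hc eLt eLt).2.2.1 (8 * rho) 0 65536 (by norm_num)
    have n6 := (hTMO _ _ a b c _ _ ha hbb hc n4 n5).2.1
    have n7 := (hTMO _ _ a b c _ _ ha hbb hc n6 n6).2.2.2.2.2
    have n8 := lt_of_lt_of_le ((Int.cast_lt (R := ℝ)).2 htest) n7
    rw [Int.cast_zero] at n8
    have hκ0 : (0 : ℝ) ≤ (kp : ℝ) / 256 := by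
      have : (0 : ℝ) ≤ kp := by exact_mod_cast hkp
      positivity
    refine one (κ := (kp : ℝ) / 256) hkk hκ0 rfl hbe hr0 hF ?_
    have n9 := (mul_pos_iff_of_pos_left (show (0 : ℝ) < 1048576 by norm_num)).1 n8
    refine n9.trans_le (le_of_eq ?_)
    rw [hr]
    push_cast
    ring

end Pool.Agent.Lib.MP250511.GEOM
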