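import Pool.Agent.Lib.MP_250511_an.Geo.Spec

/-!
Problem MP_250511_an, module SEM: consequences of `PairOK`.
-/

set_option autoImplicit false

namespace Pool.Agent.Lib.MP250511.GEOM

open Complex

namespace SEMM

theorem log_part (q : ℝ) (hq : 0 < q) (k : ℕ) (hk : 1 ≤ k) :
    q ^ 2 * Real.log (4 / q) ≤ (Real.log (256 / k) - 1) / 2 * q ^ 2 + k / 32 := by
  have hk' : (0 : ℝ) < k := by positivity
  have h1 : 2 * Real.log (4 / q) = Real.log (16 / q ^ 2) := by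
    have : (16 : ℝ) / q ^ 2 = (4 / q) ^ 2 := by
      rw [div_pow]; norm_num
    rw [this, Real.log_pow]
    norm_num
  have h2 : Real.log ((16 / q ^ 2) / (256 / k)) ≤ (16 / q ^ 2) / (256 / k) - 1 :=
    Real.log_le_sub_one_of_pos (by positivity)
  have h3 : Real.log ((16 / q ^ 2) / (256 / k)) = Real.log (16 / q ^ 2) - Real.log (256 / k) :=
    Real.log_div (by positivity) (by positivity)
  rw [h3, ← h1] at h2
  have h4 : q ^ 2 * ((16 / q ^ 2) / (256 / k)) = k / 16 := by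
    field_simp
    norm_num
  have h5 := mul_le_mul_of_nonneg_left h2 (by positivity : 0 ≤ q ^ 2)
  have h6 : q ^ 2 * ((16 / q ^ 2) / (256 / k) - 1) = k / 16 - q ^ 2 := by
    rw [mul_sub, h4, mul_one]
  rw [h6] at h5
  nlinarith

end SEMM

open SEMM in
theorem specSEM : SpecSEM := by
  intro β V W hne hpair u
  have hq : 0 < ‖V - W‖ := norm_pos_iff.2 (sub_ne_zero.2 hne)
  refine ⟨?_, ?_, fun k hk => log_part _ hq k hk⟩
  · by_cases hu : u = 0
    · subst hu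
      simp
    · have hu' : 0 < ‖u‖ := norm_pos_iff.2 hu
      have h1 := hpair.1 (u / ‖u‖) (by
        rw [norm_div, Complex.norm_real, norm_norm, div_self hu'.ne'])
      have h2 : (u / ‖u‖ * ((V + W) / 2)) = ((1 / (2 * ‖u‖) : ℝ) : ℂ) * (u * (V + W)) := by
        push_cast
        field_simp
      have h3 : ((u / ‖u‖) ^ 2 * ((β : ℂ) - (V - W) ^ 2 / 8)) =
          ((1 / ‖u‖ ^ 2 : ℝ) : ℂ) * ((β : ℂ) * u ^ 2) -
          ((1 / (8 * ‖u‖ ^ 2) : ℝ) : ℂ) * (u * (V - W)) ^ 2 := by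
        push_cast
        field_simp
      rw [h2, h3, Complex.re_ofReal_mul, Complex.sub_re, Complex.re_ofReal_mul,
        Complex.re_ofReal_mul, Complex.re_ofReal_mul] at h1
      set A := (u * (V + W)).re
      set B := (u ^ 2).re
      set C := ((u * (V - W)) ^ 2).re
      set L := Real.log (4 / ‖V - W‖)
      have h4 := mul_le_mul_of_nonneg_left h1 (by positivity : 0 ≤ 8 * ‖u‖ ^ 2)
      have h5 : 8 * ‖u‖ ^ 2 * (1 / (2 * ‖u‖) * A) ^ 2 = 2 * A ^ 2 := by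
        field_simp
        norm_num
      have h6 : 8 * ‖u‖ ^ 2 * ((1 + (1 / ‖u‖ ^ 2 * (β * B) - 1 / (8 * ‖u‖ ^ 2) * C)) * L) =
          (8 * ‖u‖ ^ 2 + 8 * β * B - C) * L := by
        field_simp
        ring
      rw [h5, h6] at h4
      exact h4
  · intro κ
    have h1 := hpair.2
    set P := V + W with hP
    set Q := V - W with hQ
    set L := Real.log (4 / ‖Q‖)
    set w : ℂ := (P / 2) ^ 2 + Q ^ 2 / 8 - 2 * β with hw
    have h2 : ‖P / 2‖ ^ 2 = ‖P‖ ^ 2 / 4 := by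
      rw [norm_div, div_pow]
      norm_num
    rw [h2] at h1
    -- `|u P|²`
    have h3 : ‖u * P‖ ^ 2 = (u * P).re ^ 2 + (u * P).im ^ 2 := by
      rw [Complex.sq_norm, Complex.normSq_apply]; ring
    have h4 : ‖u * P‖ ^ 2 = ‖u‖ ^ 2 * ‖P‖ ^ 2 := by rw [norm_mul, mul_pow]
    -- the quadratic form
    have h5 : 4 * (u ^ 2 * w).re = (u * P).re ^ 2 - (u * P).im ^ 2 + ((u * Q) ^ 2).re / 2 -
        8 * β * (u ^ 2).re := by
      have h6 : (4 : ℂ) * (u ^ 2 * w) = (u * P) ^ 2 + (u * Q) ^ 2 / 2 - 8 * β * u ^ 2 := by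
        rw [hw]; ring
      have h7 := congrArg Complex.re h6
      have h8 : ((4 : ℂ) * (u ^ 2 * w)).re = 4 * (u ^ 2 * w).re := by
        have : (4 : ℂ) = ((4 : ℝ) : ℂ) := by norm_num
        rw [this, Complex.re_ofReal_mul]
      have h9 : ((u * P) ^ 2).re = (u * P).re ^ 2 - (u * P).im ^ 2 := by
        rw [pow_two, Complex.mul_re]; ring
      have h10 : ((u * Q) ^ 2 / 2).re = ((u * Q) ^ 2).re / 2 := by
        have : (u * Q) ^ 2 / 2 = ((1 / 2 : ℝ) : ℂ) * (u * Q) ^ 2 := by push_cast; ring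
        rw [this, Complex.re_ofReal_mul]; ring
      have h11 : (8 * (β : ℂ) * u ^ 2).re = 8 * β * (u ^ 2).re := by
        have : (8 * (β : ℂ) * u ^ 2) = ((8 * β : ℝ) : ℂ) * u ^ 2 := by push_cast; ring
        rw [this, Complex.re_ofReal_mul]
      rw [h8, Complex.sub_re, Complex.add_re, h9, h10, h11] at h7
      exact h7
    have h6 : |(u ^ 2 * w).re| ≤ ‖u‖ ^ 2 * ‖w‖ := by
      calc |(u ^ 2 * w).re| ≤ ‖u ^ 2 * w‖ := Complex.abs_re_le_norm _
        _ = _ := by rw [norm_mul, norm_pow]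
    have h7 : κ * (u ^ 2 * w).re ≤ |κ| * (‖u‖ ^ 2 * ‖w‖) := by
      calc κ * (u ^ 2 * w).re ≤ |κ * (u ^ 2 * w).re| := le_abs_self _
        _ = |κ| * |(u ^ 2 * w).re| := abs_mul _ _
        _ ≤ _ := mul_le_mul_of_nonneg_left h6 (abs_nonneg _)
    have h8 : 4 * (|κ| * (‖u‖ ^ 2 * ‖w‖)) ≤ 2 * κ ^ 2 * ‖u‖ ^ 2 + 2 * ‖u‖ ^ 2 * ‖w‖ ^ 2 := by
      have h9 : 0 ≤ 2 * ‖u‖ ^ 2 * (|κ| - ‖w‖) ^ 2 := by positivity
      have h10 : |κ| ^ 2 = κ ^ 2 := sq_abs κ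
      nlinarith
    have h9 : 4 * ‖u‖ ^ 2 * (‖P‖ ^ 2 / 4 + ‖w‖ ^ 2 / 2) ≤ 4 * ‖u‖ ^ 2 * (2 * L) :=
      mul_le_mul_of_nonneg_left h1 (by positivity)
    have h12 : κ * (4 * (u ^ 2 * w).re) = κ * ((u * P).re ^ 2 - (u * P).im ^ 2 +
        ((u * Q) ^ 2).re / 2 - 8 * β * (u ^ 2).re) := by rw [h5]
    rw [h3] at h4
    nlinarith

end Pool.Agent.Lib.MP250511.GEOM
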