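import Pool.Agent.Lib.MP_250511_an.Geo.Spec

/-!
Module SYM (helper23).
-/

set_option autoImplicit false

namespace Pool.Agent.Lib.MP250511.GEOM

open Complex

namespace SYMM

lemma pair_neg (β : ℝ) (v w : ℂ) (h : PairOK β v w) : PairOK β (-v) (-w) := by
  have e1 : (-v + -w) / 2 = -((v + w) / 2) := by ring
  have e2 : (-v - -w) = -(v - w) := by ring
  unfold PairOK
  rw [e1, e2, norm_neg, norm_neg, neg_sq, neg_sq]
  refine ⟨fun u hu => ?_, h.2⟩
  have h1 := h.1 u hu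
  rw [mul_neg, neg_re, neg_sq]
  exact h1

lemma pair_conj (β : ℝ) (v w : ℂ) (h : PairOK β v w) :
    PairOK β ((starRingEnd ℂ) v) ((starRingEnd ℂ) w) := by
  have e1 : ((starRingEnd ℂ) v + (starRingEnd ℂ) w) / 2 = (starRingEnd ℂ) ((v + w) / 2) := by
    rw [map_div₀, map_add, map_ofNat]
  have e2 : ((starRingEnd ℂ) v - (starRingEnd ℂ) w) = (starRingEnd ℂ) (v - w) := by
    rw [map_sub]
  unfold PairOK
  rw [e1, e2, norm_conj, norm_conj]
  refine ⟨fun u hu => ?_, ?_⟩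
  · have h1 := h.1 ((starRingEnd ℂ) u) (by rw [norm_conj]; exact hu)
    have a1 : (u * (starRingEnd ℂ) ((v + w) / 2)).re =
        ((starRingEnd ℂ) u * ((v + w) / 2)).re := by
      rw [← conj_re ((starRingEnd ℂ) u * ((v + w) / 2)), map_mul, conj_conj]
    have a2 : (u ^ 2 * ((β : ℂ) - (starRingEnd ℂ) (v - w) ^ 2 / 8)).re =
        (((starRingEnd ℂ) u) ^ 2 * ((β : ℂ) - (v - w) ^ 2 / 8)).re := by
      rw [← conj_re (((starRingEnd ℂ) u) ^ 2 * ((β : ℂ) - (v - w) ^ 2 / 8))]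
      simp only [map_mul, map_pow, map_sub, map_div₀, conj_ofReal, map_ofNat, conj_conj]
    rw [a1, a2]
    exact h1
  · have a3 : (starRingEnd ℂ) ((v + w) / 2) ^ 2 + (starRingEnd ℂ) (v - w) ^ 2 / 8 - 2 * (β : ℂ) =
        (starRingEnd ℂ) (((v + w) / 2) ^ 2 + (v - w) ^ 2 / 8 - 2 * β) := by
      simp only [map_mul, map_pow, map_sub, map_add, map_div₀, conj_ofReal, map_ofNat]
    rw [a3, norm_conj]
    exact h.2

end SYMM

theorem specSYM : SpecSYM := by
  intro β v w h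
  exact ⟨SYMM.pair_conj β v w h, SYMM.pair_neg β _ _ (SYMM.pair_conj β v w h)⟩

end Pool.Agent.Lib.MP250511.GEOM
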