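import Pool.Agent.Lib.MP_250511_an.Defs
import Pool.Agent.Lib.MP_250511_an.Geo.Core

/-!
Problem MP_250511_an: soundness of the certificate checker.  Modules, all independent:
file `Lib/MP_250511_an/Geo/<NAME>.lean`, `theorem specNAME (other Specs) : SpecNAME`,
namespace `Pool.Agent.Lib.MP250511.GEOM`, own lemmas in `namespace ...GEOM.NAMEM`.
`N = 1048576`.
-/

set_option autoImplicit false

namespace Pool.Agent.Lib.MP250511.GEOM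

open Complex

noncomputable section

/-- `X` is enclosed by the form `t` at the noise values `a b c` -/
def Enc (t : TM) (a b c X : ℝ) : Prop :=
  |1048576 * X - (t.c + t.x * a + t.y * b + t.z * c)| ≤ t.r

/-- `V` is enclosed by the point box -/
def InPB (v : PB) (V : ℂ) : Prop := ∃ a b : ℝ, |a| ≤ 1 ∧ |b| ≤ 1 ∧
  |1048576 * V.re - (v.rc + v.rx * a + v.ry * b)| ≤ v.rr ∧
  |1048576 * V.im - (v.ic + v.ix * a + v.iy * b)| ≤ v.ir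

/-- `W` is enclosed by the arc box -/
def InAB (w : AB) (W : ℂ) : Prop := ∃ c : ℝ, |c| ≤ 1 ∧
  |1048576 * W.re - (w.rc + w.rz * c)| ≤ w.rr ∧
  |1048576 * W.im - (w.ic + w.iz * c)| ≤ w.ir

/-- the unit vector with half-angle tangent `s` -/
def ee (s : ℝ) : ℂ := ⟨(1 - s ^ 2) / (1 + s ^ 2), 2 * s / (1 + s ^ 2)⟩

/-- TMO [120].  Soundness of the operations (`Int` division by a positive number is floor: error
`< 1` per component; `ab n = |n|`).  `mul`: with `N X = C + L + e`, `N Y = C' + L' + e'`,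
`|L| ≤ R`, `|e| ≤ r`: `N² X Y = C C' + (C L' + C' L) + [L L' + (C + L) e' + (C' + L') e + e e']`.
`sqr`: `N² X² = C² + 2 C L + [L² + 2 (C + L) e + e²]` and `0 ≤ L² ≤ R²`, so `L² = R²/2 ± R²/2`. -/
def SpecTMO : Prop := ∀ (A B : TM) (a b c X Y : ℝ), |a| ≤ 1 → |b| ≤ 1 → |c| ≤ 1 →
  Enc A a b c X → Enc B a b c Y →
  Enc (TM.add A B) a b c (X + Y) ∧ Enc (TM.sub A B) a b c (X - Y) ∧
  (∀ k l m : Int, 0 < m → Enc (TM.lin k A l B m) a b c (((k : ℝ) * X + l * Y) / m)) ∧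
  Enc (TM.mul A B) a b c (X * Y) ∧ Enc (TM.sqr A) a b c (X ^ 2) ∧
  ((TM.lo A : Int) : ℝ) ≤ 1048576 * X

/-- TAB [60].  The logarithm table.  Proof: for `k ≥ 95`.. (`lam = 0` for `k ≥ 224` and
`log (256/k) ≤ 1` there: `256/224 ≤ e`); for `1 ≤ k ≤ 223`: `log x ≤ y` follows from
`x ≤ exp y`, `exp y ≥ (1 + y / 2^20)^(2^20)` for `y = 2 lam / N + 1 ≥ 0`; check the 223 inequalities
with a verified computation by 20 squarings with downward rounding (`decide +kernel` over `Nat`;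
the table has a margin of `2 / N`; `y ≤ 5.6`, so `(1+y/2^20)^(2^20)` loses a factor
`exp(-y²/2^21) ≥ 1 - 1.5e-5`: if that is too much for small `k`, use `2^26`) . -/
def SpecTAB : Prop := ∀ k : ℕ, 1 ≤ k →
  (Real.log (256 / k) - 1) / 2 ≤ ((lam tab k : Int) : ℝ) / 1048576

/-- SEM [120].  Consequences of `PairOK` for arbitrary `u`, `P = V + W`, `Q = V - W`,
`L = log (4/|Q|)`.  Proof: (II) for `u = 0` trivial, else take the unit vector `u/|u|` in `PairOK`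
(`p = P/2`, `q²/2 = Q²/8`) and multiply by `8 |u|²`.
(I): `PairOK.2` times `4 |u|²` is `|uP|² + 2|u|²|w|² ≤ 8 |u|² L`, `w = P²/4 + Q²/8 - 2β`, and
`2|u|²|w|² ≥ 2 κ .. `: for every complex `c`: `|w|² ≥ 2 Re (conj c w) - |c|²`; with
`conj c = κ u²/|u|² ` (`u ≠ 0`): `2|u|²|w|² ≥ 4 κ Re (u² w) - 2 κ² |u|²` and
`4 κ Re (u² w) = κ Re (u²P²) + (κ/2) Re (u²Q²) - 8 κ β Re u²`, `Re ((uP)²) = (Re uP)² - (Im uP)²`.
(T): `log (4/|Q|) = ½ log (16/|Q|²)`, `log x ≤ log x₀ + x/x₀ - 1`, `x = 16/|Q|²`, `x₀ = 256/k`. -/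
def SpecSEM : Prop := ∀ (β : ℝ) (V W : ℂ), V ≠ W → PairOK β V W → ∀ u : ℂ,
  (2 * ((u * (V + W)).re) ^ 2 ≤ (8 * ‖u‖ ^ 2 + 8 * β * (u ^ 2).re - ((u * (V - W)) ^ 2).re) *
    Real.log (4 / ‖V - W‖)) ∧
  (∀ κ : ℝ, (1 + κ) * ((u * (V + W)).re) ^ 2 + (1 - κ) * ((u * (V + W)).im) ^ 2
    + κ / 2 * ((u * (V - W)) ^ 2).re - 8 * κ * β * (u ^ 2).re - 2 * κ ^ 2 * ‖u‖ ^ 2 ≤
      8 * ‖u‖ ^ 2 * Real.log (4 / ‖V - W‖)) ∧
  (∀ k : ℕ, 1 ≤ k → ‖V - W‖ ^ 2 * Real.log (4 / ‖V - W‖) ≤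
    (Real.log (256 / k) - 1) / 2 * ‖V - W‖ ^ 2 + k / 32)

/-- PTS [250].  Soundness of `ptest` (from TMO, TAB, SEM).  Proof: `u = (ua + ub i)/256`,
`P = V + W`, `Q = V - W`; the forms `Pr, Pi, Qr, Qi` enclose the real and imaginary parts (noise
`a, b` of `v`, `c` of `w`); `A, B, C` enclose `(Re uP)²`, `(Re uQ)²`, `(Im uQ)²`; `T` encloses
`T' = |u|²|Q|²`; `M` encloses `M' = 8|u|² + 8 β' Re u² - Re (uQ)²` with `β' = be/N`, and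
`M(β) ≤ M(β')` for the true `β` (sign of `re`); `Lt` encloses `ℓ T' + |u|² k/32`, `ℓ = l/N`.
`ty = 3`: `M' < 0`, so `M(β) < 0`; if `V ≠ W` then `L > 0` (`|Q| < 4`) and (II) gives
`0 ≤ M(β) L`, contradiction; if `V = W`, `M(β) = 8|u|² + 8 β Re u² ≥ 4 |u|² ≥ 0`.
`ty = 2`: `M' ≥ 0` and `2 (Re uP)² T' - Lt M' > 0`; if `V ≠ W`:
`2 (Re uP)² T' ≤ M(β) L T' ≤ M' L T' ≤ M' (ℓ T' + |u|² k/32)` (`L T' = |u|² |Q|² L`, TAB, `L ≥ 0`);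
if `V = W`: `T' = 0` and the left side is `- M' |u|² k/32 ≤ 0`.
Else: `G' T' - 8 |u|² (ℓ T' + |u|² k/32) > 0` where `G'` is the left side of (I) with `κ = kp/256`
and `β'`, `G(β) ≥ G(β')`.. (the coefficient of `β` in `G` is `- 8 κ Re u²`, `κ ≥ 0`). -/
def SpecPTS : Prop := ∀ (be0 be1 : Int) (v : PB) (w : AB) (ty : ℕ) (ua ub kp : Int), 0 ≤ kp →
  ptest tab be0 be1 v w ty ua ub kp = true →
  ∀ β : ℝ, (be0 : ℝ) ≤ 1048576 * β → 1048576 * β ≤ be1 → |β| ≤ 1 / 2 →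
  ∀ V W : ℂ, InPB v V → InAB w W → ‖V‖ < 2 → ‖W‖ < 2 → (V ≠ W → PairOK β V W) → False

/-- MTS [40].  Soundness of `mtest` (from TMO). -/
def SpecMTS : Prop := ∀ (d1 : Int) (w : AB), 0 ≤ d1 → mtest d1 w = true →
  ∀ W : ℂ, InAB w W → (d1 : ℝ) < 1048576 * ‖W‖

/-- EAB [150].  Soundness of `eAB`.  Proof: `m, g` as in the code, `s₀ = m/4096`; put
`y = (s - s₀)/(1 + s s₀)`; `ee s = ee s₀ * ee y` (complex product); `|s - s₀| ≤ g/4096`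
(`s1 - m ≥ m - s0`), `1 + s s₀ ≥ 1 + s₀² - (g/4096)|s₀| > 0`, so `|y| ≤ η`, `η = et/N`.
`ee y = (1 - 2y²/(1+y²)) + i (2y/(1+y²))`, with `y = η δ`: `2y/(1+y²) = 2 η δ ± 2 η³`,
real part `1 - η² ± η²`.  So the real part of the product is
`er (1 - η²) - ei 2 η δ ± (|er| η² + 2 |ei| η³)` etc.; the constants `12` absorb the roundings
(`er, ei`, `e2`, `e3` and the four divisions). -/
def SpecEAB : Prop := ∀ s0 s1 : Int, s0 ≤ s1 → -4096 ≤ s0 → s1 ≤ 4096 → ∀ s : ℝ,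
  (s0 : ℝ) ≤ 4096 * s → 4096 * s ≤ s1 → InAB (eAB s0 s1) (ee s)

/-- AFF [60].  Rotation and affine maps of arc boxes. -/
def SpecAFF : Prop := ∀ (w : AB) (W : ℂ), InAB w W →
  (∀ k : ℕ, k < 4 → InAB (rotK k w) (I ^ k * W)) ∧
  ∀ ar ai bn : Int, 0 ≤ bn → InAB (affAB ar ai bn w)
    (⟨(ar : ℝ) / 1048576, (ai : ℝ) / 1048576⟩ + ((bn : ℝ) / 1048576 : ℝ) * W)

/-- VPS [60].  Soundness of `vPB` (from TMO, EAB). -/
def SpecVPS : Prop := ∀ d0 d1 s0 s1 : Int, d0 ≤ d1 → s0 ≤ s1 → -4096 ≤ s0 → s1 ≤ 4096 →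
  ∀ d s : ℝ, (d0 : ℝ) ≤ 1048576 * d → 1048576 * d ≤ d1 → (s0 : ℝ) ≤ 4096 * s → 4096 * s ≤ s1 →
  InPB (vPB d0 d1 s0 s1) ((d : ℂ) * ee s)

/-- COV [80].  Every unit vector is `i^k ee s` with `|s| ≤ 1707/4096` (`√2 - 1 < 1707/4096`), and in
the closed first quadrant `ee s` with `0 ≤ s ≤ 1`. -/
def SpecCOV : Prop := ∀ e : ℂ, ‖e‖ = 1 →
  (∃ k : ℕ, k < 4 ∧ ∃ s : ℝ, (-1707 : ℝ) ≤ 4096 * s ∧ 4096 * s ≤ 1707 ∧ e = I ^ k * ee s) ∧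
  (0 ≤ e.re → 0 ≤ e.im → ∃ s : ℝ, 0 ≤ s ∧ s ≤ 1 ∧ e = ee s)

/-- SYM [80].  `PairOK` and the hypotheses on `E` are invariant under `v ↦ conj v` and
`v ↦ - conj v` (`β` real; conjugate `u` too). -/
def SpecSYM : Prop := ∀ (β : ℝ) (v w : ℂ), PairOK β v w →
  PairOK β ((starRingEnd ℂ) v) ((starRingEnd ℂ) w) ∧
  PairOK β (-(starRingEnd ℂ) v) (-(starRingEnd ℂ) w)

/-- BND [60].  Every point of `E` has modulus `< 9/5`.  Proof: pair `(v, 0)`, `u = conj v / |v|` in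
(II): with `x = |v|`: `x²/4 ≤ (1 + β - x²/8) log (4/x)`-ish (`Re (u² β) ≤ β`,
`u² v² = x²`), and `log (4/x) ≥ 0` by the second condition; for `x ≥ 9/5` the right side is at most
`(4/3 - 81/200) log (20/9) < 81/100` (`log (20/9) < 87/100` from
`20/9 ≤ (1 + 0.87/8)^8 ≤ exp 0.87`). -/
def SpecBND : Prop := ∀ (β : ℝ) (v : ℂ), 0 ≤ β → β ≤ 1 / 3 → v ≠ 0 → PairOK β v 0 → ‖v‖ < 9 / 5

end

end Pool.Agent.Lib.MP250511.GEOM
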