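import Pool.Agent.Lib.MP_250511_an.Geo.Spec

/-!
Problem MP_250511_an, module TAB: the logarithm table.
-/

set_option autoImplicit false

namespace Pool.Agent.Lib.MP250511.GEOM

namespace TABM

/-- numerator of the partial sum of the exponential series at `a / N`,
the denominator is `N ^ n * n!` -/
def num (a N : ℕ) : ℕ → ℕ
  | 0 => 1
  | n + 1 => num a N n * (N * (n + 1)) + a ^ (n + 1)

theorem num_eq (a N : ℕ) (hN : 0 < N) (n : ℕ) :
    (num a N n : ℝ) = (N : ℝ) ^ n * (n.factorial : ℝ) *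
      ∑ i ∈ Finset.range (n + 1), ((a : ℝ) / N) ^ i / (i.factorial : ℝ) := by
  have hN' : (N : ℝ) ≠ 0 := by positivity
  induction n with
  | zero => simp [num]
  | succ n ih =>
    rw [Finset.sum_range_succ, mul_add]
    have h1 : (num a N (n + 1) : ℝ) = (num a N n : ℝ) * ((N : ℝ) * (n + 1)) + (a : ℝ) ^ (n + 1) := by
      simp [num]
    have h2 : ((n + 1).factorial : ℝ) ≠ 0 := by positivity
    have h3 : ((n + 1).factorial : ℝ) = (n + 1) * (n.factorial : ℝ) := by
      rw [Nat.factorial_succ]; push_cast; ring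
    have h4 : (N : ℝ) ^ (n + 1) * ((n + 1).factorial : ℝ) *
        (((a : ℝ) / N) ^ (n + 1) / ((n + 1).factorial : ℝ)) = (a : ℝ) ^ (n + 1) := by
      rw [div_pow]
      field_simp
    rw [h1, ih, h4, h3, pow_succ]
    ring

/-- the check for one entry -/
def chk (k : ℕ) : Bool :=
  decide (0 ≤ 2 * lam tab k + 1048576) &&
    Nat.ble (256 * (1048576 ^ 24 * Nat.factorial 24))
      (k * num (2 * lam tab k + 1048576).toNat 1048576 24)

theorem chk_all : (List.range 224).all (fun k => k == 0 || chk k) = true := by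
  decide +kernel

theorem of_chk {k : ℕ} (hk : 1 ≤ k) (h : chk k = true) :
    (Real.log (256 / k) - 1) / 2 ≤ ((lam tab k : Int) : ℝ) / 1048576 := by
  simp only [chk, Bool.and_eq_true, decide_eq_true_eq, Nat.ble_eq] at h
  obtain ⟨h1, h2⟩ := h
  set a : ℕ := (2 * lam tab k + 1048576).toNat with ha
  have ha' : ((a : ℕ) : ℝ) = 2 * ((lam tab k : Int) : ℝ) + 1048576 := by
    have h3 : ((a : ℕ) : ℤ) = 2 * lam tab k + 1048576 := Int.toNat_of_nonneg h1
    have h4 : (((a : ℕ) : ℤ) : ℝ) = ((2 * lam tab k + 1048576 : ℤ) : ℝ) := by rw [h3]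
    push_cast at h4
    exact h4
  have hy : (0 : ℝ) ≤ (a : ℝ) / (1048576 : ℕ) := by positivity
  have h5 := Real.sum_le_exp_of_nonneg hy 25
  have h6 := num_eq a 1048576 (by norm_num) 24
  have h7 : (256 : ℝ) * ((1048576 : ℕ) ^ 24 * (Nat.factorial 24 : ℝ)) ≤
      k * (num a 1048576 24 : ℝ) := by exact_mod_cast h2
  have hk' : (0 : ℝ) < k := by positivity
  have hpos : (0 : ℝ) < ((1048576 : ℕ) : ℝ) ^ 24 * (Nat.factorial 24 : ℝ) := by positivity
  have h8 : (256 : ℝ) ≤ k * ∑ i ∈ Finset.range (24 + 1),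
      ((a : ℝ) / (1048576 : ℕ)) ^ i / (i.factorial : ℝ) := by
    rw [h6] at h7
    have h9 : ((1048576 : ℕ) : ℝ) ^ 24 * (Nat.factorial 24 : ℝ) * 256 ≤
        ((1048576 : ℕ) : ℝ) ^ 24 * (Nat.factorial 24 : ℝ) * (k * ∑ i ∈ Finset.range (24 + 1),
      ((a : ℝ) / (1048576 : ℕ)) ^ i / (i.factorial : ℝ)) := by
      calc _ = (256 : ℝ) * ((1048576 : ℕ) ^ 24 * (Nat.factorial 24 : ℝ)) := by ring
        _ ≤ _ := h7
        _ = _ := by ring
    exact le_of_mul_le_mul_left h9 hpos
  have h10 : (256 : ℝ) / k ≤ Real.exp ((a : ℝ) / (1048576 : ℕ)) := by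
    rw [div_le_iff₀ hk']
    calc (256 : ℝ) ≤ _ := h8
      _ ≤ k * Real.exp ((a : ℝ) / (1048576 : ℕ)) := mul_le_mul_of_nonneg_left h5 hk'.le
      _ = _ := by ring
  have h11 : Real.log (256 / k) ≤ (a : ℝ) / (1048576 : ℕ) := by
    rw [Real.log_le_iff_le_exp (by positivity)]
    exact h10
  rw [ha'] at h11
  push_cast at h11
  have h12 : (2 * ((lam tab k : Int) : ℝ) + 1048576) / 1048576 =
      2 * (((lam tab k : Int) : ℝ) / 1048576) + 1 := by ring
  rw [h12] at h11
  linarith

end TABM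

open TABM in
theorem specTAB : SpecTAB := by
  intro k hk
  by_cases h : k < 224
  · apply of_chk hk
    have h1 := chk_all
    rw [List.all_eq_true] at h1
    have h2 := h1 k (List.mem_range.2 h)
    simp only [Bool.or_eq_true, beq_iff_eq] at h2
    rcases h2 with h2 | h2
    · omega
    · exact h2
  · have h1 : lam tab k = 0 := by
      unfold lam
      have h2 : tab.getD (k / 16) [] = [] := by
        apply List.getD_eq_default
        have : tab.length = 14 := by rfl
        omega
      rw [h2]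
      rfl
    rw [h1]
    have h3 : Real.log (256 / k) ≤ 1 := by
      rw [Real.log_le_iff_le_exp (by positivity)]
      have h4 : (2 : ℝ) ≤ Real.exp 1 := by
        have := Real.add_one_le_exp (1 : ℝ)
        linarith
      refine le_trans ?_ h4
      rw [div_le_iff₀ (by positivity)]
      have h5 : (224 : ℝ) ≤ k := by exact_mod_cast (by omega : 224 ≤ k)
      linarith
    simp only [Int.cast_zero, zero_div]
    linarith

end Pool.Agent.Lib.MP250511.GEOM
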