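import Pool.Agent.Lib.MP_250511_an.Geo.Spec

/-!
Problem MP_250511_an, module TMO: soundness of the first order forms.
-/

set_option autoImplicit false

namespace Pool.Agent.Lib.MP250511.GEOM

namespace TMOM

theorem ab_cast (n : Int) : ((ab n : Int) : ℝ) = |(n : ℝ)| := by
  unfold ab
  rw [Int.natCast_natAbs, Int.cast_abs]

theorem div_le (n m : Int) (hm : 0 < m) : ((n / m : Int) : ℝ) ≤ (n : ℝ) / m := by
  have hm' : (0 : ℝ) < m := by exact_mod_cast hm
  rw [le_div_iff₀ hm']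
  have h := Int.ediv_mul_le n hm.ne'
  exact_mod_cast h

theorem div_gt (n m : Int) (hm : 0 < m) : (n : ℝ) / m ≤ ((n / m : Int) : ℝ) + 1 := by
  have hm' : (0 : ℝ) < m := by exact_mod_cast hm
  rw [div_le_iff₀ hm']
  have h := Int.lt_ediv_add_one_mul_self n hm
  exact_mod_cast h.le

theorem abs_term {t a : ℝ} (h0 : 0 ≤ t) (h1 : t ≤ 1) (ha : |a| ≤ 1) : |t * a| ≤ 1 := by
  rw [abs_mul, abs_of_nonneg h0]
  exact mul_le_one₀ h1 (abs_nonneg a) ha

/-- rounding -/
theorem rnd (m : Int) (hm : 0 < m) (n0 n1 n2 n3 nr : Int) (a b c V : ℝ) (ha : |a| ≤ 1)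
    (hb : |b| ≤ 1) (hc : |c| ≤ 1) (h : |m * V - (n0 + n1 * a + n2 * b + n3 * c)| ≤ nr) :
    |V - (((n0 / m : Int) : ℝ) + ((n1 / m : Int) : ℝ) * a + ((n2 / m : Int) : ℝ) * b +
      ((n3 / m : Int) : ℝ) * c)| ≤ ((nr / m : Int) : ℝ) + 5 := by
  have hm' : (0 : ℝ) < m := by exact_mod_cast hm
  have e0 := div_le n0 m hm
  have f0 := div_gt n0 m hm
  have t1 := abs_term (t := (n1 : ℝ) / m - ((n1 / m : Int) : ℝ)) (a := a)
    (by linarith [div_le n1 m hm]) (by linarith [div_gt n1 m hm]) ha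
  have t2 := abs_term (t := (n2 : ℝ) / m - ((n2 / m : Int) : ℝ)) (a := b)
    (by linarith [div_le n2 m hm]) (by linarith [div_gt n2 m hm]) hb
  have t3 := abs_term (t := (n3 : ℝ) / m - ((n3 / m : Int) : ℝ)) (a := c)
    (by linarith [div_le n3 m hm]) (by linarith [div_gt n3 m hm]) hc
  have er := div_gt nr m hm
  have hV : |V - ((n0 : ℝ) / m + n1 / m * a + n2 / m * b + n3 / m * c)| ≤ nr / m := by
    have : V - ((n0 : ℝ) / m + n1 / m * a + n2 / m * b + n3 / m * c)
        = (m * V - (n0 + n1 * a + n2 * b + n3 * c)) / m := by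
      field_simp
    rw [this, abs_div, abs_of_pos hm']
    exact div_le_div_of_nonneg_right h hm'.le
  rw [abs_le] at hV t1 t2 t3 ⊢
  rw [sub_mul] at t1 t2 t3
  constructor <;> linarith [hV.1, hV.2, t1.1, t1.2, t2.1, t2.2, t3.1, t3.2]

theorem abs_lin_le {x a : ℝ} (ha : |a| ≤ 1) : |x * a| ≤ |x| := by
  rw [abs_mul]
  exact mul_le_of_le_one_right (abs_nonneg x) ha

theorem abs_L {x y z a b c : ℝ} (ha : |a| ≤ 1) (hb : |b| ≤ 1) (hc : |c| ≤ 1) :
    |x * a + y * b + z * c| ≤ |x| + |y| + |z| := by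
  have h1 := abs_add_le (x * a + y * b) (z * c)
  have h2 := abs_add_le (x * a) (y * b)
  linarith [abs_lin_le (x := x) ha, abs_lin_le (x := y) hb, abs_lin_le (x := z) hc]

theorem R_cast (A : TM) : ((TM.R A : Int) : ℝ) = |(A.x : ℝ)| + |(A.y : ℝ)| + |(A.z : ℝ)| := by
  unfold TM.R
  push_cast
  rw [ab_cast, ab_cast, ab_cast]

theorem mul_bound {L L' C C' e e' R R' r r' : ℝ} (hL : |L| ≤ R) (hL' : |L'| ≤ R') (he : |e| ≤ r)
    (he' : |e'| ≤ r') :
    |(C + L + e) * (C' + L' + e') - (C * C' + (C * L' + C' * L))| ≤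
      R * R' + (|C| + R) * r' + (|C'| + R') * r + r * r' := by
  have h0 : (C + L + e) * (C' + L' + e') - (C * C' + (C * L' + C' * L))
      = L * L' + (C + L) * e' + (C' + L') * e + e * e' := by ring
  rw [h0]
  have hR : 0 ≤ R := (abs_nonneg _).trans hL
  have hR' : 0 ≤ R' := (abs_nonneg _).trans hL'
  have hr : 0 ≤ r := (abs_nonneg _).trans he
  have hr' : 0 ≤ r' := (abs_nonneg _).trans he'
  have k1 : |L * L'| ≤ R * R' := by
    rw [abs_mul]
    exact mul_le_mul hL hL' (abs_nonneg _) hR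
  have k2 : |(C + L) * e'| ≤ (|C| + R) * r' := by
    rw [abs_mul]
    exact mul_le_mul ((abs_add_le _ _).trans (by linarith)) he' (abs_nonneg _)
      (add_nonneg (abs_nonneg _) hR)
  have k3 : |(C' + L') * e| ≤ (|C'| + R') * r := by
    rw [abs_mul]
    exact mul_le_mul ((abs_add_le _ _).trans (by linarith)) he (abs_nonneg _)
      (add_nonneg (abs_nonneg _) hR')
  have k4 : |e * e'| ≤ r * r' := by
    rw [abs_mul]
    exact mul_le_mul he he' (abs_nonneg _) hr
  have s1 := abs_add_le (L * L' + (C + L) * e' + (C' + L') * e) (e * e')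
  have s2 := abs_add_le (L * L' + (C + L) * e') ((C' + L') * e)
  have s3 := abs_add_le (L * L') ((C + L) * e')
  linarith

theorem sqr_bound {L C e R r h : ℝ} (hL : |L| ≤ R) (he : |e| ≤ r) (hh : 0 ≤ h)
    (h2 : R ^ 2 ≤ 2 * h + 1) :
    |(C + L + e) ^ 2 - (C * C + h + 2 * C * L)| ≤ h + 1 + 2 * (|C| + R) * r + r * r := by
  have h0 : (C + L + e) ^ 2 - (C * C + h + 2 * C * L)
      = (L ^ 2 - h) + 2 * ((C + L) * e) + e * e := by ring
  rw [h0]
  have hR : 0 ≤ R := (abs_nonneg _).trans hL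
  have hr : 0 ≤ r := (abs_nonneg _).trans he
  have k1 : |L ^ 2 - h| ≤ h + 1 := by
    have : L ^ 2 ≤ R ^ 2 := sq_le_sq' (by linarith [(abs_le.1 hL).1]) (abs_le.1 hL).2
    rw [abs_le]
    constructor <;> nlinarith [sq_nonneg L]
  have k2 : |(C + L) * e| ≤ (|C| + R) * r := by
    rw [abs_mul]
    exact mul_le_mul ((abs_add_le _ _).trans (by linarith)) he (abs_nonneg _)
      (add_nonneg (abs_nonneg _) hR)
  have k4 : |e * e| ≤ r * r := by
    rw [abs_mul]
    exact mul_le_mul he he (abs_nonneg _) hr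
  have s1 := abs_add_le (L ^ 2 - h + 2 * ((C + L) * e)) (e * e)
  have s2 := abs_add_le (L ^ 2 - h) (2 * ((C + L) * e))
  have s3 : |2 * ((C + L) * e)| = 2 * |(C + L) * e| := by rw [abs_mul, abs_two]
  linarith

theorem NS_pos : (0 : Int) < NS := by unfold NS; norm_num

theorem NS_cast : ((NS : Int) : ℝ) = 1048576 := by unfold NS; norm_num

variable {A B : TM} {a b c X Y : ℝ}

theorem add (hA : Enc A a b c X) (hB : Enc B a b c Y) : Enc (TM.add A B) a b c (X + Y) := by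
  unfold Enc TM.add at *
  rw [abs_le] at *
  push_cast
  constructor <;> linarith [hA.1, hA.2, hB.1, hB.2]

theorem sub (hA : Enc A a b c X) (hB : Enc B a b c Y) : Enc (TM.sub A B) a b c (X - Y) := by
  unfold Enc TM.sub at *
  rw [abs_le] at *
  push_cast
  constructor <;> linarith [hA.1, hA.2, hB.1, hB.2]

theorem lin (ha : |a| ≤ 1) (hb : |b| ≤ 1) (hc : |c| ≤ 1) (hA : Enc A a b c X)
    (hB : Enc B a b c Y) (k l m : Int) (hm : 0 < m) :
    Enc (TM.lin k A l B m) a b c (((k : ℝ) * X + l * Y) / m) := by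
  unfold Enc at *
  have hm' : (0 : ℝ) < m := by exact_mod_cast hm
  have key := rnd m hm (k * A.c + l * B.c) (k * A.x + l * B.x) (k * A.y + l * B.y)
    (k * A.z + l * B.z) (ab k * A.r + ab l * B.r) a b c
    (1048576 * (((k : ℝ) * X + l * Y) / m)) ha hb hc ?_
  · unfold TM.lin
    simp only
    push_cast at key ⊢
    exact key
  · push_cast
    rw [ab_cast, ab_cast]
    have e : (m : ℝ) * (1048576 * (((k : ℝ) * X + l * Y) / m)) -
        (k * A.c + l * B.c + (k * A.x + l * B.x) * a + (k * A.y + l * B.y) * b +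
          (k * A.z + l * B.z) * c)
        = k * (1048576 * X - (A.c + A.x * a + A.y * b + A.z * c)) +
          l * (1048576 * Y - (B.c + B.x * a + B.y * b + B.z * c)) := by
      field_simp
      ring
    rw [e]
    refine (abs_add_le _ _).trans ?_
    rw [abs_mul, abs_mul]
    exact add_le_add (mul_le_mul_of_nonneg_left hA (abs_nonneg _))
      (mul_le_mul_of_nonneg_left hB (abs_nonneg _))

theorem mul (ha : |a| ≤ 1) (hb : |b| ≤ 1) (hc : |c| ≤ 1) (hA : Enc A a b c X)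
    (hB : Enc B a b c Y) : Enc (TM.mul A B) a b c (X * Y) := by
  unfold Enc at *
  have LA := abs_L (x := A.x) (y := A.y) (z := A.z) ha hb hc
  have LB := abs_L (x := B.x) (y := B.y) (z := B.z) ha hb hc
  rw [← R_cast] at LA LB
  have key := rnd NS NS_pos (A.c * B.c) (A.c * B.x + A.x * B.c) (A.c * B.y + A.y * B.c)
    (A.c * B.z + A.z * B.c)
    (A.R * B.R + (ab A.c + A.R) * B.r + (ab B.c + B.R) * A.r + A.r * B.r) a b c
    (1048576 * (X * Y)) ha hb hc ?_
  · unfold TM.mul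
    simp only
    push_cast at key ⊢
    exact key
  · push_cast
    rw [ab_cast, ab_cast, NS_cast]
    have hb := mul_bound (C := A.c) (C' := B.c) LA LB hA hB
    refine le_trans (le_of_eq ?_) hb
    congr 1
    ring

theorem sqr (ha : |a| ≤ 1) (hb : |b| ≤ 1) (hc : |c| ≤ 1) (hA : Enc A a b c X) :
    Enc (TM.sqr A) a b c (X ^ 2) := by
  unfold Enc at *
  have LA := abs_L (x := A.x) (y := A.y) (z := A.z) ha hb hc
  rw [← R_cast] at LA
  have hh0 : (0 : Int) ≤ A.R * A.R / 2 := Int.ediv_nonneg (mul_self_nonneg _) (by norm_num)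
  have hh1 : A.R * A.R ≤ 2 * (A.R * A.R / 2) + 1 := by omega
  have key := rnd NS NS_pos (A.c * A.c + A.R * A.R / 2) (2 * A.c * A.x) (2 * A.c * A.y)
    (2 * A.c * A.z)
    (A.R * A.R / 2 + 1 + 2 * (ab A.c + A.R) * A.r + A.r * A.r) a b c
    (1048576 * (X ^ 2)) ha hb hc ?_
  · unfold TM.sqr
    simp only
    push_cast at key ⊢
    exact key
  · generalize A.R * A.R / 2 = h at hh0 hh1
    push_cast
    rw [ab_cast, NS_cast]
    have h0' : (0 : ℝ) ≤ h := by exact_mod_cast hh0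
    have h1' : (A.R : ℝ) ^ 2 ≤ 2 * h + 1 := by
      rw [sq]
      exact_mod_cast hh1
    have hb := sqr_bound (C := A.c) LA hA h0' h1'
    refine le_trans (le_of_eq ?_) hb
    congr 1
    ring

theorem lo (ha : |a| ≤ 1) (hb : |b| ≤ 1) (hc : |c| ≤ 1) (hA : Enc A a b c X) :
    ((TM.lo A : Int) : ℝ) ≤ 1048576 * X := by
  unfold Enc at hA
  have LA := abs_L (x := A.x) (y := A.y) (z := A.z) ha hb hc
  rw [← R_cast] at LA
  unfold TM.lo
  push_cast
  rw [abs_le] at LA hA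
  linarith [LA.1, hA.1]

end TMOM

theorem specTMO : SpecTMO := fun _ _ _ _ _ _ _ ha hb hc hA hB =>
  ⟨TMOM.add hA hB, TMOM.sub hA hB, fun k l m hm => TMOM.lin ha hb hc hA hB k l m hm,
    TMOM.mul ha hb hc hA hB, TMOM.sqr ha hb hc hA, TMOM.lo ha hb hc hA⟩

end Pool.Agent.Lib.MP250511.GEOM
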