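import Pool.Agent.Lib.MP_250511_an.Geo.Spec

/-!
# MP_250511_an, certificate checker, module VPS: soundness of `vPB`
-/

set_option autoImplicit false

namespace Pool.Agent.Lib.MP250511.GEOM

open Complex

namespace VPSM

lemma mid (d0 d1 : Int) (h : d0 ≤ d1) (d : ℝ) (h0 : (d0 : ℝ) ≤ 1048576 * d)
    (h1 : 1048576 * d ≤ d1) : ∃ a : ℝ, |a| ≤ 1 ∧
      1048576 * d = (((d0 + d1) / 2 : Int) : ℝ) + ((d1 - (d0 + d1) / 2 : Int) : ℝ) * a := by
  have k1 : 2 * ((d0 + d1) / 2) ≤ d0 + d1 := by omega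
  have k2 : (0 : Int) ≤ d1 - (d0 + d1) / 2 := by omega
  have k1' : 2 * (((d0 + d1) / 2 : Int) : ℝ) ≤ d0 + d1 := by exact_mod_cast k1
  set m : Int := (d0 + d1) / 2
  have k2' : (0 : ℝ) ≤ ((d1 - m : Int) : ℝ) := by exact_mod_cast k2
  have k3 : |1048576 * d - (m : ℝ)| ≤ ((d1 - m : Int) : ℝ) := by
    push_cast
    exact abs_le.2 ⟨by linarith, by linarith⟩
  rcases k2'.eq_or_lt with hz | hp
  · refine ⟨0, by simp, ?_⟩
    rw [← hz, abs_nonpos_iff] at k3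
    linarith
  · refine ⟨(1048576 * d - m) / ((d1 - m : Int) : ℝ), ?_, ?_⟩
    · rw [abs_div, abs_of_pos hp, div_le_one hp]
      exact k3
    · rw [mul_div_cancel₀ _ hp.ne']
      ring

end VPSM

open VPSM

theorem specVPS (hTMO : SpecTMO) (hEAB : SpecEAB) : SpecVPS := by
  intro d0 d1 s0 s1 hd hs hs0 hs1 d s hd0 hd1 hs0' hs1'
  obtain ⟨a, ha, hda⟩ := mid d0 d1 hd d hd0 hd1
  obtain ⟨c, hc, h1, h2⟩ := hEAB s0 s1 hs hs0 hs1 s hs0' hs1'
  refine ⟨a, c, ha, hc, ?_, ?_⟩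
  · have e1 : Enc ⟨(d0 + d1) / 2, d1 - (d0 + d1) / 2, 0, 0, 0⟩ a c 0 d := by
      unfold Enc
      simp only [hda]
      simp
    have e2 : Enc ⟨(eAB s0 s1).rc, 0, (eAB s0 s1).rz, 0, (eAB s0 s1).rr⟩ a c 0 (ee s).re := by
      unfold Enc
      simpa using h1
    have e3 := (hTMO _ _ a c 0 _ _ ha hc (by simp) e1 e2).2.2.2.1
    unfold Enc at e3
    simpa [vPB] using e3
  · have e1 : Enc ⟨(d0 + d1) / 2, d1 - (d0 + d1) / 2, 0, 0, 0⟩ a c 0 d := by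
      unfold Enc
      simp only [hda]
      simp
    have e2 : Enc ⟨(eAB s0 s1).ic, 0, (eAB s0 s1).iz, 0, (eAB s0 s1).ir⟩ a c 0 (ee s).im := by
      unfold Enc
      simpa using h2
    have e3 := (hTMO _ _ a c 0 _ _ ha hc (by simp) e1 e2).2.2.2.1
    unfold Enc at e3
    simpa [vPB] using e3

end Pool.Agent.Lib.MP250511.GEOM
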